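import Pool.Agent.Helper42.WY.SELO2

/-!
# Project WY: the elements of `M` which are `p`-th powers in `M₂`, the case `χ₀ ≡ ω`, `J ≠ K`
-/

set_option autoImplicit false
set_option linter.unusedSectionVars false

namespace Pool.Agent.Helper42.WY

open NumberField Polynomial Module IsDedekindDomain
open Pool.Agent.Helper51.RP Pool.Agent.Helper42.RD Pool.Agent.Helper42.PP Pool.Agent.Helper42.PP1
open Pool.Agent.Helper42.PB Pool.Agent.Helper42.PW Pool.Agent.Helper38.WY Pool.Agent.Helper11.PP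
open Pool.Agent.Helper40.RS (bel gw bel_smul lies conj_of_bel free_gw absNorm_free val_smul)
open Pool.Agent.Helper13.RD (eq_gw ram_free eq_of_val)
open Pool.Agent.Helper40.RD (bel_of_above ordW valW)
open Pool.Agent.Helper59.PP (hom_prod hom_inv hom_div labs_fin dvd_conj)
open Pool.Agent.Helper79.PP (clp_eq clp_mul)
open Pool.Agent.Helper11.M3 (Piv Bad₄)
open Pool.Agent.Helper17.PP (Sys)

/-- `x` is a `p`-th power in `M₂`. -/
def Pw2 (p : ℕ) {M : Type} (M₂ : Type) [Field M] [Field M₂] [Algebra M M₂] (x : Mˣ) : Prop :=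
  ∃ w : M₂, w ^ p = algebraMap M M₂ (x : M)

section main

variable {p : ℕ} [hp : Fact p.Prime] {K M K₁ M₁ J M₂ : Type} [Field K] [NumberField K] [Field M]
  [NumberField M] [Field K₁] [NumberField K₁] [Field M₁] [NumberField M₁] [Field J]
  [NumberField J] [Field M₂] [NumberField M₂] [Algebra K M] [Algebra K K₁] [Algebra K M₁]
  [Algebra M M₁] [Algebra K₁ M₁] [Algebra K J] [Algebra K M₂] [Algebra M M₂] [Algebra K₁ M₂]
  [Algebra M₁ M₂] [Algebra J M₂] {ε : K₁} {δ : M ≃ₐ[K] M} {P : (ZMod p)[X]} {a₀ : M₂ˣ}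

theorem pw2_act (hB : SitB p K M K₁ M₁ J M₂ ε δ P a₀) {x : Mˣ} (hx : Pw2 p M₂ x)
    (g : M ≃ₐ[K] M) : Pw2 p M₂ (act g x) := by
  have := hB.sit.gM
  have := hB.gM₂
  have := tow_M hB
  obtain ⟨w, hw⟩ := hx
  refine ⟨AlgEquiv.liftNormal g M₂ w, ?_⟩
  rw [← map_pow, hw]
  exact AlgEquiv.liftNormal_commutes g M₂ (x : M)

theorem val_pw2 (hB : SitB p K M K₁ M₁ J M₂ ε δ P a₀) (B : Base p K M K₁ M₁ ε δ P)
    (D : BaseB B a₀) {x : Mˣ} (hx : Pw2 p M₂ x) (w' : HeightOneSpectrum (𝓞 M))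
    (hw' : w' ∉ up M B.S) : (p : ℤ) ∣ ordv w' (x : M) := by
  have := tow_M hB
  obtain ⟨w, hw⟩ := hx
  obtain ⟨W, hW⟩ := exists_above' (E := M₂) w'
  have hWv : Above W (bel K w') := Pool.Agent.Helper96.RL.above_trans hW rfl
  have hvS : bel K w' ∉ B.S := fun h => hw' ⟨bel K w', h, rfl⟩
  have hu := D.unr (bel K w') hvS W hWv
  rw [← ord_of_unr hWv hW hu, ← hw, Pool.Agent.Helper49.RL.ordv_pow]
  exact dvd_mul_right _ _

theorem nv_pw2 (hB : SitB p K M K₁ M₁ J M₂ ε δ P a₀) (B : Base p K M K₁ M₁ ε δ P)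
    (D : BaseB B a₀) {x : Mˣ} (hx : Pw2 p M₂ x) {v : HeightOneSpectrum (𝓞 K)}
    (hv : v ∈ Spl M₂ B.S) : B.nv v x = 0 := by
  have := hB.sit.st1
  have := hB.sit.gM
  have hvis := spl_vis hB B hv
  obtain ⟨b1, b2, b3, b4⟩ := B.Wa v hvis
  have hwv : Above (B.w v) v := Pool.Agent.Helper96.RL.above_mid b3 b1
  unfold Base.nv kf
  refine Finset.sum_eq_zero fun i _ => ?_
  have h1 := val_pw2 hB B D (pw2_act hB hx (δ ^ i)) (B.w v) (notMem_up hv.1 hwv)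
  rw [ordp_zero_iff.2 h1, map_zero, zero_mul]

theorem R_pw2 (hB : SitB p K M K₁ M₁ J M₂ ε δ P a₀) (B : Base p K M K₁ M₁ ε δ P)
    (D : BaseB B a₀) {x : Mˣ} (hx : Pw2 p M₂ x) {v : HeightOneSpectrum (𝓞 K)}
    (hv : v ∈ Spl M₂ B.S) : B.R v x = 0 := by
  have hp0 : p ≠ 0 := hp.out.ne_zero
  have := hB.t1
  have := hB.t2
  have := hB.gM₂
  have hvis := spl_vis hB B hv
  obtain ⟨hA1, hA2, hA3⟩ := D.W₂a v hv
  have hu := D.unr v hv.1 (D.W₂ v) hA1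
  have hN : Ideal.absNorm (D.W₂ v).asIdeal = Ideal.absNorm v.asIdeal := by
    rw [absNorm_free (K := K) _ hA3, bel_of_above hA1]
  unfold Base.R kf
  refine Finset.sum_eq_zero fun i _ => ?_
  have h1 : B.th v (inc M M₁ (act (δ ^ i) x)) = 0 := by
    obtain ⟨w, hw⟩ := pw2_act hB hx (δ ^ i)
    have hw0 : w ≠ 0 := by
      rintro rfl
      rw [zero_pow hp0] at hw
      exact (act (δ ^ i) x).ne_zero ((map_eq_zero_iff _ (algebraMap M M₂).injective).1 hw.symm)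
    rw [B.thk v hvis]
    refine ⟨0, ?_⟩
    rw [pow_zero, mul_one]
    refine locPow_down hA1 hA2 hu hN hp0 ?_
    refine ⟨w⁻¹, ?_⟩
    have h2 : algebraMap M₁ M₂ ((inc M M₁ (act (δ ^ i) x) : M₁ˣ) : M₁) = w ^ p := by
      rw [hw]
      show algebraMap M₁ M₂ (algebraMap M M₁ _) = _
      rw [← IsScalarTower.algebraMap_apply M M₁ M₂]
    rw [h2, ← mul_pow, mul_inv_cancel₀ hw0, one_pow, sub_self, map_zero]
    exact zero_lt_one
  show algebraMap (ZMod p) (AdjoinRoot P) (B.th v (inc M M₁ (act (δ ^ i) x))) * _ = 0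
  rw [h1, map_zero, zero_mul]

/-- A `P`-functional on these elements. -/
theorem dec_pw2 (hB : SitB p K M K₁ M₁ J M₂ ε δ P a₀)
    (B : Base p K M K₁ M₁ ε δ P)
    (D : BaseB B a₀) {x : Mˣ} (hxP : Pw p (pol P δ x)) (hx : Pw2 p M₂ x)
    (F : Mˣ → AdjoinRoot P) (hF : IsP δ P F) : ∑ i, B.rho i x * F (B.u i) = F x := by
  obtain ⟨d1, d2⟩ := w_dec p K M K₁ M₁ ε δ P hB.sit B x hxP ∅
    (fun v hv => absurd hv (Finset.notMem_empty v))
    (fun w hw _ => val_pw2 hB B D hx w hw)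
  have h := d1 F hF
  rw [Finset.sum_empty, add_zero] at h
  exact h.symm

/-- The element `x` is in the Selmer group. -/
theorem selX_pw2 (hGRP : N_GRP) (hSGB : Y_SGB) {T' : Set (M₂ →+* ℂ_[p])} {ε₂ α : M₂}
    (hε : IsPrimitiveRoot ε₂ p) (hα : α ≠ 0) {x : Mˣ} (hxP : Pw p (pol P δ x))
    (hx : Pw2 p M₂ x) : SelX T' P δ ε₂ α x := by
  have hp0 : p ≠ 0 := hp.out.ne_zero
  obtain ⟨w, hw⟩ := hx
  have hw0 : w ≠ 0 := by
    rintro rfl
    rw [zero_pow hp0] at hw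
    exact x.ne_zero ((map_eq_zero_iff _ (algebraMap M M₂).injective).1 hw.symm)
  refine ⟨hxP, fun W => ?_, fun τ _ => ?_⟩
  · have h := Pool.Agent.Helper82.PW.locW_pow (p := p) (W := W) hGRP hα (Units.mk0 w hw0)
    rw [Units.val_pow_eq_pow_val, Units.val_mk0, hw] at h
    exact h
  · obtain ⟨s1, -⟩ := hSGB p M₂ τ ε₂ α hε hα
    rw [← hw]
    refine s1 _ ⟨τ w, subset_closure ⟨_, rfl⟩, ?_⟩
    rw [map_pow]

theorem lam_pw2 (hGRP : N_GRP) (hSGB : Y_SGB) [Fact (Irreducible P)]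
    (hB : SitB p K M K₁ M₁ J M₂ ε δ P a₀) (B : Base p K M K₁ M₁ ε δ P)
    (D : BaseB B a₀) (T : Set (K →+* ℂ_[p])) (aτ : K₁ˣ) {n : ℕ} (E : TauX n B a₀ T aτ) {x : Mˣ}
    (hxP : Pw p (pol P δ x)) (hx : Pw2 p M₂ x) :
    Submodule.span (AdjoinRoot P) {fun i => B.rho i x} ≤
      LinearMap.ker (sysB B E.toTauF (Spl M₂ B.S) D.s0 aτ).lam₀ := by
  rw [Submodule.span_singleton_le_iff_mem, LinearMap.mem_ker]
  funext j
  rw [sysB_lam0, dec_pw2 hB B D hxP hx (E.h j) (E.hP j)]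
  have hε₂ : IsPrimitiveRoot (algebraMap K₁ M₂ ε) p :=
    hB.sit.prim.map_of_injective (algebraMap K₁ M₂).injective
  have hα : (a₀ : M₂) * algebraMap K₁ M₂ (aτ : K₁) ≠ 0 :=
    mul_ne_zero a₀.ne_zero ((_root_.map_ne_zero _).2 aτ.ne_zero)
  have h := selX_pw2 (T' := (above T : Set (M₂ →+* ℂ_[p]))) hGRP hSGB hε₂ hα hxP hx
  exact E.hS j x hxP (fun W _ => h.loc W) h.sig

theorem res_pw2 [Fact (Irreducible P)]
    (hB : SitB p K M K₁ M₁ J M₂ ε δ P a₀) (B : Base p K M K₁ M₁ ε δ P)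
    (D : BaseB B a₀) (aτ : K₁ˣ) {n : ℕ} (E : TauF n B) {x : Mˣ}
    (hxP : Pw p (pol P δ x)) (hx : Pw2 p M₂ x) (q : B.LP)
    (hq : (sysB B E (Spl M₂ B.S) D.s0 aτ).spl q) :
    Submodule.span (AdjoinRoot P) {fun i => B.rho i x} ≤
      LinearMap.ker ((sysB B E (Spl M₂ B.S) D.s0 aτ).res q) := by
  have hs := hB.sit
  have hv : q.1.1 ∈ Spl M₂ B.S := hq
  rw [Submodule.span_singleton_le_iff_mem, LinearMap.mem_ker, sysB_res]
  have hth := B.thh q.1.1 (spl_vis hB B hv)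
  have hP : IsP δ P (B.R q.1.1) :=
    ((Pool.Agent.Helper30.PP.p_fun p K M (finrank K M) δ P finrank_pos
      hs.copm (by rw [← hs.ord]; exact pow_orderOf_eq_one δ) hs.irr hs.dvdP).2 _
      (fun y z => by rw [map_mul, hth])).1
  rw [dec_pw2 hB B D hxP hx (B.R q.1.1) hP, R_pw2 hB B D hx hv]

theorem hom_npow {P : (ZMod p)[X]} {F : Mˣ → AdjoinRoot P} (hF : Hom F) (x : Mˣ) (k : ℕ) :
    F (x ^ k) = (k : AdjoinRoot P) * F x := by
  induction k with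
  | zero =>
    have h3 := hF 1 1
    rw [mul_one, left_eq_add] at h3
    rw [pow_zero, h3, Nat.cast_zero, zero_mul]
  | succ k ih => rw [pow_succ, hF, ih, Nat.cast_succ, add_mul, one_mul]

/-- `J ≠ K`: the solution attached to `y` is not trivial in the quotient system. -/
theorem selO_b0 (hGRP : N_GRP) (hCHG : N_CHG) (hSGB : Y_SGB) (hPWA : Y_PWA)
    {i : ℕ} [Fact (Irreducible (X - C (i : ZMod p)))]
    (hB : SitB p K M K₁ M₁ J M₂ ε δ (X - C (i : ZMod p)) a₀) (T : Set (K →+* ℂ_[p]))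
    (B : Base p K M K₁ M₁ ε δ (X - C (i : ZMod p))) (D : BaseB B a₀)
    (aτ : K₁ˣ) {n : ℕ} (E : TauX n B a₀ T aτ) (b : Mˣ)
    (hbP : Pw p (pol (X - C (i : ZMod p)) δ b)) (hb2 : Pw2 p M₂ b)
    (h1 : Submodule.span (AdjoinRoot (X - C (i : ZMod p))) {fun i => B.rho i b} ≤
      LinearMap.ker (sysB B E.toTauF (Spl M₂ B.S) D.s0 aτ).lam₀)
    (h2 : ∀ q, (sysB B E.toTauF (Spl M₂ B.S) D.s0 aτ).spl q →
      Submodule.span (AdjoinRoot (X - C (i : ZMod p))) {fun i => B.rho i b} ≤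
      LinearMap.ker ((sysB B E.toTauF (Spl M₂ B.S) D.s0 aτ).res q))
    (N : B.LP → Prop) (hN : ∀ q, N q → ¬ (sysB B E.toTauF (Spl M₂ B.S) D.s0 aτ).spl q)
    (a : K₁ˣ) (ha : OmType p K ε (a : K₁)) (hloc : LocS p (up K₁ B.S) (a / aτ)) (y : Mˣ)
    (hy : SelX (above T : Set (M₂ →+* ℂ_[p])) (X - C (i : ZMod p)) δ (algebraMap K₁ M₂ ε)
      ((a₀ : M₂) * algebraMap K₁ M₂ (a : K₁)) y) (hn : ¬ Pw2 p M₂ y) :
    Bad₄ (quo (sysB B E.toTauF (Spl M₂ B.S) D.s0 aτ)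
      (Submodule.span (AdjoinRoot (X - C (i : ZMod p))) {fun i => B.rho i b}) h1 h2) N
      (B.lab a) := by
  have hs := hB.sit
  have hp0 : p ≠ 0 := hp.out.ne_zero
  have hε₂ : IsPrimitiveRoot (algebraMap K₁ M₂ ε) p :=
    hs.prim.map_of_injective (algebraMap K₁ M₂).injective
  have hα : (a₀ : M₂) * algebraMap K₁ M₂ (a : K₁) ≠ 0 :=
    mul_ne_zero a₀.ne_zero ((_root_.map_ne_zero _).2 a.ne_zero)
  have hselb := selX_pw2 (T' := (above T : Set (M₂ →+* ℂ_[p]))) hGRP hSGB hε₂ hα hbP hb2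
  have hpow : ∀ j : ℕ, SelX (above T : Set (M₂ →+* ℂ_[p])) (X - C (i : ZMod p)) δ
      (algebraMap K₁ M₂ ε) ((a₀ : M₂) * algebraMap K₁ M₂ (a : K₁)) (y * b ^ j) := by
    intro j
    induction j with
    | zero => rw [pow_zero, mul_one]; exact hy
    | succ j ih => rw [pow_succ, ← mul_assoc]; exact selX_mul hGRP hSGB hε₂ hα ih hselb
  obtain ⟨w, hw⟩ := hb2
  have hw0 : w ≠ 0 := by
    rintro rfl
    rw [zero_pow hp0] at hw
    exact b.ne_zero ((map_eq_zero_iff _ (algebraMap M M₂).injective).1 hw.symm)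
  have hnp : ∀ j : ℕ, ¬ Pw p (y * b ^ j) := by
    rintro j ⟨z, hz⟩
    refine hn ⟨algebraMap M M₂ z / w ^ j, ?_⟩
    have h := congrArg (fun u : Mˣ => algebraMap M M₂ (u : M)) hz
    simp only [Units.val_mul, Units.val_pow_eq_pow_val, map_mul, map_pow] at h
    rw [← hw] at h
    rw [div_pow, ← h, ← pow_mul, ← pow_mul, mul_comm j p,
      mul_div_cancel_right₀ _ (pow_ne_zero _ hw0)]
  obtain ⟨hsol, -⟩ := selX_sol hGRP hCHG hSGB hPWA hB T B D aτ E a ha hloc y hy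
  refine quo_bad _ _ h1 h2 N hN hsol ?_
  rintro ⟨h3, h4⟩
  obtain ⟨t, ht⟩ := Submodule.mem_span_singleton.1 h3
  obtain ⟨c, hc⟩ := adj_lin i t
  obtain ⟨-, h5⟩ := selX_sol hGRP hCHG hSGB hPWA hB T B D aτ E a ha hloc _ (hpow (-c).val)
  refine (h5.resolve_right (hnp _)) ⟨?_, ?_⟩
  · funext l
    show B.rho l (y * b ^ (-c).val) = 0
    have h6 : ((((-c).val : ℕ)) : AdjoinRoot (X - C (i : ZMod p))) =
        algebraMap (ZMod p) _ (-c) := by
      rw [← map_natCast (algebraMap (ZMod p) (AdjoinRoot (X - C (i : ZMod p)))),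
        ZMod.natCast_zmod_val]
    have h7 := congrFun ht l
    have h8 : t * B.rho l b = B.rho l y := h7
    rw [(B.rhoP l).1, hom_npow (B.rhoP l).1, h6, ← h8, hc, map_neg]
    ring
  · funext q
    show ccB B (Spl M₂ B.S) a (y * b ^ (-c).val) q = 0
    unfold ccB
    split_ifs with hq
    · have hhom : Hom (ordp p (B.w q.1.1)) := by
        intro a b
        show ((ordv (B.w q.1.1) ((a : M) * (b : M)) : ℤ) : ZMod p) = _
        rw [Pool.Agent.Helper90.RP.Dual.ordv_mul _ a.ne_zero b.ne_zero]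
        push_cast
        rfl
      have hH : Hom (B.nv q.1.1) := ((Pool.Agent.Helper30.PP.p_fun p K M (finrank K M) δ _
        finrank_pos hs.copm (by rw [← hs.ord]; exact pow_orderOf_eq_one δ) hs.irr hs.dvdP).2 _
        hhom).1.1
      have h6 := congrFun h4 q
      have h7 : ccB B (Spl M₂ B.S) a y q = B.nv q.1.1 y := if_pos hq
      have h8 : B.nv q.1.1 y = 0 := h7.symm.trans h6
      rw [hH, hom_npow hH, h8, nv_pw2 hB B D ⟨w, hw⟩ hq.2, mul_zero, add_zero]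
    · rfl

/-- **BdO gives Bad₄** (for the quotient system), `J ≠ K`. -/
theorem selO_b (hGRP : N_GRP) (hCHG : N_CHG) (hSGB : Y_SGB) (hPWA : Y_PWA)
    {i : ℕ} [Fact (Irreducible (X - C (i : ZMod p)))]
    (hB : SitB p K M K₁ M₁ J M₂ ε δ (X - C (i : ZMod p)) a₀) (T : Set (K →+* ℂ_[p]))
    (B : Base p K M K₁ M₁ ε δ (X - C (i : ZMod p))) (D : BaseB B a₀)
    (aτ : K₁ˣ) {n : ℕ} (E : TauX n B a₀ T aτ) (b : Mˣ)
    (hbP : Pw p (pol (X - C (i : ZMod p)) δ b)) (hb2 : Pw2 p M₂ b)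
    (h1 : Submodule.span (AdjoinRoot (X - C (i : ZMod p))) {fun i => B.rho i b} ≤
      LinearMap.ker (sysB B E.toTauF (Spl M₂ B.S) D.s0 aτ).lam₀)
    (h2 : ∀ q, (sysB B E.toTauF (Spl M₂ B.S) D.s0 aτ).spl q →
      Submodule.span (AdjoinRoot (X - C (i : ZMod p))) {fun i => B.rho i b} ≤
      LinearMap.ker ((sysB B E.toTauF (Spl M₂ B.S) D.s0 aτ).res q))
    (N : B.LP → Prop) (hN : ∀ q, N q → ¬ (sysB B E.toTauF (Spl M₂ B.S) D.s0 aτ).spl q)
    (a : K₁ˣ) (hcl : clp p a ∈ BdO T (X - C (i : ZMod p)) δ ε a₀)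
    (ha : OmType p K ε (a : K₁)) (hloc : LocS p (up K₁ B.S) (a / aτ)) :
    Bad₄ (quo (sysB B E.toTauF (Spl M₂ B.S) D.s0 aτ)
      (Submodule.span (AdjoinRoot (X - C (i : ZMod p))) {fun i => B.rho i b}) h1 h2) N
      (B.lab a) := by
  obtain ⟨y, a₁, haa, hsel, hy⟩ := hcl
  obtain ⟨z, hz⟩ := clp_eq.1 haa.symm
  have h3 : OmType p K ε (a₁ : K₁) := by rw [hz]; exact om_mul_pow ha z
  have h4 : LocS p (up K₁ B.S) (a₁ / aτ) := by
    have h3 := (Pool.Agent.Helper15.PP.gZ p _).mul_mem (Pool.Agent.Helper15.PP.mem_gZ.2 hloc)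
      (Pool.Agent.Helper15.PP.mem_gZ.2 (locS_pow (p := p) (Z := up K₁ B.S) z))
    have h4 : a₁ / aτ = a / aτ * z ^ p := by rw [hz, mul_div_right_comm]
    rw [h4]
    exact Pool.Agent.Helper15.PP.mem_gZ.1 h3
  have h5 := selO_b0 hGRP hCHG hSGB hPWA hB T B D aτ E b hbP hb2 h1 h2 N hN a₁ h3 h4 y hsel
    (fun ⟨w, hw⟩ => hy 0 ⟨w, by rw [pow_zero, mul_one]; exact hw⟩)
  rw [hz, lab_mul_pow] at h5
  exact h5

end main

end Pool.Agent.Helper42.WY
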