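import Pool.Agent.Helper42.WY.WMOMG
import Pool.Agent.Helper38.WY.Goals8
import Pool.Agent.Helper42.PW.Asm3
import Pool.Agent.Helper11.R.HYP2

/-!
# Project WY: moment theorems for arbitrary predicates; the trivial moment theorem
-/

set_option autoImplicit false

namespace Pool.Agent.Helper42.WY

open NumberField Polynomial Module IsDedekindDomain TensorProduct
open Pool.Agent.Helper51.RP Pool.Agent.Helper42.RD Pool.Agent.Helper42.PP Pool.Agent.Helper42.PP1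
open Pool.Agent.Helper51.SigLeo Pool.Agent.Helper11.LE Pool.Agent.Helper11.PP
open Pool.Agent.Helper77.PPS Pool.Agent.Helper77.PPO
open Pool.Agent.Helper17.PP (Sys)
open Pool.Agent.Helper42.PB Pool.Agent.Helper42.PW
open Pool.Agent.Helper38.ND
open Pool.Agent.Helper38.WY
open Pool.Agent.Helper11.M3 (HypW)
open Pool.Agent.Helper76.PP (psK)
open Pool.Agent.Helper17.PB (sv0B lowB fam_ex)

open Classical in
/-- `N_ANH` for an arbitrary predicate and `HypW`. -/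
theorem anhG {p : ℕ} [hp : Fact p.Prime] {K M K₁ M₁ : Type} [Field K] [NumberField K]
    [Field M] [NumberField M] [Field K₁] [NumberField K₁] [Field M₁] [NumberField M₁]
    [Algebra K M] [Algebra K K₁] [Algebra K M₁] [Algebra M M₁] [Algebra K₁ M₁]
    {ε : K₁} {δ : M ≃ₐ[K] M} {P : (ZMod p)[X]} [Fact (Irreducible P)] [Fintype (AdjoinRoot P)]
    (B : Base p K M K₁ M₁ ε δ P) {n : ℕ} (E : TauF n B) (V : Set (HeightOneSpectrum (𝓞 K)))
    (s0 : HeightOneSpectrum (𝓞 K) → ZMod p) (aτ : K₁ˣ) (Bad : Finset B.LP → Prop)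
    (ψ : AddChar (AdjoinRoot P) ℂ) (g : ℝ → ℝ) (K' : ℕ) (hHyp : HypW (sysB B E V s0 aτ) ψ g K')
    (K₀ : ℝ) (hslow : Slow g K₀) (c X₁ : ℝ) (hc : 0 < c)
    (hlow : ∀ X : ℝ, X₁ ≤ X → ∃ Q : Finset B.LP,
      c * (X * g X) ≤ ∑ b ∈ Q.powerset with (sysB B E V s0 aτ).Fam b,
        Real.exp (-((sysB B E V s0 aτ).nm b / X)))
    (θ : ℝ) (hθ : 0 ≤ θ)
    (hw : ∀ w : ℝ → ℝ, WF w → ∀ ε' : ℝ, 0 < ε' → ∃ X₀ : ℝ, ∀ X : ℝ, X₀ ≤ X →
      ∀ Q : Finset B.LP,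
      ∑ b ∈ Q.powerset with ((sysB B E V s0 aτ).Fam b ∧ Bad b),
        w ((sysB B E V s0 aτ).nm b / X) ≤
      θ * ∑ b ∈ Q.powerset with (sysB B E V s0 aτ).Fam b, w ((sysB B E V s0 aτ).nm b / X) +
        ε' * (X * g X)) :
    ∃ Kc c' X₁' : ℝ, 0 < c' ∧ AnaG (sysB B E V s0 aτ) Bad g θ Kc c' X₁' := by
  obtain ⟨Kb, hKb⟩ := Pool.Agent.Helper79.ND.n_brk
    (Pool.Agent.Helper93.ND.n_bru Pool.Agent.Helper27.LG.bg) p K
  have hBr : Brun (sysB B E V s0 aτ) Kb :=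
    hKb _ _ _ _ _ _ (sysB B E V s0 aτ) (fun q => rfl)
  exact n_anaG Pool.Agent.Helper61.ND.n_pol (sysB B E V s0 aτ) Bad ψ g K' hHyp Kb hBr K₀ hslow
    c X₁ hc hlow θ hθ hw

/-- The moment theorem for all the families, from `AnaG`. -/
theorem momG {p : ℕ} [hpF : Fact p.Prime] (L : IwasawaLog p ℂ_[p])
    {K M K₁ M₁ : Type} [Field K] [NumberField K] [Field M]
    [NumberField M] [Field K₁] [NumberField K₁] [Field M₁] [NumberField M₁]
    [Algebra K M] [Algebra K K₁] [Algebra K M₁]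
    [Algebra M M₁] [Algebra K₁ M₁] {ε : K₁} {δ : M ≃ₐ[K] M} {P : (ZMod p)[X]}
    [Fact (Irreducible P)] (hs : SitW p K M K₁ M₁ ε δ P)
    (θ : ℝ) (hθ : 0 ≤ θ) (Bd : Set (ClP p K₁))
    (hE : ∀ S₀ : Finset (HeightOneSpectrum (𝓞 K)), ∃ (B : Base p K M K₁ M₁ ε δ P)
      (V : Set (HeightOneSpectrum (𝓞 K))) (s0 : HeightOneSpectrum (𝓞 K) → ZMod p)
      (g : ℝ → ℝ) (K₀ : ℝ), S₀ ⊆ B.S ∧ Slow g K₀ ∧
      ∀ aτ : K₁ˣ, OmType p K ε (aτ : K₁) →
        ∃ (n : ℕ) (E : TauF n B) (Bad : Finset B.LP → Prop) (Kc c X₁ : ℝ), 0 < c ∧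
          AnaG (sysB B E V s0 aτ) Bad g θ Kc c X₁ ∧
          ∀ a : K₁ˣ, clp p a ∈ Bd → OmType p K ε (a : K₁) → LocS p (up K₁ B.S) (a / aτ) →
            Bad (B.lab a)) :
    MomA p K ε Bd θ := by
  intro S A f hA hne hf
  obtain ⟨B, V, s0, g, K₀, hSB, hslow, hE⟩ := hE S
  refine w_momG Pool.Agent.Helper50.ND.n_abs Pool.Agent.Helper91.PW.w_cnd p L K M K₁ M₁ ε δ P hs
    B V s0 g K₀ hslow θ hθ S A Bd f hSB hA hne hf ?_
  intro aτ haτ _
  exact hE aτ haτ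

/-- The situation `J = K`, `a₀ = 1`. -/
theorem sitB_triv {p : ℕ} [hpF : Fact p.Prime] {K K₁ : Type} [Field K] [NumberField K]
    [Field K₁] [NumberField K₁] [Algebra K K₁] {ε : K₁} (hC : Cyc p K K₁ ε) :
    SitB p K K K₁ K₁ K K₁ ε (1 : K ≃ₐ[K] K) (X - 1) 1 := by
  have hg := hC.gal
  have h1 := sitW_one p K K₁ ε hC.prim hC.gen
  exact
    { sit := h1
      t1 := inferInstance
      t2 := inferInstance
      t3 := inferInstance
      t4 := inferInstance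
      gJ := inferInstance
      gM₂ := hg
      cycJ := by
        have : Subsingleton (K ≃ₐ[K] K) := ⟨fun a b => by rw [subs_aut K a, subs_aut K b]⟩
        exact isCyclic_of_subsingleton
      degJ := ⟨0, by rw [finrank_self, pow_zero]⟩
      lin₂ := fun g h _ => by ext x; exact h x
      om := by
        intro σ
        have : NeZero p := ⟨hpF.out.ne_zero⟩
        have h2 : (σ ε) ^ p = 1 := by rw [← map_pow, hC.prim.pow_eq_one, map_one]
        obtain ⟨n, -, hn⟩ := hC.prim.eq_pow_of_pow_eq_one h2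
        exact ⟨n, 1, hn.symm, by simp⟩
      cyc := fun σ hσ hσ1 => absurd (by ext x; exact hσ x) hσ1 }

/-- The trivial moment theorem. -/
theorem momT (p : ℕ) [hpF : Fact p.Prime] (L : IwasawaLog p ℂ_[p])
    (K K₁ : Type) [Field K] [NumberField K] [Field K₁] [NumberField K₁] [IsTotallyComplex K₁]
    [Algebra K K₁] (ε : K₁) (hC : Cyc p K K₁ ε) (θ : ℝ) (hθ : 1 ≤ θ) (Bd : Set (ClP p K₁)) :
    MomA p K ε Bd θ := by
  classical
  have hp : p.Prime := hpF.out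
  have hg := hC.gal
  have hB := sitB_triv hC
  have hs := hB.sit
  have hirr : Fact (Irreducible (X - 1 : (ZMod p)[X])) := ⟨hs.irr⟩
  have hP0 : (X - 1 : (ZMod p)[X]) ≠ 0 := hs.irr.ne_zero
  have hfinA : Module.Finite (ZMod p) (AdjoinRoot (X - 1 : (ZMod p)[X])) :=
    (AdjoinRoot.powerBasis hP0).finite
  have hfA : Finite (AdjoinRoot (X - 1 : (ZMod p)[X])) := Module.finite_of_finite (ZMod p)
  let instA : Fintype (AdjoinRoot (X - 1 : (ZMod p)[X])) := Fintype.ofFinite _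
  refine momG L hs θ (by linarith) Bd ?_
  intro S₀
  obtain ⟨B, hSB, ⟨D⟩⟩ := Pool.Agent.Helper53.PW.w_exb p K K K₁ K₁ K K₁ ε (1 : K ≃ₐ[K] K)
    (X - 1) 1 hB S₀
  have hdv := Pool.Agent.Helper14.RD.finrank_dvd_pred p K K₁ ε hs.prim hs.gen
  have hp1 : 1 < p := hp.one_lt
  have hd0 : 0 < finrank K K₁ := finrank_pos
  set κ : ℝ := ((p : ℝ) - 1) / finrank K K₁ with hκ
  have hκ1 : 1 ≤ κ := by
    rw [hκ, le_div_iff₀ (by exact_mod_cast hd0), one_mul]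
    have h : finrank K K₁ ≤ p - 1 := Nat.le_of_dvd (by omega) hdv
    have h' : ((finrank K K₁ : ℕ) : ℝ) ≤ ((p - 1 : ℕ) : ℝ) := by exact_mod_cast h
    rwa [Nat.cast_sub hp1.le, Nat.cast_one] at h'
  obtain ⟨g1, g2, g3, -⟩ := h_g κ hκ1
  have h2k : (1 : ℝ) ≤ 2 ^ (κ - 1) := Real.one_le_rpow (by norm_num) (by linarith)
  refine ⟨B, Spl K₁ B.S, 0, gK κ, 2 ^ (κ - 1), hSB, ⟨g1, fun Y X h ↦ ?_, fun X _ ↦ g3 X⟩, ?_⟩
  · calc gK κ Y ≤ gK κ X := g2 Y X h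
      _ = 1 * gK κ X := (one_mul _).symm
      _ ≤ 2 ^ (κ - 1) * gK κ X :=
        mul_le_mul_of_nonneg_right h2k (by linarith [g1 X])
  intro aτ haτ
  let E : TauF 0 B :=
    { h := fun j => j.elim0
      hP := fun j => j.elim0
      hL := fun j => j.elim0
      hI := fun c _ => by funext j; exact j.elim0 }
  obtain ⟨tr, htr⟩ := Pool.Agent.Helper12.PP.kap_tr p (X - 1 : (ZMod p)[X]) hs.irr
  obtain ⟨ψ₁, hψ₁⟩ := Pool.Agent.Helper12.PP.kap_ex p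
  have hpsK : psK tr ψ₁ ≠ 1 := by
    intro h
    apply one_ne_zero (α := ZMod p)
    apply Pool.Agent.Helper12.PP.kap_psi p ψ₁ hψ₁
    obtain ⟨x, hx⟩ := Pool.Agent.Helper12.PP.kap_surj p (X - 1 : (ZMod p)[X]) tr htr 1
    have h1 := DFunLike.congr_fun h x
    rw [← hx]
    exact h1
  obtain ⟨Ka, hKa⟩ := sv0B p K K K₁ K₁ K₁ ε (1 : K ≃ₐ[K] K) (X - 1) B E hdv 0 aτ
    ((Fintype.card (AdjoinRoot (X - 1 : (ZMod p)[X])) : ℝ) + 4)
  have hSV := hKa Ka le_rfl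
  have hW : HypW (sysB B E (Spl K₁ B.S) 0 aτ) (psK tr ψ₁) (gK κ) Ka :=
    { one_le := hSV.one_le
      ψ_ne := hpsK
      che := hSV.che
      g_one := hSV.g_one
      g_mono := hSV.g_mono
      ht := hSV.ht
      mers := hSV.mers }
  obtain ⟨b, hb1, hb2⟩ := fam_ex p K K K₁ K₁ ε (1 : K ≃ₐ[K] K) (X - 1) hs B
    (sysB B E (Spl K₁ B.S) 0 aτ).cl₀
  obtain ⟨c, X₁, hc, hlow⟩ := lowB p K K K₁ K₁ ε (1 : K ≃ₐ[K] K) (X - 1) B E (Spl K₁ B.S) 0 aτ
    ⟨b, hb1, hb2⟩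
  obtain ⟨Kc, c', X₁', hc', hana⟩ := anhG B E (Spl K₁ B.S) 0 aτ (fun _ => True) (psK tr ψ₁)
    (gK κ) Ka hW (2 ^ (κ - 1)) ⟨g1, fun Y X h ↦ (by
      calc gK κ Y ≤ gK κ X := g2 Y X h
      _ = 1 * gK κ X := (one_mul _).symm
      _ ≤ 2 ^ (κ - 1) * gK κ X :=
        mul_le_mul_of_nonneg_right h2k (by linarith [g1 X])), fun X _ ↦ g3 X⟩ c X₁ hc hlow θ
    (by linarith) (by
      intro w hw ε' hε'
      refine ⟨1, fun X hX Q => ?_⟩
      have h0 : 0 ≤ ∑ b ∈ Q.powerset with (sysB B E (Spl K₁ B.S) 0 aτ).Fam b,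
          w ((sysB B E (Spl K₁ B.S) 0 aτ).nm b / X) := by
        refine Finset.sum_nonneg fun b _ => hw.nonneg _ ?_
        have hX0 : (0 : ℝ) ≤ X := by linarith
        positivity
      have h1 : 0 ≤ ε' * (X * gK κ X) := by
        have hX0 : (0 : ℝ) ≤ X := by linarith
        have := g1 X
        positivity
      simp only [and_true]
      nlinarith)
  exact ⟨0, E, fun _ => True, Kc, c', X₁', hc', hana, fun _ _ _ _ => trivial⟩

end Pool.Agent.Helper42.WY
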