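import Pool.Agent.Helper42.WY.KER
import Pool.Agent.Helper42.WY.MOMG

/-!
# Project WY / M3, step 2: the analytic hypotheses for the systems `sysB` (interface)

`O_HYP3`: `χ₀^(1 + p^j) ≡ ω`. `O_HYP4`: `χ₀ ≡ ω`, `J = K`. `O_HYP4J`: `χ₀ ≡ ω`, `J ≠ K`, the quotient system.
-/

set_option autoImplicit false

namespace Pool.Agent.Helper42.WY

open NumberField Polynomial Module IsDedekindDomain
open Pool.Agent.Helper51.RP Pool.Agent.Helper42.RD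
open Pool.Agent.Helper42.PP (Spl Base)
open Pool.Agent.Helper42.PB (TauF sysB SitB BaseB)
open Pool.Agent.Helper76.PB (NrmInd)
open Pool.Agent.Helper11.PP (Slow)
open Pool.Agent.Helper11.M3 (Hyp₃ Hyp₄)
open Pool.Agent.Helper38.WY (NTV3 SDual)

/-- **O_HYP3**: `Hyp₃` for `sysB`, `χ₀^(1 + p^j) ≡ ω`, `M = p^(deg P - j)`. -/
def O_HYP3 : Prop :=
  ∀ (p : ℕ) [Fact p.Prime] (K M K₁ M₁ J M₂ : Type) [Field K]
    [NumberField K] [Field M] [NumberField M] [Field K₁] [NumberField K₁] [IsTotallyComplex K₁]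
    [Field M₁] [NumberField M₁] [IsTotallyComplex M₁] [Field J] [NumberField J] [Field M₂]
    [NumberField M₂] [Algebra K M] [Algebra K K₁] [Algebra K M₁] [Algebra M M₁] [Algebra K₁ M₁]
    [Algebra K J] [Algebra K M₂] [Algebra M M₂] [Algebra K₁ M₂] [Algebra M₁ M₂] [Algebra J M₂]
    (ε : K₁) (δ : M ≃ₐ[K] M) (P : (ZMod p)[X]) [Fact (Irreducible P)] [Fintype (AdjoinRoot P)]
    (a₀ : M₂ˣ), SitB p K M K₁ M₁ J M₂ ε δ P a₀ → NTV3 p M₁ ε δ P →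
  ∀ j : ℕ, SDual p M₁ ε δ P j → (j = 0 ∨ P.natDegree = 2 * j) →
  ∀ (B : Base p K M K₁ M₁ ε δ P) (D : BaseB B a₀),
  ∃ (g : ℝ → ℝ) (K₀ : ℝ), Slow g K₀ ∧
  ∀ (n : ℕ) (E : TauF n B) (aτ : K₁ˣ), OmType p K ε (aτ : K₁) → NrmInd E M₂ →
  ∃ (ψ : AddChar (AdjoinRoot P) ℂ) (Lk : AdjoinRoot P → AdjoinRoot P → Prop)
    (Cs : AdjoinRoot P → AddSubgroup (AdjoinRoot P)) (K' : ℕ),
    Hyp₃ (sysB B E (Spl M₂ B.S) D.s0 aτ) ψ Lk Cs (p ^ (P.natDegree - j)) g K' ∧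
  ∃ c X₁ : ℝ, 0 < c ∧ ∀ X : ℝ, X₁ ≤ X → ∃ Q : Finset B.LP, (open Classical in c * (X * g X) ≤
    ∑ b ∈ Q.powerset with (sysB B E (Spl M₂ B.S) D.s0 aτ).Fam b,
      Real.exp (-((sysB B E (Spl M₂ B.S) D.s0 aτ).nm b / X)))

/-- **O_HYP4**: `Hyp₄` for `sysB`, `χ₀ ≡ ω`, `J = K`; the pivot is the top prime. `Y = ⊤` if `χ₀ ≠ 1`. -/
def O_HYP4 : Prop :=
  ∀ (p : ℕ) [Fact p.Prime], p ≠ 2 → ∀ (K M K₁ M₁ J M₂ : Type) [Field K]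
    [NumberField K] [Field M] [NumberField M] [Field K₁] [NumberField K₁] [IsTotallyComplex K₁]
    [Field M₁] [NumberField M₁] [IsTotallyComplex M₁] [Field J] [NumberField J] [Field M₂]
    [NumberField M₂] [Algebra K M] [Algebra K K₁] [Algebra K M₁] [Algebra M M₁] [Algebra K₁ M₁]
    [Algebra K J] [Algebra K M₂] [Algebra M M₂] [Algebra K₁ M₂] [Algebra M₁ M₂] [Algebra J M₂]
    (ε : K₁) (δ : M ≃ₐ[K] M) (i : ℕ) [Fact (Irreducible (X - C (i : ZMod p)))]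
    [Fintype (AdjoinRoot (X - C (i : ZMod p)))] (a₀ : M₂ˣ),
    SitB p K M K₁ M₁ J M₂ ε δ (X - C (i : ZMod p)) a₀ →
    (∃ ε₀ : M, algebraMap M M₂ ε₀ = algebraMap K₁ M₂ ε ∧ δ ε₀ = ε₀ ^ i) →
    (∀ z : M₂, ∃ y : M, algebraMap M M₂ y = z) →
  ∀ Y : AddSubgroup (AdjoinRoot (X - C (i : ZMod p))),
    (Y = ⊥ ∨ AdjoinRoot.root (X - C (i : ZMod p)) ≠ 1) →
  ∀ (B : Base p K M K₁ M₁ ε δ (X - C (i : ZMod p))) (D : BaseB B a₀),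
  ∃ (g : ℝ → ℝ) (K₀ : ℝ), Slow g K₀ ∧
  ∀ (n : ℕ) (E : TauF n B) (aτ : K₁ˣ), OmType p K ε (aτ : K₁) → NrmInd E M₂ →
  ∃ (ψ : AddChar (AdjoinRoot (X - C (i : ZMod p))) ℂ) (e : B.LP → AdjoinRoot (X - C (i : ZMod p)))
    (K' : ℕ), Hyp₄ (sysB B E (Spl M₂ B.S) D.s0 aτ) ψ e (fun _ => True) Y g K' ∧
  ∃ c X₁ : ℝ, 0 < c ∧ ∀ X : ℝ, X₁ ≤ X → ∃ Q : Finset B.LP, (open Classical in c * (X * g X) ≤
    ∑ b ∈ Q.powerset with (sysB B E (Spl M₂ B.S) D.s0 aτ).Fam b,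
      Real.exp (-((sysB B E (Spl M₂ B.S) D.s0 aτ).nm b / X)))

/-- **O_HYP4J**: `Hyp₄` for the quotient of `sysB` by the line of `b`, `χ₀ ≡ ω`, `J ≠ K`; the pivot is the top prime which is
not split. -/
def O_HYP4J : Prop :=
  ∀ (p : ℕ) [Fact p.Prime], p ≠ 2 → ∀ (K M K₁ M₁ J M₂ : Type) [Field K]
    [NumberField K] [Field M] [NumberField M] [Field K₁] [NumberField K₁] [IsTotallyComplex K₁]
    [Field M₁] [NumberField M₁] [IsTotallyComplex M₁] [Field J] [NumberField J] [Field M₂]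
    [NumberField M₂] [Algebra K M] [Algebra K K₁] [Algebra K M₁] [Algebra M M₁] [Algebra K₁ M₁]
    [Algebra K J] [Algebra K M₂] [Algebra M M₂] [Algebra K₁ M₂] [Algebra M₁ M₂] [Algebra J M₂]
    (ε : K₁) (δ : M ≃ₐ[K] M) (i : ℕ) [Fact (Irreducible (X - C (i : ZMod p)))]
    [Fintype (AdjoinRoot (X - C (i : ZMod p)))] (a₀ : M₂ˣ),
    SitB p K M K₁ M₁ J M₂ ε δ (X - C (i : ZMod p)) a₀ →
    (∃ ε₀ : M, algebraMap M M₂ ε₀ = algebraMap K₁ M₂ ε ∧ δ ε₀ = ε₀ ^ i) →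
    (∀ z : M₁, ∃ y : M, algebraMap M M₁ y = z) →
    (¬ ∀ z : M₂, ∃ y : M, algebraMap M M₂ y = z) →
  ∀ (B : Base p K M K₁ M₁ ε δ (X - C (i : ZMod p))) (D : BaseB B a₀),
  ∃ (g : ℝ → ℝ) (K₀ : ℝ), Slow g K₀ ∧
  ∀ (n : ℕ) (E : TauF n B) (aτ : K₁ˣ), OmType p K ε (aτ : K₁) → NrmInd E M₂ →
  ∀ b : Mˣ, Pw p (pol (X - C (i : ZMod p)) δ b) → ¬ Pw p b → Pw2 p M₂ b →
    (∀ x : Mˣ, Pw2 p M₂ x → ∃ (j : ℕ) (z : Mˣ), x = b ^ j * z ^ p) →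
  ∀ (h1 : Submodule.span (AdjoinRoot (X - C (i : ZMod p))) {fun i => B.rho i b} ≤
      LinearMap.ker (sysB B E (Spl M₂ B.S) D.s0 aτ).lam₀)
    (h2 : ∀ q, (sysB B E (Spl M₂ B.S) D.s0 aτ).spl q →
      Submodule.span (AdjoinRoot (X - C (i : ZMod p))) {fun i => B.rho i b} ≤
      LinearMap.ker ((sysB B E (Spl M₂ B.S) D.s0 aτ).res q)),
  ∃ (ψ : AddChar (AdjoinRoot (X - C (i : ZMod p))) ℂ) (e : B.LP → AdjoinRoot (X - C (i : ZMod p)))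
    (K' : ℕ), Hyp₄ (quo (sysB B E (Spl M₂ B.S) D.s0 aτ)
      (Submodule.span (AdjoinRoot (X - C (i : ZMod p))) {fun i => B.rho i b}) h1 h2) ψ e
      (fun q => ¬ (sysB B E (Spl M₂ B.S) D.s0 aτ).spl q) ⊥ g K' ∧
  ∃ c X₁ : ℝ, 0 < c ∧ ∀ X : ℝ, X₁ ≤ X → ∃ Q : Finset B.LP, (open Classical in c * (X * g X) ≤
    ∑ b ∈ Q.powerset with (sysB B E (Spl M₂ B.S) D.s0 aτ).Fam b,
      Real.exp (-((sysB B E (Spl M₂ B.S) D.s0 aτ).nm b / X)))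

end Pool.Agent.Helper42.WY
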