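import Pool.Agent.Helper38.WY.Goals2
import Pool.Agent.Helper42.PW.MOMA

/-!
# Project WY: the moment theorem for the families given by local conditions and `SelX`, from `AnaN`
-/

set_option autoImplicit false

namespace Pool.Agent.Helper42.WY

open NumberField Polynomial Module IsDedekindDomain
open Pool.Agent.Helper51.RP Pool.Agent.Helper42.RD Pool.Agent.Helper42.PP Pool.Agent.Helper42.PP1
open Pool.Agent.Helper42.PB Pool.Agent.Helper11.PP Pool.Agent.Helper42.PW Pool.Agent.Helper38.WY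
open Pool.Agent.Helper51.SigLeo (IwasawaLog)
open Pool.Agent.Helper38.ND (AnaN N_ABS)
open Pool.Agent.Helper79.PP (clp_eq clp_mul)

theorem momX (hABS : N_ABS) (hCND : W_CND) (hMOM : W_MOMV) (hSEL : Y_SEL) {p : ℕ}
    [hpF : Fact p.Prime] (L : IwasawaLog p ℂ_[p])
    {K M K₁ M₁ J M₂ : Type} [Field K] [NumberField K] [Field M]
    [NumberField M] [Field K₁] [NumberField K₁] [Field M₁] [NumberField M₁] [Field J]
    [NumberField J] [Field M₂] [NumberField M₂] [Algebra K M] [Algebra K K₁] [Algebra K M₁]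
    [Algebra M M₁] [Algebra K₁ M₁] [Algebra K J] [Algebra K M₂] [Algebra M M₂] [Algebra K₁ M₂]
    [Algebra M₁ M₂] [Algebra J M₂] {ε : K₁} {δ : M ≃ₐ[K] M} {P : (ZMod p)[X]}
    [Fact (Irreducible P)] {a₀ : M₂ˣ} (hs : SitB p K M K₁ M₁ J M₂ ε δ P a₀)
    (T : Set (K →+* ℂ_[p])) (θ : ℝ) (hθ : 0 ≤ θ)
    (hE : ∀ S₀ : Finset (HeightOneSpectrum (𝓞 K)), ∃ (B : Base p K M K₁ M₁ ε δ P)
      (D : BaseB B a₀) (g : ℝ → ℝ) (K₀ : ℝ), S₀ ⊆ B.S ∧ Slow g K₀ ∧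
      ∀ aτ : K₁ˣ, OmType p K ε (aτ : K₁) →
        ∃ (n : ℕ) (E : TauX n B a₀ T aτ) (Kc c X₁ : ℝ), 0 < c ∧
          AnaN (sysB B E.toTauF (Spl M₂ B.S) D.s0 aτ) g θ Kc c X₁) :
    MomA p K ε (BdX T P δ ε a₀) θ := by
  intro S A f hA hne hf
  obtain ⟨B, D, g, K₀, hSB, hslow, hE⟩ := hE S
  refine hMOM hABS hCND p L K M K₁ M₁ ε δ P hs.sit B (Spl M₂ B.S) D.s0 g K₀ hslow θ hθ S A
    (BdX T P δ ε a₀) f hSB hA hne hf ?_
  intro aτ haτ _
  obtain ⟨n, E, Kc, c, X₁, hc, hana⟩ := hE aτ haτ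
  refine ⟨n, E.toTauF, Kc, c, X₁, hc, hana, ?_⟩
  rintro a ⟨y, a₁, haa, hsel, hy⟩ ha hl
  obtain ⟨z, hz⟩ := clp_eq.1 haa.symm
  have h1 : OmType p K ε (a₁ : K₁) := by rw [hz]; exact om_mul_pow ha z
  have h2 : LocS p (up K₁ B.S) (a₁ / aτ) := by
    have h3 := (Pool.Agent.Helper15.PP.gZ p _).mul_mem (Pool.Agent.Helper15.PP.mem_gZ.2 hl)
      (Pool.Agent.Helper15.PP.mem_gZ.2 (locS_pow (p := p) (Z := up K₁ B.S) z))
    have h4 : a₁ / aτ = a / aτ * z ^ p := by rw [hz, mul_div_right_comm]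
    rw [h4]
    exact Pool.Agent.Helper15.PP.mem_gZ.1 h3
  have h5 := hSEL p K M K₁ M₁ J M₂ ε δ P a₀ hs T B D aτ n E haτ a₁ h1 h2
    ⟨y, hsel, hy⟩
  rw [hz, lab_mul_pow] at h5
  exact h5

end Pool.Agent.Helper42.WY
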