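import Pool.Agent.Helper42.PW.MBV
import Pool.Agent.Helper42.WY.MOMX
import Pool.Agent.Helper42.WY.EX1

/-!
# Project WY: the moment theorem for `χ₀ = 1`, no conditions above `p`
-/

set_option autoImplicit false

namespace Pool.Agent.Helper42.WY

open NumberField Polynomial Module IsDedekindDomain
open Pool.Agent.Helper51.RP Pool.Agent.Helper42.RD Pool.Agent.Helper42.PP Pool.Agent.Helper42.PP1
open Pool.Agent.Helper51.SigLeo Pool.Agent.Helper11.LE Pool.Agent.Helper11.PP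
open Pool.Agent.Helper17.PP (Sys)
open Pool.Agent.Helper17.PP0 (Hyp₀)
open Pool.Agent.Helper42.PB Pool.Agent.Helper76.PB Pool.Agent.Helper42.PW Pool.Agent.Helper38.WY
open Pool.Agent.Helper11.PB (V_HYP V_HYP0 tc_up)
open Pool.Agent.Helper38.ND
open Pool.Agent.Helper98.ND (hyp0_of_hyp mtw_le mt0w_le)
open Pool.Agent.Helper94.PP1 (rank1')

/-- **MOMB1X**. -/
theorem momb1X' (hABS : N_ABS) (hCND : W_CND) (hMOM : W_MOMV) (hSEL : Y_SEL) (hANH : N_ANH)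
    (hANA : N_ANA) (hBRU : N_BRU) (hBRK : N_BRK) (hMT : MTW) (hMT0 : MT₀W) (hHYP : V_HYP)
    (hHYP0 : V_HYP0) (hEXB : W_EXB) (hEXT : Y_EX1)
    (p : ℕ) [hpF : Fact p.Prime] (L : IwasawaLog p ℂ_[p]) (K K₁ J M₂ : Type) [Field K]
    [NumberField K] [Field K₁] [NumberField K₁] [Field J] [NumberField J] [Field M₂]
    [NumberField M₂] [Algebra K K₁] [Algebra K J] [Algebra K M₂] [Algebra K₁ M₂] [Algebra J M₂]
    (ε : K₁) (a₀ : M₂ˣ) (hs : SitB p K K K₁ K₁ J M₂ ε (1 : K ≃ₐ[K] K) (X - 1) a₀)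
    (hμ : ¬ ∃ ξ : K, IsPrimitiveRoot ξ p) (T : Set (K →+* ℂ_[p])) (hTc : PlaceClosed T)
    (hTn : Units.rank K + 1 ≤ T.ncard) :
    MomA p K ε (BdX T (X - 1 : (ZMod p)[X]) (1 : K ≃ₐ[K] K) ε a₀)
      ((p : ℝ) ^ (Units.rank K + 1) / (p ^ T.ncard * (p - 1))) := by
  classical
  have hp : p.Prime := hpF.out
  have hirr : Fact (Irreducible (X - 1 : (ZMod p)[X])) := ⟨hs.sit.irr⟩
  have hP0 : (X - 1 : (ZMod p)[X]) ≠ 0 := hs.sit.irr.ne_zero
  have hfinA : Module.Finite (ZMod p) (AdjoinRoot (X - 1 : (ZMod p)[X])) :=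
    (AdjoinRoot.powerBasis hP0).finite
  have hfA : Finite (AdjoinRoot (X - 1 : (ZMod p)[X])) := Module.finite_of_finite (ZMod p)
  let instA : Fintype (AdjoinRoot (X - 1 : (ZMod p)[X])) := Fintype.ofFinite _
  have hdeg : (X - 1 : (ZMod p)[X]).natDegree = 1 := by
    have h := natDegree_X_sub_C (1 : ZMod p)
    rwa [map_one] at h
  have hcard : Fintype.card (AdjoinRoot (X - 1 : (ZMod p)[X])) = p := by
    rw [Module.card_eq_pow_finrank (K := ZMod p) (V := AdjoinRoot (X - 1 : (ZMod p)[X])),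
      ZMod.card, (AdjoinRoot.powerBasis hP0).finrank, AdjoinRoot.powerBasis_dim, hdeg, pow_one]
  have := hs.sit.gK
  have hC : Cyc p K K₁ ε := ⟨hs.sit.prim, hs.sit.gK, hs.sit.gen⟩
  have h2K := Pool.Agent.Helper90.LE.l_cyc p K K₁ ε hC
  have hcK : IsTotallyComplex K₁ := h2K.2.2.2 (Pool.Agent.Helper77.PPO.p_ne_two p K hμ)
  have hnt : NTV p K₁ ε (1 : K ≃ₐ[K] K) (X - 1 : (ZMod p)[X]) := by
    refine Pool.Agent.Helper76.PP.ntv_one p K K₁ ε hC.prim hC.gen ?_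
    have h2 : 0 < Module.finrank K K₁ := Module.finrank_pos
    rcases Nat.lt_or_ge 1 (Module.finrank K K₁) with h | h
    · exact h
    · exact absurd (h2K.2.2.1.1 (by omega)) hμ
  have hp1 : (1 : ℝ) < p := by exact_mod_cast hp.one_lt
  have hp0 : (0 : ℝ) < p := by linarith
  have hpp : (0 : ℝ) < (p : ℝ) - 1 := by linarith
  have hθ : (0 : ℝ) ≤ (p : ℝ) ^ (Units.rank K + 1) / (p ^ T.ncard * (p - 1)) := by
    positivity
  have hcd : ∀ n : ℕ, (Fintype.card (Fin n → AdjoinRoot (X - 1 : (ZMod p)[X])) : ℝ) =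
      (p : ℝ) ^ n := by
    intro n
    rw [Fintype.card_fun, hcard, Fintype.card_fin, Nat.cast_pow]
  obtain ⟨l, hl⟩ := hs.degJ
  refine momX hABS hCND hMOM hSEL L hs T _ hθ ?_
  intro S₀
  obtain ⟨B, hSB, ⟨D⟩⟩ := hEXB p K K K₁ K₁ J M₂ ε 1 (X - 1) a₀ hs S₀
  have hr : B.r ≤ B.S.card + Units.rank K :=
    rank1' Pool.Agent.Helper88.LE.l_sun hC.prim hC.gen hμ B
  by_cases hJ : finrank K J = 1
  · obtain ⟨g, K₀, hslow, hH⟩ := hHYP0 p K K K₁ K₁ J M₂ ε 1 (X - 1) a₀ hs hnt B D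
    refine ⟨B, D, g, K₀, hSB, hslow, ?_⟩
    intro aτ haτ
    obtain ⟨E, hE⟩ := (hEXT p (Pool.Agent.Helper77.PPO.p_ne_two p K hμ) L K K₁ J M₂ ε a₀ hs T B D aτ haτ).1 hJ
    obtain ⟨ψ, K', hHyp, c, X₁, hc, hlow⟩ := hH _ E.toTauF aτ haτ hE
    refine (fun h => ⟨_, E, hANH hANA hBRU hBRK p K K K₁ K₁ ε 1 (X - 1) B _ E.toTauF
      (Spl M₂ B.S) D.s0 aτ ψ g K' hHyp K₀ hslow c X₁ hc hlow
      ((p : ℝ) ^ (Units.rank K + 1) / (p ^ T.ncard * (p - 1))) hθ (mt0w_le hMT0 hHyp h)⟩) ?_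
    rw [hcd, hcd, hcard, div_mul_div_comm, div_le_div_iff₀ (by positivity) (by positivity)]
    have h3 : (p : ℝ) ^ B.r ≤ p ^ (B.S.card + Units.rank K) := pow_le_pow_right₀ hp1.le hr
    calc (p : ℝ) ^ B.r * p * (p ^ T.ncard * (p - 1))
        ≤ p ^ (B.S.card + Units.rank K) * p * (p ^ T.ncard * (p - 1)) := by gcongr
      _ = p ^ (Units.rank K + 1) * (p ^ (B.S.card + T.ncard) * (p - 1)) := by ring
  · have hl0 : l ≠ 0 := by
      rintro rfl
      exact hJ (by rw [hl, pow_zero])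
    have hJ' : 1 < finrank K J := by
      have h0 : 0 < finrank K J := finrank_pos
      omega
    have hM₂ : 1 < finrank K₁ M₂ := by
      -- `[M₂ : K]` is divisible by `p`
      by_contra hcon
      have h0 : 0 < finrank K₁ M₂ := finrank_pos
      have h1 : finrank K₁ M₂ = 1 := by omega
      have := tow_K hs
      have := hs.t4
      have h2 : finrank K K₁ * finrank K₁ M₂ = finrank K M₂ := finrank_mul_finrank K K₁ M₂
      have h3 : finrank K J * finrank J M₂ = finrank K M₂ := finrank_mul_finrank K J M₂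
      have h4 : p ∣ finrank K K₁ := by
        rw [h1, mul_one] at h2
        rw [h2, ← h3, hl]
        exact (dvd_pow_self p hl0).mul_right _
      have h5 : finrank K K₁ ∣ p - 1 :=
        Pool.Agent.Helper14.RD.finrank_dvd_pred p K K₁ ε hC.prim hC.gen
      have h6 := Nat.le_of_dvd (by have := hp.one_lt; omega) (h4.trans h5)
      have := hp.one_lt
      omega
    obtain ⟨g, K₀, hslow, hH⟩ := hHYP p K K K₁ K₁ J M₂ ε 1 (X - 1) a₀ hs hnt hM₂ B D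
    refine ⟨B, D, g, K₀, hSB, hslow, ?_⟩
    intro aτ haτ
    obtain ⟨E, hE⟩ := (hEXT p (Pool.Agent.Helper77.PPO.p_ne_two p K hμ) L K K₁ J M₂ ε a₀ hs T B D aτ haτ).2 hJ'
    obtain ⟨ψ, ψ₁, K', hHyp, c, X₁, hc, hlow⟩ := hH _ E.toTauF aτ haτ hE
    refine (fun h => ⟨_, E, hANH hANA hBRU hBRK p K K K₁ K₁ ε 1 (X - 1) B _ E.toTauF
      (Spl M₂ B.S) D.s0 aτ ψ g K' (hyp0_of_hyp hHyp) K₀ hslow c X₁ hc hlow
      ((p : ℝ) ^ (Units.rank K + 1) / (p ^ T.ncard * (p - 1))) hθ (mtw_le hMT hHyp h)⟩) ?_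
    rw [hcd, hcd, hcard, div_mul_div_comm, div_le_div_iff₀ (by positivity) (by positivity)]
    have h3 : (p : ℝ) ^ B.r ≤ p ^ (B.S.card + Units.rank K) := pow_le_pow_right₀ hp1.le hr
    have h4 : B.S.card + T.ncard = (B.S.card + T.ncard - 1) + 1 := by omega
    calc (p : ℝ) ^ B.r * p * (p ^ T.ncard * (p - 1))
        ≤ p ^ (B.S.card + Units.rank K) * p * (p ^ T.ncard * (p - 1)) := by gcongr
      _ = p ^ (Units.rank K + 1) * (p ^ (B.S.card + T.ncard) * (p - 1)) := by ring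
      _ = p ^ (Units.rank K + 1) * (p ^ (B.S.card + T.ncard - 1) * (p * (p - 1))) := by
        rw [h4, pow_succ, Nat.add_sub_cancel]
        ring

theorem momb1X (hABS : N_ABS) (hCND : W_CND) (hMOM : W_MOMV) (hSEL : Y_SEL) (hANH : N_ANH)
    (hANA : N_ANA) (hBRU : N_BRU) (hBRK : N_BRK) (hMT : MTW) (hMT0 : MT₀W) (hHYP : V_HYP)
    (hHYP0 : V_HYP0) (hEXB : W_EXB) (hEXT : Y_EX1) : MOMB1X := by
  intro p hpF L K K₁ J M₂ _ _ _ _ _ _ _ _ _ _ _ _ _ ε a₀ hs hμ T hTc hTn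
  exact momb1X' hABS hCND hMOM hSEL hANH hANA hBRU hBRK hMT hMT0 hHYP hHYP0 hEXB hEXT p L K K₁
    J M₂ ε a₀ hs hμ T hTc hTn

end Pool.Agent.Helper42.WY
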