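import Pool.Agent.Helper42.PW.RKR
import Pool.Agent.Helper42.WY.MOMX
import Pool.Agent.Helper42.WY.ALN

/-!
# Project WY: the moment theorem for `χ₀ ≠ 1`, no conditions above `p`
-/

set_option autoImplicit false

namespace Pool.Agent.Helper42.WY

open NumberField Polynomial Module IsDedekindDomain
open Pool.Agent.Helper51.RP Pool.Agent.Helper42.RD Pool.Agent.Helper42.PP Pool.Agent.Helper42.PP1
open Pool.Agent.Helper51.SigLeo Pool.Agent.Helper11.LE Pool.Agent.Helper11.PP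
open Pool.Agent.Helper17.PP (Sys)
open Pool.Agent.Helper17.PP0 (Hyp₀)
open Pool.Agent.Helper42.PB Pool.Agent.Helper76.PB Pool.Agent.Helper42.PW Pool.Agent.Helper38.WY
open Pool.Agent.Helper11.PB (V_HYP V_HYP0 tc_up)
open Pool.Agent.Helper38.ND
open Pool.Agent.Helper98.ND (hyp0_of_hyp mtw_le mt0w_le)

/-- **MOMBXR** (`MOMBVR` for the weak `SitB` and `SelX`): the moment theorem for `χ₀ ≠ 1`, for all families of characters
of order `p` given by local conditions, for all base fields `K` such that `K(ζ_p)` is totally complex and all sets `T`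
of embeddings which are unions of places. `d` is a bound for the number of the infinite places of `K` which are
unramified in `M`. -/
def MOMBXR : Prop :=
  ∀ (p : ℕ) [Fact p.Prime] (_ : IwasawaLog p ℂ_[p]) (K M K₁ M₁ J M₂ : Type) [Field K]
    [NumberField K] [Field M] [NumberField M] [Field K₁] [NumberField K₁] [IsTotallyComplex K₁]
    [Field M₁] [NumberField M₁] [Field J] [NumberField J] [Field M₂] [NumberField M₂] [Algebra K M]
    [Algebra K K₁] [Algebra K M₁] [Algebra M M₁] [Algebra K₁ M₁] [Algebra K J] [Algebra K M₂]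
    [Algebra M M₂] [Algebra K₁ M₂] [Algebra M₁ M₂] [Algebra J M₂] (ε : K₁) (δ : M ≃ₐ[K] M)
    (P : (ZMod p)[X]) (a₀ : M₂ˣ), SitB p K M K₁ M₁ J M₂ ε δ P a₀ → NTV p M₁ ε δ P →
    1 < finrank K₁ M₂ →
  ∀ (m : ℕ) (ζ : ℂ_[p]) (Φ : ℤ_[p][X]), PhiData p m ζ Φ P → finrank K M = m → TorOK P δ →
  ∀ T : Set (K →+* ℂ_[p]), PlaceClosed T → ∀ d : ℕ, nUr K M ≤ d →
  MomA p K ε (BdX T P δ ε a₀) (((p : ℝ) ^ P.natDegree) ^ d / ((p : ℝ) ^ P.natDegree) ^ T.ncard *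
    ((p : ℝ) ^ P.natDegree / (p * ((p : ℝ) ^ P.natDegree - 1))))

/-- **MOMBXR**. -/
theorem mombX' (hABS : N_ABS) (hCND : W_CND) (hMOM : W_MOMV) (hSEL : Y_SEL) (hANH : N_ANH)
    (hANA : N_ANA) (hBRU : N_BRU) (hBRK : N_BRK) (hMT : MTW) (hHYP : V_HYP) (hEXB : W_EXB)
    (hEXT : Y_EXT) (hALN : F_ALN)
    (p : ℕ) [hpF : Fact p.Prime] (L : IwasawaLog p ℂ_[p]) (K M K₁ M₁ J M₂ : Type) [Field K]
    [NumberField K] [Field M] [NumberField M] [Field K₁] [NumberField K₁] [IsTotallyComplex K₁]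
    [Field M₁] [NumberField M₁] [Field J] [NumberField J] [Field M₂] [NumberField M₂] [Algebra K M]
    [Algebra K K₁] [Algebra K M₁] [Algebra M M₁] [Algebra K₁ M₁] [Algebra K J] [Algebra K M₂]
    [Algebra M M₂] [Algebra K₁ M₂] [Algebra M₁ M₂] [Algebra J M₂] (ε : K₁) (δ : M ≃ₐ[K] M)
    (P : (ZMod p)[X]) (a₀ : M₂ˣ) (hs : SitB p K M K₁ M₁ J M₂ ε δ P a₀) (hnt : NTV p M₁ ε δ P)
    (h1 : 1 < finrank K₁ M₂) (m : ℕ) (ζ : ℂ_[p]) (Φ : ℤ_[p][X]) (hPhi : PhiData p m ζ Φ P)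
    (hfr : finrank K M = m) (htor : TorOK P δ) (T : Set (K →+* ℂ_[p])) (hTc : PlaceClosed T)
    (d : ℕ) (hd : nUr K M ≤ d) :
    MomA p K ε (BdX T P δ ε a₀) (((p : ℝ) ^ P.natDegree) ^ d / ((p : ℝ) ^ P.natDegree) ^ T.ncard *
      ((p : ℝ) ^ P.natDegree / (p * ((p : ℝ) ^ P.natDegree - 1)))) := by
  classical
  have hp : p.Prime := hpF.out
  have hirr : Fact (Irreducible P) := ⟨hs.sit.irr⟩
  have hP0 : P ≠ 0 := hs.sit.irr.ne_zero
  have hfinA : Module.Finite (ZMod p) (AdjoinRoot P) := (AdjoinRoot.powerBasis hP0).finite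
  have hfA : Finite (AdjoinRoot P) := Module.finite_of_finite (ZMod p)
  let instA : Fintype (AdjoinRoot P) := Fintype.ofFinite _
  have hcard : Fintype.card (AdjoinRoot P) = p ^ P.natDegree := by
    rw [Module.card_eq_pow_finrank (K := ZMod p) (V := AdjoinRoot P), ZMod.card,
      (AdjoinRoot.powerBasis hP0).finrank, AdjoinRoot.powerBasis_dim]
  have hne : Nonempty (AlgebraicClosure ℚ →+* ℂ_[p]) :=
    Pool.Agent.Helper35.RD.nonempty_hom ℚ ℂ_[p]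
  have hcM : IsTotallyComplex M₁ := tc_up K₁ M₁
  have := hs.sit.gM
  have := hs.sit.st1
  have := hs.sit.st2
  have hord : orderOf δ = m := hs.sit.ord.trans hfr
  have hPX : AdjoinRoot.root P ≠ 1 := by
    intro h
    have h2 := hPhi.cop 1 one_pos hPhi.one_lt (one_dvd _)
    have h3 : P ∣ X ^ 1 - 1 := by
      rw [← AdjoinRoot.mk_eq_zero, pow_one, map_sub, AdjoinRoot.mk_X, map_one, h, sub_self]
    exact hs.sit.irr.not_isUnit (h2.isUnit_of_dvd' dvd_rfl h3)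
  have lob : S_LOB := Pool.Agent.Helper32.RP.s_lob Pool.Agent.Helper90.RP.s_sub
    Pool.Agent.Helper59.RP.s_bin (Pool.Agent.Helper39.RP.s_sig Pool.Agent.Helper95.RP.s_lat)
    Pool.Agent.Helper99.RP.s_prm
  have hp1 : (1 : ℝ) < p := by exact_mod_cast hp.one_lt
  have hQ1 : (1 : ℝ) < (p : ℝ) ^ P.natDegree := by
    have h := one_lt_pow₀ hp1 hs.sit.irr.natDegree_pos.ne'
    exact h
  have hθ₀ : (0 : ℝ) ≤ (p : ℝ) ^ P.natDegree / (p * ((p : ℝ) ^ P.natDegree - 1)) := by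
    have h2 : (0 : ℝ) ≤ (p : ℝ) ^ P.natDegree - 1 := by linarith
    positivity
  have hθ : (0 : ℝ) ≤ ((p : ℝ) ^ P.natDegree) ^ d / ((p : ℝ) ^ P.natDegree) ^ T.ncard *
      ((p : ℝ) ^ P.natDegree / (p * ((p : ℝ) ^ P.natDegree - 1))) := by
    positivity
  refine momX hABS hCND hMOM hSEL L hs T _ hθ ?_
  intro S₀
  obtain ⟨B, hSB, ⟨D⟩⟩ := hEXB p K M K₁ M₁ J M₂ ε δ P a₀ hs S₀
  obtain ⟨g, K₀, hslow, hH⟩ := hHYP p K M K₁ M₁ J M₂ ε δ P a₀ hs hnt h1 B D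
  refine ⟨B, D, g, K₀, hSB, hslow, ?_⟩
  obtain ⟨hSf, hst, hSp, -, -, -, -⟩ := Pool.Agent.Helper16.PP.p_upr p K M B.S
  obtain ⟨s₀, hs₀⟩ := Pool.Agent.Helper90.RP.Dual.dvd_ncard (K := K) m hfr
    {w ∈ up M B.S | FreeP K w} (hSf.subset fun w hw => hw.1)
    (fun w hw v hv => ⟨hst w hw.1 v hv, free_of_conj hv hw.2⟩)
    (fun w hw => hw.2)
  have hr : B.r ≤ d + s₀ :=
    rank_leR Pool.Agent.Helper30.PP.p_fun hPhi hord hfr hd htor B hSf hst hs₀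
  intro aτ haτ
  obtain ⟨E⟩ := hEXT p K M K₁ M₁ J M₂ ε δ P a₀ hs L T B aτ haτ
    (T.ncard + s₀) (fun 𝔪₀ v hv =>
      lob p ℂ_[p] hne L K M m s₀ δ ζ Φ P hPhi hord hfr T hTc (up M B.S) 𝔪₀ v hv hs₀)
  obtain ⟨ψ, ψ₁, K', hHyp, c, X₁, hc, hlow⟩ := hH (T.ncard + s₀) E.toTauF aτ haτ
    (hALN p K M K₁ M₁ J M₂ ε δ P a₀ hs hPX B D _ E.toTauF)
  refine (fun h => ⟨_, E, hANH hANA hBRU hBRK p K M K₁ M₁ ε δ P B _ E.toTauF
    (Spl M₂ B.S) D.s0 aτ ψ g K' (hyp0_of_hyp hHyp) K₀ hslow c X₁ hc hlow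
    (((p : ℝ) ^ P.natDegree) ^ d / ((p : ℝ) ^ P.natDegree) ^ T.ncard *
      ((p : ℝ) ^ P.natDegree / (p * ((p : ℝ) ^ P.natDegree - 1)))) hθ (mtw_le hMT hHyp h)⟩) ?_
  have h3 : (Fintype.card (Fin B.r → AdjoinRoot P) : ℝ) = ((p : ℝ) ^ P.natDegree) ^ B.r := by
    rw [Fintype.card_fun, hcard, Fintype.card_fin]
    push_cast
    ring
  have h4 : (Fintype.card (Fin (T.ncard + s₀) → AdjoinRoot P) : ℝ) =
      ((p : ℝ) ^ P.natDegree) ^ (T.ncard + s₀) := by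
    rw [Fintype.card_fun, hcard, Fintype.card_fin]
    push_cast
    ring
  rw [h3, h4, hcard, Nat.cast_pow]
  have hQ0 : (0 : ℝ) < (p : ℝ) ^ P.natDegree := by linarith
  have h5 : ((p : ℝ) ^ P.natDegree) ^ B.r / ((p : ℝ) ^ P.natDegree) ^ (T.ncard + s₀) ≤
      ((p : ℝ) ^ P.natDegree) ^ d / ((p : ℝ) ^ P.natDegree) ^ T.ncard := by
    rw [div_le_div_iff₀ (by positivity) (by positivity), ← pow_add, ← pow_add]
    exact pow_le_pow_right₀ hQ1.le (by omega)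
  exact mul_le_mul_of_nonneg_right h5 hθ₀

theorem mombXR (hABS : N_ABS) (hCND : W_CND) (hMOM : W_MOMV) (hSEL : Y_SEL) (hANH : N_ANH)
    (hANA : N_ANA) (hBRU : N_BRU) (hBRK : N_BRK) (hMT : MTW) (hHYP : V_HYP) (hEXB : W_EXB)
    (hEXT : Y_EXT) (hALN : F_ALN) : MOMBXR := by
  intro p hpF L K M K₁ M₁ J M₂ _ _ _ _ _ _ _ _ _ _ _ _ _ _ _ _ _ _ _ _ _ _ _ _ ε δ P a₀ hs hnt
    h1 m ζ Φ hPhi hfr htor T hTc d hd
  exact mombX' hABS hCND hMOM hSEL hANH hANA hBRU hBRK hMT hHYP hEXB hEXT hALN p L K M K₁ M₁ J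
    M₂ ε δ P a₀ hs hnt h1 m ζ Φ hPhi hfr htor T hTc d hd

end Pool.Agent.Helper42.WY
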