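import Pool.Agent.Helper42.WY.DEN
import Pool.Agent.Helper42.WY.MRX
import Pool.Agent.Helper42.WY.MB1X
import Pool.Agent.Helper42.PW.Asm3
import Pool.Agent.Helper38.FW.Final

/-!
# Project WY (MP_fc6b1e_nt): `Y_DEN` from `Y_SEL`, `Y_EXT`, `F_LINE`, `Z_GL1`, `Z_GL0`
-/

set_option autoImplicit false

namespace Pool.Agent.Helper42.WY

open Pool.Agent.Helper38.WY Pool.Agent.Helper42.PW

theorem a_ykum : Y_KUM := y_kum Pool.Agent.Helper96.PPB.b_ku1 Pool.Agent.Helper56.PPB.b_ku4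
  Pool.Agent.Helper98.PPB.b_ku5

theorem a_mombxr (hSEL : Y_SEL) (hEXT : Y_EXT) (hLINE : F_LINE) : MOMBXR :=
  mombXR Pool.Agent.Helper50.ND.n_abs Pool.Agent.Helper91.PW.w_cnd Pool.Agent.Helper87.PW.w_momv
    hSEL Pool.Agent.Helper26.ND.n_anh Pool.Agent.Helper38.ND.n_ana
    Pool.Agent.Helper93.ND.n_bru Pool.Agent.Helper79.ND.n_brk Pool.Agent.Helper38.ND.mtw
    (Pool.Agent.Helper17.PB.v_hyp Pool.Agent.Helper76.PB.a_smn Pool.Agent.Helper76.PB.a_kum)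
    Pool.Agent.Helper53.PW.w_exb hEXT (f_aln hLINE)

theorem a_momrxr (hSEL : Y_SEL) (hEXT : Y_EXT) (hLINE : F_LINE) : MOMRXR :=
  momrXR Pool.Agent.Helper50.ND.n_abs Pool.Agent.Helper91.PW.w_cnd Pool.Agent.Helper87.PW.w_momv
    hSEL Pool.Agent.Helper26.ND.n_anh Pool.Agent.Helper38.ND.n_ana
    Pool.Agent.Helper93.ND.n_bru Pool.Agent.Helper79.ND.n_brk Pool.Agent.Helper38.ND.mt2w
    Pool.Agent.Helper51.REC.r_two Pool.Agent.Helper76.PB.a_smn Pool.Agent.Helper76.PB.a_kum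
    Pool.Agent.Helper53.PW.w_exb hEXT (f_aln hLINE)

theorem a_momb1x (hSEL : Y_SEL) (hEXT : Y_EXT) (hLINE : F_LINE) : MOMB1X :=
  momb1X Pool.Agent.Helper50.ND.n_abs Pool.Agent.Helper91.PW.w_cnd Pool.Agent.Helper87.PW.w_momv
    hSEL Pool.Agent.Helper26.ND.n_anh Pool.Agent.Helper38.ND.n_ana
    Pool.Agent.Helper93.ND.n_bru Pool.Agent.Helper79.ND.n_brk Pool.Agent.Helper38.ND.mtw
    Pool.Agent.Helper38.ND.mt0w
    (Pool.Agent.Helper17.PB.v_hyp Pool.Agent.Helper76.PB.a_smn Pool.Agent.Helper76.PB.a_kum)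
    (Pool.Agent.Helper17.PB.v_hyp0 Pool.Agent.Helper76.PB.a_smn Pool.Agent.Helper76.PB.a_kum)
    Pool.Agent.Helper53.PW.w_exb (y_ex1 hEXT hLINE)

/-- **Y_DEN** from the five open statements of project WY. -/
theorem a_yden (hSEL : Y_SEL) (hEXT : Y_EXT) (hLINE : F_LINE) (hG1 : Z_GL1) (hG0 : Z_GL0) :
    Y_DEN :=
  y_den (mombX (a_mombxr hSEL hEXT hLINE)) (a_momb1x hSEL hEXT hLINE)
    (momrX (a_momrxr hSEL hEXT hLINE)) a_ykum
    Pool.Agent.Helper74.PPB.b_swt Pool.Agent.Helper58.PPB.b_ntv Pool.Agent.Helper91.PPB.b_ntv2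
    hG1 hG0 Pool.Agent.Helper77.PPL.d_map
    Pool.Agent.Helper39.PPB.b_chr Pool.Agent.Helper14.PW.w_ldt Pool.Agent.Helper5.PW.w_pro
    Pool.Agent.Helper32.FW.g_wt Pool.Agent.Helper49.FW.g_asm Pool.Agent.Helper22.RP.s_phi
    Pool.Agent.Helper11.RP.s_nsp Pool.Agent.Helper20.RD.e_frb

end Pool.Agent.Helper42.WY
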