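import Pool.Agent.Helper42.WY.Asm

/-!
# Project WY: the density theorem for general base fields and general sets of embeddings, no conditions above `p`

As `Y_DEN`, but `K` is any number field (totally complex if `p = 2`), and `S i` is any set of embeddings for
which the set `T i` of the corresponding `p`-adic embeddings is a union of places. The constants are multiplied
by `Q^(d - |T|)`, `d` the number of the infinite places of `K` which are unramified in the field of the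
character.
-/

set_option autoImplicit false

namespace Pool.Agent.Helper42.WY

open NumberField Polynomial Module IsDedekindDomain TensorProduct Pool.Agent.Helper51.SigLeo
open Pool.Agent.Helper51.RP Pool.Agent.Helper42.RD Pool.Agent.Helper11.LE Pool.Agent.Helper11.PP
open Pool.Agent.Helper42.PP Pool.Agent.Helper42.PP1 Pool.Agent.Helper42.PB Pool.Agent.Helper42.PW
open Pool.Agent.Helper38.FD (Chr CutsOut LeopoldtFor IsOrdinary isGalois_of_cutsOut)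
open Pool.Agent.Helper77.PPB
open Pool.Agent.Helper11.R (NTV2)
open Pool.Agent.Helper11.PB (tc_up)
open Pool.Agent.Helper38.FW (cntE condP LocE momA_mono)
open Pool.Agent.Helper38.WY

/-- **The density theorem**, for general base fields and general sets of embeddings. -/
theorem y_denl (hSEL : Y_SEL) (hEXT : Y_EXT) (hLINE : F_LINE) (hG1 : Z_GL1) (hG0 : Z_GL0)
    (p : ℕ) [hpF : Fact p.Prime] (K : Type) [Field K] [NumberField K]
    (htc : p ≠ 2 ∨ IsTotallyComplex K)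
    (ιinf : AlgebraicClosure K →+* ℂ) (ιp : AlgebraicClosure K →+* ℂ_[p])
    (Lg : IwasawaLog p ℂ_[p]) (ι : Type) [hι : Nonempty ι] (n : ℕ)
    (c : ι → Fin n) (S : ι → Set (K →+* ℂ))
    (M F₀ : ι → IntermediateField K (AlgebraicClosure K))
    (χ₀ ψ₀ : ι → Chr K (AlgebraicClosure K) ℂ_[p])
    (hcl : ∀ i, PlaceClosed (TSet ιinf ιp (S i)))
    (hfM : ∀ i, FiniteDimensional K (M i)) (hχ : ∀ i, CutsOut (χ₀ i) (M i))
    (hcop : ∀ i, (finrank K (M i)).Coprime p)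
    (hω : ∀ i, ∃ (g : AlgebraicClosure K ≃ₐ[K] AlgebraicClosure K) (r : ℕ),
      (∀ ξ : AlgebraicClosure K, ξ ^ p = 1 → g ξ = ξ ^ r) ∧
      ‖((χ₀ i g : ℂ_[p]ˣ) : ℂ_[p]) - r‖ = 1)
    (hψ : ∀ i, CutsOut (ψ₀ i) (F₀ i)) (hF : ∀ i, ∃ l : ℕ, finrank K (F₀ i) = p ^ l)
    (hc : ∀ i j, c i = c j → S i = S j ∧ (∃ r : ℕ, χ₀ i = χ₀ j ^ p ^ r) ∧ ψ₀ i = ψ₀ j)
    (θ : Fin n → ℝ) (hθ : ∀ t, 0 ≤ θ t) (d : ι → ℕ) (hd : ∀ i, nUr K (M i) ≤ d i)
    (hcase : ∀ i, (M i = ⊥ ∧ Units.rank K + 1 ≤ (TSet ιinf ιp (S i)).ncard ∧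
        (p : ℝ) ^ (Units.rank K + 1) / (p ^ (TSet ιinf ιp (S i)).ncard * (p - 1)) ≤ θ (c i)) ∨
      (M i ≠ ⊥ ∧ (p ^ 2 ≤ finrank K (F₀ i) ∨ ∀ ξ : AlgebraicClosure K, IsPrimitiveRoot ξ p →
          ¬ M i ≤ IntermediateField.adjoin K {ξ}) ∧
        ((p : ℝ) ^ orderOf (p : ZMod (finrank K (M i)))) ^ d i /
            ((p : ℝ) ^ orderOf (p : ZMod (finrank K (M i)))) ^ (TSet ιinf ιp (S i)).ncard *
          ((p : ℝ) ^ orderOf (p : ZMod (finrank K (M i))) /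
          (p * ((p : ℝ) ^ orderOf (p : ZMod (finrank K (M i))) - 1))) ≤ θ (c i)) ∨
      (M i ≠ ⊥ ∧ (∀ j : ℕ, ∃ (g : AlgebraicClosure K ≃ₐ[K] AlgebraicClosure K) (r : ℕ),
          (∀ ξ : AlgebraicClosure K, ξ ^ p = 1 → g ξ = ξ ^ r) ∧
          ‖((χ₀ i g : ℂ_[p]ˣ) : ℂ_[p]) ^ (1 + p ^ j) - r‖ = 1) ∧
        ((p : ℝ) ^ orderOf (p : ZMod (finrank K (M i)))) ^ d i /
            ((p : ℝ) ^ orderOf (p : ZMod (finrank K (M i)))) ^ (TSet ιinf ιp (S i)).ncard *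
          (1 / ((p : ℝ) ^ orderOf (p : ZMod (finrank K (M i))) - 1)) ≤ θ (c i)))
    (A : Set (IntermediateField K (AlgebraicClosure K) × Chr K (AlgebraicClosure K) ℂ_[p]))
    (hA : LocC p K A)
    (e : IntermediateField K (AlgebraicClosure K) × Chr K (AlgebraicClosure K) ℂ_[p] → ℕ)
    (he : LocE p K e) :
  (∀ X : ℕ, {x | x ∈ ChN p K ∧ condP p K x.1 * e x ≤ X}.Finite) ∧
  (∀ η : ℝ, 0 < η → ∀ᶠ X : ℕ in Filter.atTop,
    cntE e {x | x ∈ A ∧ ∃ i, ¬ GoodX ιinf ιp Lg (S i) (χ₀ i) (ψ₀ i) x} X ≤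
      (∑ r, θ r + η) * cntE e A X) ∧
  (∃ δ : ℝ, 0 < δ ∧ ∀ᶠ X : ℕ in Filter.atTop,
    0 < cntE e (ChN p K) X ∧ δ * cntE e (ChN p K) X ≤ cntE e A X) := by
  classical
  have hp : p.Prime := hpF.out
  have hSW := Pool.Agent.Helper74.PPB.b_swt
  have hNT := Pool.Agent.Helper58.PPB.b_ntv
  have hNT2 := Pool.Agent.Helper91.PPB.b_ntv2
  have hPH := Pool.Agent.Helper22.RP.s_phi
  have hNS := Pool.Agent.Helper11.RP.s_nsp
  have hFR := Pool.Agent.Helper20.RD.e_frb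
  refine asmX Pool.Agent.Helper77.PPL.d_map Pool.Agent.Helper39.PPB.b_chr
    Pool.Agent.Helper14.PW.w_ldt Pool.Agent.Helper5.PW.w_pro Pool.Agent.Helper32.FW.g_wt
    Pool.Agent.Helper49.FW.g_asm p K ιinf ιp Lg ι n c S F₀ χ₀ ψ₀ hF hc
    θ hθ ?_ A hA e he
  intro K₁ _ ε ε₁ εk nf cf hε hK₁ hε₁ hC hεk n1 n5 i
  have htc₁ : IsTotallyComplex K₁ := by
    rcases htc with h | h
    · exact (Pool.Agent.Helper90.LE.l_cyc p K K₁ ε₁ hC).2.2.2 h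
    · exact tc_up K K₁
  rcases hcase i with ⟨hM, hrk, hle⟩ | ⟨hM, hor, hle⟩ | ⟨hM, hsd, hle⟩
  · -- `χ₀ = 1`
    have hχ1 : χ₀ i = 1 := by
      ext g
      have h1 : χ₀ i g = 1 := by
        rw [(hχ i) g, hM]
        intro x hx
        obtain ⟨y, rfl⟩ := IntermediateField.mem_bot.1 hx
        exact g.commutes y
      rw [h1]
      rfl
    have hμ := no_root hχ1 (hω i)
    rw [hχ1]
    exact y_cls0 a_ykum hG0 p K ιinf ιp Lg hμ K₁ ε₁ hC εk hεk nf cf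
      n1 n5 (S i) (hcl i) (F₀ i) (ψ₀ i) (hψ i) (hF i)
      (fun Bd => MomA p K ε₁ Bd (θ (c i))) (by
        intro J M₂ _ _ _ _ a₀ hB
        exact momA_mono hle (a_momb1x hSEL hEXT hLINE p Lg K K₁ J M₂ ε₁ a₀ hB hμ
          (TSet ιinf ιp (S i)) (hcl i) hrk))
  · -- `χ₀ ≠ 1`, (b)
    have := hfM i
    refine y_cls1 a_ykum hSW hNT hG1 hPH hNS hFR p K ιinf ιp Lg K₁ ε hε hK₁ ε₁ hε₁ εk
      hεk nf cf n1 n5 (S i) (hcl i) (M i) (F₀ i) (χ₀ i) (ψ₀ i) (hχ i) (hcop i) (hω i) hM (hψ i)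
      (hF i) (fun Bd => MomA p K ε₁ Bd (θ (c i))) ?_
    intro M₁ J M₂ _ _ _ _ _ _ _ _ _ _ _ χM δ Φ P a₀ _ hb
    have hfM₂ : FiniteDimensional K M₂ := Module.Finite.of_restrictScalars_finite ℚ K M₂
    have hlt : 1 < finrank K₁ M₂ := by
      refine one_lt_deg (M := M i) hb.w2 hb.leM hb.leK hb.eq2 hb.copK hb.degJ ?_
      rcases hor with h | h
      · exact Or.inr (hb.neJ h)
      · left; rw [hK₁]; exact h ε hε
    refine momA_mono ?_ (a_mombxr hSEL hEXT hLINE p Lg K (M i) K₁ M₁ J M₂ ε₁ δ P a₀ hb.sit hb.ntv hlt _ _ Φ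
      hb.phi rfl hb.tor (TSet ιinf ιp (S i)) (hcl i) (d i) (hd i))
    rw [Pool.Agent.Helper77.PPL.phi_deg hb.phi]
    exact hle
  · -- `χ₀ ≠ 1`, (c)
    have := hfM i
    refine y_cls1 a_ykum hSW hNT hG1 hPH hNS hFR p K ιinf ιp Lg K₁ ε hε hK₁ ε₁ hε₁ εk
      hεk nf cf n1 n5 (S i) (hcl i) (M i) (F₀ i) (χ₀ i) (ψ₀ i) (hχ i) (hcop i) (hω i) hM (hψ i)
      (hF i) (fun Bd => MomA p K ε₁ Bd (θ (c i))) ?_
    intro M₁ J M₂ _ _ _ _ _ _ _ _ _ _ _ χM δ Φ P a₀ hχM hb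
    have hntv2 := hNT2 p K (M i) K₁ M₁ hb.v1 hb.v2 ε₁ δ P hb.sit.sit χM Φ hb.ord hb.phi (by
      obtain ⟨g, r, h4, h5⟩ := hω i
      exact ⟨g, r, h4, by rw [← hχM g]; exact h5⟩) (by
      intro j
      obtain ⟨g, r, h4, h5⟩ := hsd j
      exact ⟨g, r, h4, by rw [← hχM g]; exact h5⟩)
    refine momA_mono ?_ (a_momrxr hSEL hEXT hLINE p Lg K (M i) K₁ M₁ J M₂ ε₁ δ P a₀ hb.sit hntv2 _ _ Φ
      hb.phi rfl hb.tor (TSet ιinf ιp (S i)) (hcl i) (d i) (hd i))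
    rw [Pool.Agent.Helper77.PPL.phi_deg hb.phi]
    exact hle

end Pool.Agent.Helper42.WY
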