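import Pool.Agent.Helper42.PW.MRVR
import Pool.Agent.Helper42.WY.MOMX
import Pool.Agent.Helper42.WY.ALN
import Pool.Agent.Helper42.WY.MOMG
import Pool.Agent.Helper11.M3.GoalsA
import Pool.Agent.Helper11.M3.DefsW
import Pool.Agent.Helper98.ND.NMB

/-!
# Project WY: the moment theorem in the self-dual and in the unitary case
-/

set_option autoImplicit false

namespace Pool.Agent.Helper42.WY

open NumberField Polynomial Module IsDedekindDomain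
open Pool.Agent.Helper51.RP Pool.Agent.Helper42.RD Pool.Agent.Helper42.PP Pool.Agent.Helper42.PP1
open Pool.Agent.Helper51.SigLeo Pool.Agent.Helper11.LE Pool.Agent.Helper11.PP
open Pool.Agent.Helper17.PP (Sys)
open Pool.Agent.Helper17.PP0 (Hyp₀)
open Pool.Agent.Helper42.PB Pool.Agent.Helper76.PB Pool.Agent.Helper42.PW Pool.Agent.Helper38.WY
open Pool.Agent.Helper11.PB (tc_up)
open Pool.Agent.Helper38.ND
open Pool.Agent.Helper98.ND (up_le)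
open Pool.Agent.Helper11.M3 (HypW Hyp₃ Hyp₄ MT₃W MT₄W Bad₄ A_HYP3 A_NRM Nrml)
open Pool.Agent.Helper79.PP (clp_eq clp_mul)

open Classical in
theorem mt3w_le (hMT : MT₃W) {p : ℕ} [Fact p.Prime] {B B₀ k U Λ C : Type} [Field k] [Fintype k]
    [Algebra (ZMod p) k] [AddCommGroup U] [Module k U] [Fintype U] [AddCommGroup Λ] [Module k Λ]
    [Fintype Λ] [AddCommGroup C] [Finite C] {S : Sys p B B₀ k U Λ C} {ψ : AddChar k ℂ}
    {Lk : k → k → Prop} {Cs : k → AddSubgroup k} {M : ℕ} {g : ℝ → ℝ} {K : ℕ}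
    (hS : Hyp₃ S ψ Lk Cs M g K) {θ : ℝ}
    (hθ : ((Fintype.card U : ℝ) / Fintype.card Λ) *
      (Fintype.card k / (M * (Fintype.card k - 1))) ≤ θ) :
    ∀ w : ℝ → ℝ, WF w → ∀ ε : ℝ, 0 < ε → ∃ X₀ : ℝ, ∀ X : ℝ, X₀ ≤ X →
    ∀ P : Finset B, ∑ b ∈ P.powerset with (S.Fam b ∧ S.Bad b), w (S.nm b / X) ≤
      θ * ∑ b ∈ P.powerset with S.Fam b, w (S.nm b / X) + ε * (X * g X) := by
  intro w hw ε hε
  obtain ⟨X₀, h0⟩ := hMT p B B₀ k U Λ C S ψ Lk Cs M g K hS w hw ε hε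
  refine ⟨max X₀ 1, fun X hX P => ?_⟩
  have hX0 : X₀ ≤ X := (le_max_left _ _).trans hX
  have hXp : 0 < X := lt_of_lt_of_le one_pos ((le_max_right _ _).trans hX)
  exact up_le _ _ (fun b => w (S.nm b / X)) (fun b => hw.nonneg _ (by positivity)) hθ (h0 X hX0 P)

open Classical in
theorem mt4w_le (hMT : MT₄W) {p : ℕ} [Fact p.Prime] {B B₀ k U Λ C : Type} [Field k] [Fintype k]
    [Algebra (ZMod p) k] [AddCommGroup U] [Module k U] [Fintype U] [AddCommGroup Λ] [Module k Λ]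
    [Fintype Λ] [AddCommGroup C] [Finite C] {S : Sys p B B₀ k U Λ C} {ψ : AddChar k ℂ}
    {e : B → k} {N : B → Prop} {Y : AddSubgroup k} {g : ℝ → ℝ} {K : ℕ}
    (hS : Hyp₄ S ψ e N Y g K) {θ : ℝ}
    (hθ : ((Fintype.card U : ℝ) / Fintype.card Λ) *
      (1 / (Nat.card Y * (Fintype.card k - 1))) ≤ θ) :
    ∀ w : ℝ → ℝ, WF w → ∀ ε : ℝ, 0 < ε → ∃ X₀ : ℝ, ∀ X : ℝ, X₀ ≤ X →
    ∀ P : Finset B, ∑ b ∈ P.powerset with (S.Fam b ∧ Bad₄ S N b), w (S.nm b / X) ≤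
      θ * ∑ b ∈ P.powerset with S.Fam b, w (S.nm b / X) + ε * (X * g X) := by
  intro w hw ε hε
  obtain ⟨X₀, h0⟩ := hMT p B B₀ k U Λ C S ψ e N Y g K hS w hw ε hε
  refine ⟨max X₀ 1, fun X hX P => ?_⟩
  have hX0 : X₀ ≤ X := (le_max_left _ _).trans hX
  have hXp : 0 < X := lt_of_lt_of_le one_pos ((le_max_right _ _).trans hX)
  exact up_le _ _ (fun b => w (S.nm b / X)) (fun b => hw.nonneg _ (by positivity)) hθ (h0 X hX0 P)

/-- **BdX gives Bad** for `sysB` (`Y_SEL`). -/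
theorem selX_bad (hSEL : Y_SEL) {p : ℕ} [hpF : Fact p.Prime]
    {K M K₁ M₁ J M₂ : Type} [Field K] [NumberField K] [Field M]
    [NumberField M] [Field K₁] [NumberField K₁] [Field M₁] [NumberField M₁] [Field J]
    [NumberField J] [Field M₂] [NumberField M₂] [Algebra K M] [Algebra K K₁] [Algebra K M₁]
    [Algebra M M₁] [Algebra K₁ M₁] [Algebra K J] [Algebra K M₂] [Algebra M M₂] [Algebra K₁ M₂]
    [Algebra M₁ M₂] [Algebra J M₂] {ε : K₁} {δ : M ≃ₐ[K] M} {P : (ZMod p)[X]}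
    [Fact (Irreducible P)] {a₀ : M₂ˣ} (hs : SitB p K M K₁ M₁ J M₂ ε δ P a₀)
    (T : Set (K →+* ℂ_[p])) (B : Base p K M K₁ M₁ ε δ P) (D : BaseB B a₀) (aτ : K₁ˣ)
    (haτ : OmType p K ε (aτ : K₁)) (n : ℕ) (E : TauX n B a₀ T aτ) (a : K₁ˣ)
    (hcl : clp p a ∈ BdX T P δ ε a₀) (ha : OmType p K ε (a : K₁))
    (hl : LocS p (up K₁ B.S) (a / aτ)) :
    (sysB B E.toTauF (Spl M₂ B.S) D.s0 aτ).Bad (B.lab a) := by
  obtain ⟨y, a₁, haa, hsel, hy⟩ := hcl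
  obtain ⟨z, hz⟩ := clp_eq.1 haa.symm
  have h1 : OmType p K ε (a₁ : K₁) := by rw [hz]; exact om_mul_pow ha z
  have h2 : LocS p (up K₁ B.S) (a₁ / aτ) := by
    have h3 := (Pool.Agent.Helper15.PP.gZ p _).mul_mem (Pool.Agent.Helper15.PP.mem_gZ.2 hl)
      (Pool.Agent.Helper15.PP.mem_gZ.2 (locS_pow (p := p) (Z := up K₁ B.S) z))
    have h4 : a₁ / aτ = a / aτ * z ^ p := by rw [hz, mul_div_right_comm]
    rw [h4]
    exact Pool.Agent.Helper15.PP.mem_gZ.1 h3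
  have h5 := hSEL p K M K₁ M₁ J M₂ ε δ P a₀ hs T B D aτ n E haτ a₁ h1 h2
    ⟨y, hsel, hy⟩
  rw [hz, lab_mul_pow] at h5
  exact h5

/-- **MOM3X**. -/
theorem mom3X (hSEL : Y_SEL) (hEXT : Y_EXT) (hALN : F_ALN) (hMT : MT₃W) (hNRM : A_NRM)
    (hHYP : A_HYP3) : MOM3X := by
  classical
  intro p hpF L K M K₁ M₁ J M₂ _ _ _ _ _ _ _ _ _ _ _ _ _ _ _ _ _ _ _ _ _ _ _ _ ε δ P a₀ hs hnt
    j hsd hj m ζ Φ hPhi hfr htor T hTc hd
  have hp : p.Prime := hpF.out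
  have hirr : Fact (Irreducible P) := ⟨hs.sit.irr⟩
  have hP0 : P ≠ 0 := hs.sit.irr.ne_zero
  have hfinA : Module.Finite (ZMod p) (AdjoinRoot P) := (AdjoinRoot.powerBasis hP0).finite
  have hfA : Finite (AdjoinRoot P) := Module.finite_of_finite (ZMod p)
  let instA : Fintype (AdjoinRoot P) := Fintype.ofFinite _
  have hcard : Fintype.card (AdjoinRoot P) = p ^ P.natDegree := by
    rw [Module.card_eq_pow_finrank (K := ZMod p) (V := AdjoinRoot P), ZMod.card,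
      (AdjoinRoot.powerBasis hP0).finrank, AdjoinRoot.powerBasis_dim]
  have hne : Nonempty (AlgebraicClosure ℚ →+* ℂ_[p]) :=
    Pool.Agent.Helper35.RD.nonempty_hom ℚ ℂ_[p]
  have hcK : IsTotallyComplex K₁ := tc_up K K₁
  have hcM : IsTotallyComplex M₁ := tc_up K₁ M₁
  have := hs.sit.gM
  have := hs.sit.st1
  have := hs.sit.st2
  have hord : orderOf δ = m := hs.sit.ord.trans hfr
  have hPX : AdjoinRoot.root P ≠ 1 := by
    intro h
    have h2 := hPhi.cop 1 one_pos hPhi.one_lt (one_dvd _)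
    have h3 : P ∣ X ^ 1 - 1 := by
      rw [← AdjoinRoot.mk_eq_zero, pow_one, map_sub, AdjoinRoot.mk_X, map_one, h, sub_self]
    exact hs.sit.irr.not_isUnit (h2.isUnit_of_dvd' dvd_rfl h3)
  have lob : S_LOB := Pool.Agent.Helper32.RP.s_lob Pool.Agent.Helper90.RP.s_sub
    Pool.Agent.Helper59.RP.s_bin (Pool.Agent.Helper39.RP.s_sig Pool.Agent.Helper95.RP.s_lat)
    Pool.Agent.Helper99.RP.s_prm
  have hp1 : (1 : ℝ) < p := by exact_mod_cast hp.one_lt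
  have hQ1 : (1 : ℝ) < (p : ℝ) ^ P.natDegree := by
    have h := one_lt_pow₀ hp1 hs.sit.irr.natDegree_pos.ne'
    exact h
  have hθ : (0 : ℝ) ≤ (p : ℝ) ^ j / ((p : ℝ) ^ P.natDegree - 1) := by
    have h2 : (0 : ℝ) ≤ (p : ℝ) ^ P.natDegree - 1 := by linarith
    positivity
  have hdn : nUr K M ≤ T.ncard := nUr_le_half K M _ hd
  refine momG L hs.sit _ hθ _ ?_
  intro S₀
  obtain ⟨B₀, hSB₀, ⟨D₀⟩⟩ := Pool.Agent.Helper53.PW.w_exb p K M K₁ M₁ J M₂ ε δ P a₀ hs S₀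
  obtain ⟨B, D, hBS, -, hnrm⟩ := hNRM p K M K₁ M₁ J M₂ ε δ P a₀ hs B₀ D₀
  have hSB : S₀ ⊆ B.S := by rw [hBS]; exact hSB₀
  obtain ⟨Lk, Cs, Mc, g, K₀, hMc, hslow, hH⟩ :=
    hHYP p K M K₁ M₁ J M₂ ε δ P a₀ hs hnt j hsd hj B D hnrm
  refine ⟨B, Spl M₂ B.S, D.s0, g, K₀, hSB, hslow, ?_⟩
  obtain ⟨hSf, hst, hSp, -, -, -, -⟩ := Pool.Agent.Helper16.PP.p_upr p K M B.S
  obtain ⟨s₀, hs₀⟩ := Pool.Agent.Helper90.RP.Dual.dvd_ncard (K := K) m hfr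
    {w ∈ up M B.S | FreeP K w} (hSf.subset fun w hw => hw.1)
    (fun w hw v hv => ⟨hst w hw.1 v hv, free_of_conj hv hw.2⟩)
    (fun w hw => hw.2)
  have hr : B.r ≤ T.ncard + s₀ :=
    rank_leR Pool.Agent.Helper30.PP.p_fun hPhi hord hfr hdn htor B hSf hst hs₀
  intro aτ haτ
  obtain ⟨E⟩ := hEXT p K M K₁ M₁ J M₂ ε δ P a₀ hs L T B aτ haτ
    (T.ncard + s₀) (fun 𝔪₀ v hv =>
      lob p ℂ_[p] hne L K M m s₀ δ ζ Φ P hPhi hord hfr T hTc (up M B.S) 𝔪₀ v hv hs₀)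
  obtain ⟨ψ, K', hHyp, c, X₁, hc, hlow⟩ := hH (T.ncard + s₀) E.toTauF aτ haτ
    (hALN p K M K₁ M₁ J M₂ ε δ P a₀ hs hPX B D _ E.toTauF)
  obtain ⟨Kc, c', X₁', hc', hana⟩ := anhG B E.toTauF (Spl M₂ B.S) D.s0 aτ
    (sysB B E.toTauF (Spl M₂ B.S) D.s0 aτ).Bad ψ g K' (HypW.of_hyp₀ _ hHyp.toHyp₀) K₀ hslow c X₁ hc
    hlow ((p : ℝ) ^ j / ((p : ℝ) ^ P.natDegree - 1)) hθ (mt3w_le hMT hHyp (by
      have h3 : (Fintype.card (Fin B.r → AdjoinRoot P) : ℝ) = ((p : ℝ) ^ P.natDegree) ^ B.r := by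
        rw [Fintype.card_fun, hcard, Fintype.card_fin]
        push_cast
        ring
      have h4 : (Fintype.card (Fin (T.ncard + s₀) → AdjoinRoot P) : ℝ) =
          ((p : ℝ) ^ P.natDegree) ^ (T.ncard + s₀) := by
        rw [Fintype.card_fun, hcard, Fintype.card_fin]
        push_cast
        ring
      have hMc' : (Mc : ℝ) * p ^ j = (p : ℝ) ^ P.natDegree := by
        rw [hcard] at hMc
        exact_mod_cast hMc
      have hQ0 : (0 : ℝ) < (p : ℝ) ^ P.natDegree := by linarith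
      have hMc0 : (0 : ℝ) < Mc := by
        have h5 : (0 : ℝ) < (Mc : ℝ) * p ^ j := by rw [hMc']; exact hQ0
        have h6 : (0 : ℝ) < (p : ℝ) ^ j := by positivity
        exact (pos_iff_pos_of_mul_pos h5).2 h6
      rw [h3, h4, hcard, Nat.cast_pow]
      have h5 : ((p : ℝ) ^ P.natDegree) ^ B.r / ((p : ℝ) ^ P.natDegree) ^ (T.ncard + s₀) ≤ 1 := by
        rw [div_le_one (by positivity)]
        exact pow_le_pow_right₀ hQ1.le hr
      have h6 : (p : ℝ) ^ P.natDegree / (Mc * ((p : ℝ) ^ P.natDegree - 1)) =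
          (p : ℝ) ^ j / ((p : ℝ) ^ P.natDegree - 1) := by
        have h7 : (p : ℝ) ^ P.natDegree - 1 ≠ 0 := by linarith
        rw [div_eq_div_iff (mul_ne_zero hMc0.ne' h7) h7, ← hMc']
        ring
      rw [h6]
      calc _ ≤ 1 * ((p : ℝ) ^ j / ((p : ℝ) ^ P.natDegree - 1)) :=
            mul_le_mul_of_nonneg_right h5 hθ
        _ = _ := one_mul _))
  exact ⟨_, E.toTauF, _, Kc, c', X₁', hc', hana, fun a hcl ha hl =>
    selX_bad hSEL hs T B D aτ haτ _ E a hcl ha hl⟩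

end Pool.Agent.Helper42.WY
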