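import Pool.Agent.Helper42.WY.KER
import Pool.Agent.Helper11.M3.GoalsA

/-!
# Project WY: the bad classes for `χ₀ ≡ ω` and the systems `subS (sysB ..) W`
-/

set_option autoImplicit false
set_option linter.unusedSectionVars false

namespace Pool.Agent.Helper42.WY

open NumberField Polynomial Module IsDedekindDomain
open Pool.Agent.Helper51.RP Pool.Agent.Helper42.RD Pool.Agent.Helper42.PP Pool.Agent.Helper42.PP1
open Pool.Agent.Helper42.PB Pool.Agent.Helper42.PW Pool.Agent.Helper38.WY Pool.Agent.Helper11.PP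
open Pool.Agent.Helper59.PP (hom_prod hom_inv hom_div labs_fin dvd_conj)
open Pool.Agent.Helper79.PP (clp_eq clp_mul)
open Pool.Agent.Helper11.M3 (Piv Bad₄ subS Zt NV)
open Pool.Agent.Helper17.PP (Sys)

section abs

variable {p : ℕ} {B B₀ k U Λ C : Type} [Field k] [AddCommGroup U] [Module k U]
    [AddCommGroup Λ] [Module k Λ] [AddCommGroup C] (S : Sys p B B₀ k U Λ C)

/-- Projection of a solution to a complement `W` of `Z`, `lam₀` and the `res q`, `q` split, vanish on `Z`. -/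
theorem sub_bad [Algebra (ZMod p) k] (W Z : Submodule k U) (hWZ : W ⊔ Z = ⊤)
    (h1 : ∀ x ∈ Z, S.lam₀ x = 0) (h2 : ∀ q, S.spl q → ∀ x ∈ Z, S.res q x = 0) {b : Finset B}
    {x : U} {c : B → k} (h : S.IsSol b x c) (hx : ¬ (x ∈ Z ∧ c = 0)) (N : B → Prop)
    (hN : ∀ P₁, Piv S N b P₁ → c P₁ = 0) : Bad₄ (subS S W) N b := by
  have h3 : x ∈ W ⊔ Z := by rw [hWZ]; trivial
  obtain ⟨w, hw, z, hz, rfl⟩ := Submodule.mem_sup.1 h3
  refine ⟨⟨w, hw⟩, c, ⟨h.supp, ?_, ?_⟩, ?_, ?_⟩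
  · have h4 := h.lam
    rw [map_add, h1 z hz, add_zero] at h4
    exact h4
  · intro q hq hs
    have h4 := h.loc q hq hs
    unfold Sys.R at h4
    rw [map_add, h2 q hs z hz, add_zero] at h4
    exact h4
  · rintro ⟨h4, h5⟩
    have h6 : w = 0 := congrArg Subtype.val h4
    exact hx ⟨by rw [h6, zero_add]; exact hz, h5⟩
  · intro P₁ hP₁
    exact hN P₁ ⟨hP₁.mem, hP₁.isN, hP₁.top⟩

end abs

section main

variable {p : ℕ} [hp : Fact p.Prime] {K M K₁ M₁ J M₂ : Type} [Field K] [NumberField K] [Field M]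
  [NumberField M] [Field K₁] [NumberField K₁] [Field M₁] [NumberField M₁] [Field J]
  [NumberField J] [Field M₂] [NumberField M₂] [Algebra K M] [Algebra K K₁] [Algebra K M₁]
  [Algebra M M₁] [Algebra K₁ M₁] [Algebra K J] [Algebra K M₂] [Algebra M M₂] [Algebra K₁ M₂]
  [Algebra M₁ M₂] [Algebra J M₂] {ε : K₁} {δ : M ≃ₐ[K] M} {P : (ZMod p)[X]} {a₀ : M₂ˣ}

theorem pw2_mul {x y : Mˣ} (hx : Pw2 p M₂ x) (hy : Pw2 p M₂ y) : Pw2 p M₂ (x * y) := by
  obtain ⟨v, hv⟩ := hx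
  obtain ⟨w, hw⟩ := hy
  exact ⟨v * w, by rw [mul_pow, hv, hw, Units.val_mul, map_mul]⟩

theorem pw2_npow {x : Mˣ} (hx : Pw2 p M₂ x) (k : ℕ) : Pw2 p M₂ (x ^ k) := by
  obtain ⟨v, hv⟩ := hx
  exact ⟨v ^ k, by rw [← pow_mul, mul_comm, pow_mul, hv, Units.val_pow_eq_pow_val, map_pow]⟩

theorem pol_npow (x : Mˣ) (k : ℕ) : pol P δ (x ^ k) = pol P δ x ^ k := map_pow _ _ _

theorem pw_mul {x y : Mˣ} (hx : Pw p x) (hy : Pw p y) : Pw p (x * y) := by
  obtain ⟨v, rfl⟩ := hx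
  obtain ⟨w, rfl⟩ := hy
  exact ⟨v * w, by rw [mul_pow]⟩

theorem pw_npow {x : Mˣ} (hx : Pw p x) (k : ℕ) : Pw p (x ^ k) := by
  obtain ⟨v, rfl⟩ := hx
  exact ⟨v ^ k, by rw [← pow_mul, ← pow_mul, mul_comm]⟩

/-- The elements of `Zt`. -/
theorem zt_mem {i : ℕ} [Fact (Irreducible (X - C (i : ZMod p)))]
    (B : Base p K M K₁ M₁ ε δ (X - C (i : ZMod p)))
    {x : Fin B.r → AdjoinRoot (X - C (i : ZMod p))} (hx : x ∈ Zt B M₂) :
    ∃ b : Mˣ, Pw p (pol (X - C (i : ZMod p)) δ b) ∧ Pw2 p M₂ b ∧ ∀ l, B.rho l b = x l := by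
  refine Submodule.span_induction (p := fun x _ => ∃ b : Mˣ,
    Pw p (pol (X - C (i : ZMod p)) δ b) ∧ Pw2 p M₂ b ∧ ∀ l, B.rho l b = x l) ?_ ?_ ?_ ?_ hx
  · rintro x ⟨y, -, h1, h2, h3⟩
    exact ⟨y, h1, h2, h3⟩
  · refine ⟨1, ⟨1, by rw [map_one, one_pow]⟩, ⟨1, by rw [one_pow, Units.val_one, map_one]⟩,
      fun l => ?_⟩
    have h3 := (B.rhoP l).1 1 1
    rw [mul_one, left_eq_add] at h3
    exact h3
  · rintro x y - - ⟨a, a1, a2, a3⟩ ⟨b, b1, b2, b3⟩
    refine ⟨a * b, ?_, pw2_mul a2 b2, fun l => ?_⟩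
    · rw [map_mul]
      exact pw_mul a1 b1
    · rw [(B.rhoP l).1, a3, b3]
      rfl
  · rintro t x - ⟨a, a1, a2, a3⟩
    obtain ⟨c, rfl⟩ := adj_lin i t
    refine ⟨a ^ c.val, ?_, pw2_npow a2 _, fun l => ?_⟩
    · rw [pol_npow]
      exact pw_npow a1 _
    · rw [hom_npow (B.rhoP l).1, a3]
      have h6 : (((c.val : ℕ)) : AdjoinRoot (X - C (i : ZMod p))) =
          algebraMap (ZMod p) _ c := by
        rw [← map_natCast (algebraMap (ZMod p) (AdjoinRoot (X - C (i : ZMod p)))),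
          ZMod.natCast_zmod_val]
      rw [h6]
      rfl

/-- `lam₀` and the `res q` vanish on `Zt`. -/
theorem zt_lam (hGRP : N_GRP) (hSGB : Y_SGB) {i : ℕ} [Fact (Irreducible (X - C (i : ZMod p)))]
    (hB : SitB p K M K₁ M₁ J M₂ ε δ (X - C (i : ZMod p)) a₀)
    (B : Base p K M K₁ M₁ ε δ (X - C (i : ZMod p)))
    (D : BaseB B a₀) (T : Set (K →+* ℂ_[p])) (aτ : K₁ˣ) {n : ℕ} (E : TauX n B a₀ T aτ)
    (x : Fin B.r → AdjoinRoot (X - C (i : ZMod p))) (hx : x ∈ Zt B M₂) :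
    (sysB B E.toTauF (Spl M₂ B.S) D.s0 aτ).lam₀ x = 0 := by
  obtain ⟨b, b1, b2, b3⟩ := zt_mem B hx
  have h := lam_pw2 hGRP hSGB hB B D T aτ E b1 b2
  have h1 : x = fun l => B.rho l b := funext fun l => (b3 l).symm
  rw [h1]
  exact h (Submodule.mem_span_singleton_self _)

theorem zt_res {i : ℕ} [Fact (Irreducible (X - C (i : ZMod p)))]
    (hB : SitB p K M K₁ M₁ J M₂ ε δ (X - C (i : ZMod p)) a₀)
    (B : Base p K M K₁ M₁ ε δ (X - C (i : ZMod p)))
    (D : BaseB B a₀) (aτ : K₁ˣ) {n : ℕ} (E : TauF n B) (q : B.LP)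
    (hq : (sysB B E (Spl M₂ B.S) D.s0 aτ).spl q)
    (x : Fin B.r → AdjoinRoot (X - C (i : ZMod p))) (hx : x ∈ Zt B M₂) :
    (sysB B E (Spl M₂ B.S) D.s0 aτ).res q x = 0 := by
  obtain ⟨b, b1, b2, b3⟩ := zt_mem B hx
  have h := res_pw2 hB B D aτ E b1 b2 q hq
  have h1 : x = fun l => B.rho l b := funext fun l => (b3 l).symm
  rw [h1]
  exact h (Submodule.mem_span_singleton_self _)

/-- `M → M₂` is surjective if `M → M₁` is surjective and `J = K`. -/
theorem surj_M₂ (hB : SitB p K M K₁ M₁ J M₂ ε δ P a₀)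
    (hM₁ : ∀ z : M₁, ∃ y : M, algebraMap M M₁ y = z) (hJ : finrank K J = 1) :
    ∀ z : M₂, ∃ y : M, algebraMap M M₂ y = z := by
  have := hB.gJ
  have := hB.gM₂
  have := hB.t1
  have := hB.t2
  have hG : IsGalois M₁ M₂ := IsGalois.tower_top_of_isGalois K M₁ M₂
  have h2 : ∀ σ : M₂ ≃ₐ[M₁] M₂, σ = 1 := by
    intro σ
    have := hB.t4
    have h3 : AlgEquiv.restrictNormal (σ.restrictScalars K) J = 1 := by
      have h4 : Nat.card (J ≃ₐ[K] J) = 1 := by rw [IsGalois.card_aut_eq_finrank, hJ]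
      exact @Subsingleton.elim _ (Nat.card_eq_one_iff_unique.1 h4).1 _ _
    have h5 : σ.restrictScalars K = 1 := by
      apply hB.lin₂ _ (fun x => σ.commutes x)
      intro x
      have h6 := AlgEquiv.restrictNormal_commutes (σ.restrictScalars K) J x
      rw [h3] at h6
      exact h6.symm
    apply AlgEquiv.ext
    intro x
    exact congrArg (fun τ : M₂ ≃ₐ[K] M₂ => τ x) h5
  intro z
  have h5 := (IsGalois.mem_bot_iff_fixed (F := M₁) (E := M₂) z).2 (fun σ => by rw [h2 σ]; rfl)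
  obtain ⟨y, hy⟩ := IntermediateField.mem_bot.1 h5
  obtain ⟨x, rfl⟩ := hM₁ y
  exact ⟨x, by rw [IsScalarTower.algebraMap_apply M M₁ M₂]; exact hy⟩

/-- **BdO gives Bad₄** for `subS (sysB ..) W`. -/
theorem selO (hGRP : N_GRP) (hCHG : N_CHG) (hSGB : Y_SGB) (hPWA : Y_PWA) (hTri : O_TRI)
    (hp2 : p ≠ 2) {i : ℕ} [Fact (Irreducible (X - C (i : ZMod p)))]
    (hB : SitB p K M K₁ M₁ J M₂ ε δ (X - C (i : ZMod p)) a₀)
    (hε : ∃ ε₀ : M, algebraMap M M₂ ε₀ = algebraMap K₁ M₂ ε ∧ δ ε₀ = ε₀ ^ i)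
    (hM₁ : ∀ z : M₁, ∃ y : M, algebraMap M M₁ y = z) (T : Set (K →+* ℂ_[p]))
    (B : Base p K M K₁ M₁ ε δ (X - C (i : ZMod p))) (D : BaseB B a₀)
    (aτ : K₁ˣ) {n : ℕ} (E : TauX n B a₀ T aτ)
    (W : Submodule (AdjoinRoot (X - C (i : ZMod p))) (Fin B.r → AdjoinRoot (X - C (i : ZMod p))))
    (hW : W ⊔ Zt B M₂ = ⊤)
    (a : K₁ˣ) (hcl : clp p a ∈ BdO T (X - C (i : ZMod p)) δ ε a₀)
    (ha : OmType p K ε (a : K₁)) (hloc : LocS p (up K₁ B.S) (a / aτ)) :
    Bad₄ (subS (sysB B E.toTauF (Spl M₂ B.S) D.s0 aτ) W) (NV B J M₂) (B.lab a) := by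
  have hp0 : p ≠ 0 := hp.out.ne_zero
  have hs := hB.sit
  by_cases hJ : finrank K J = 1
  · -- `J = K`
    have hsurj := surj_M₂ hB hM₁ hJ
    obtain ⟨x, c, h1, h2, h3⟩ := selO_a hGRP hCHG hSGB hPWA hTri hp2 hB hε hsurj T B D aτ E a hcl
      ha hloc (NV B J M₂)
    refine sub_bad _ W (Zt B M₂) hW (fun x hx => zt_lam hGRP hSGB hB B D T aτ E x hx)
      (fun q hq x hx => zt_res hB B D aτ E.toTauF q hq x hx) h1 ?_ _ h3
    rintro ⟨h4, h5⟩
    refine h2 ⟨?_, h5⟩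
    obtain ⟨b, b1, ⟨w, hw⟩, b3⟩ := zt_mem B h4
    obtain ⟨y, rfl⟩ := hsurj w
    have hy0 : y ≠ 0 := by
      rintro rfl
      rw [map_zero, zero_pow hp0] at hw
      exact b.ne_zero ((map_eq_zero_iff _ (algebraMap M M₂).injective).1 hw.symm)
    have hb : Pw p b := by
      refine ⟨Units.mk0 y hy0, ?_⟩
      ext
      apply (algebraMap M M₂).injective
      rw [Units.val_pow_eq_pow_val, Units.val_mk0, map_pow, hw]
    funext l
    rw [← b3 l]
    exact ((Pool.Agent.Helper30.PP.p_fun p K M (finrank K M) δ _ finrank_pos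
      hs.copm (by rw [← hs.ord]; exact pow_orderOf_eq_one δ) hs.irr hs.dvdP).1 _ (B.rhoP l)).2
      b hb
  · -- `J ≠ K`
    obtain ⟨y, a₁, haa, hsel, hy⟩ := hcl
    obtain ⟨z, hz⟩ := clp_eq.1 haa.symm
    have h3 : OmType p K ε (a₁ : K₁) := by rw [hz]; exact om_mul_pow ha z
    have h4 : LocS p (up K₁ B.S) (a₁ / aτ) := by
      have h3 := (Pool.Agent.Helper15.PP.gZ p _).mul_mem (Pool.Agent.Helper15.PP.mem_gZ.2 hloc)
        (Pool.Agent.Helper15.PP.mem_gZ.2 (locS_pow (p := p) (Z := up K₁ B.S) z))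
      have h4 : a₁ / aτ = a / aτ * z ^ p := by rw [hz, mul_div_right_comm]
      rw [h4]
      exact Pool.Agent.Helper15.PP.mem_gZ.1 h3
    have hny : ¬ Pw2 p M₂ y := fun ⟨w, hw⟩ => hy 0 ⟨w, by rw [pow_zero, mul_one]; exact hw⟩
    have hlab : B.lab a = B.lab a₁ := by rw [hz, lab_mul_pow]
    rw [hlab]
    obtain ⟨hsol, -⟩ := selX_sol hGRP hCHG hSGB hPWA hB T B D aτ E a₁ h3 h4 y hsel
    refine sub_bad _ W (Zt B M₂) hW (fun x hx => zt_lam hGRP hSGB hB B D T aτ E x hx)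
      (fun q hq x hx => zt_res hB B D aτ E.toTauF q hq x hx) hsol ?_ _ ?_
    · rintro ⟨h5, h6⟩
      obtain ⟨b, b1, b2, b3⟩ := zt_mem B h5
      -- `y b^(p-1)` has trivial coordinates
      have hε₂ : IsPrimitiveRoot (algebraMap K₁ M₂ ε) p :=
        hs.prim.map_of_injective (algebraMap K₁ M₂).injective
      have hα : (a₀ : M₂) * algebraMap K₁ M₂ (a₁ : K₁) ≠ 0 :=
        mul_ne_zero a₀.ne_zero ((_root_.map_ne_zero _).2 a₁.ne_zero)
      have b1' : Pw p (pol (X - C (i : ZMod p)) δ (b ^ (p - 1))) := by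
        rw [pol_npow]; exact pw_npow b1 _
      have b2' : Pw2 p M₂ (b ^ (p - 1)) := pw2_npow b2 _
      have hselb := selX_pw2 (T' := (above T : Set (M₂ →+* ℂ_[p]))) hGRP hSGB hε₂ hα b1' b2'
      have hsel' := selX_mul hGRP hSGB hε₂ hα hsel hselb
      obtain ⟨-, h7⟩ := selX_sol hGRP hCHG hSGB hPWA hB T B D aτ E a₁ h3 h4 _ hsel'
      have hnp : ¬ Pw p (y * b ^ (p - 1)) := by
        rintro ⟨z, hz⟩
        have h8 : y = z ^ p * b * (b⁻¹) ^ p := by
          rw [← hz]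
          obtain ⟨q, hq⟩ : ∃ q, p = q + 1 := ⟨p - 1, by have := hp.out.pos; omega⟩
          rw [hq, Nat.add_sub_cancel, inv_pow, pow_succ b q]
          group
        apply hny
        rw [h8]
        refine pw2_mul (pw2_mul ⟨algebraMap M M₂ (z : M), ?_⟩ b2)
          ⟨algebraMap M M₂ ((b⁻¹ : Mˣ) : M), ?_⟩
        · rw [Units.val_pow_eq_pow_val, map_pow]
        · rw [Units.val_pow_eq_pow_val, map_pow]
      refine (h7.resolve_right hnp) ⟨?_, ?_⟩
      · funext l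
        show B.rho l (y * b ^ (p - 1)) = 0
        have h9 : B.rho l b = B.rho l y := b3 l
        rw [(B.rhoP l).1, hom_npow (B.rhoP l).1, h9]
        have h10 : ((p - 1 : ℕ) : AdjoinRoot (X - C (i : ZMod p))) = -1 := by
          have : ((p - 1 : ℕ) : AdjoinRoot (X - C (i : ZMod p))) =
              algebraMap (ZMod p) _ ((p - 1 : ℕ) : ZMod p) :=
            (map_natCast (algebraMap (ZMod p) (AdjoinRoot (X - C (i : ZMod p)))) (p - 1)).symm
          rw [this, Nat.cast_sub hp.out.one_lt.le, Nat.cast_one, ZMod.natCast_self, zero_sub,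
            map_neg, map_one]
        rw [h10]
        ring
      · funext q
        show ccB B (Spl M₂ B.S) a₁ (y * b ^ (p - 1)) q = 0
        unfold ccB
        split_ifs with hq
        · have hhom : Hom (ordp p (B.w q.1.1)) := by
            intro a b
            show ((ordv (B.w q.1.1) ((a : M) * (b : M)) : ℤ) : ZMod p) = _
            rw [Pool.Agent.Helper90.RP.Dual.ordv_mul _ a.ne_zero b.ne_zero]
            push_cast
            rfl
          have hH : Hom (B.nv q.1.1) := ((Pool.Agent.Helper30.PP.p_fun p K M (finrank K M) δ _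
            finrank_pos hs.copm (by rw [← hs.ord]; exact pow_orderOf_eq_one δ) hs.irr
            hs.dvdP).2 _ hhom).1.1
          have h8 := congrFun h6 q
          have h9 : ccB B (Spl M₂ B.S) a₁ y q = B.nv q.1.1 y := if_pos hq
          have h10 : B.nv q.1.1 y = 0 := h9.symm.trans h8
          rw [hH, h10, nv_pw2 hB B D b2' hq.2, add_zero]
        · rfl
    · intro P₁ hP₁
      by_contra hc
      have h5 := (hsol.supp P₁ hc).2
      rcases hP₁.isN with h6 | h6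
      · exact hJ h6
      · exact h6 h5

end main

end Pool.Agent.Helper42.WY
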