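import Pool.Agent.Helper42.WY.SELO4
import Pool.Agent.Helper62.PP.PDEC

/-!
# Project M3: A_ZTO, A_ZT1
-/

set_option autoImplicit false
set_option linter.unusedSectionVars false

namespace Pool.Agent.Helper42.WY

open NumberField Polynomial Module IsDedekindDomain
open Pool.Agent.Helper51.RP Pool.Agent.Helper42.RD Pool.Agent.Helper42.PP Pool.Agent.Helper42.PP1
open Pool.Agent.Helper42.PB Pool.Agent.Helper42.PW Pool.Agent.Helper38.WY Pool.Agent.Helper11.PP
open Pool.Agent.Helper11.M3 (subS Zt ZK OmS A_ZTO A_ZT1)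

/-- **A_ZTO**. -/
theorem a_zto : A_ZTO := by
  intro p hp K M K₁ M₁ J M₂ _ _ _ _ _ _ _ _ _ _ _ _ _ _ _ _ _ _ _ _ _ _ _ ε δ P hirr a₀ hB B D
    n E aτ hZK x hx
  have hs := hB.sit
  have key : ∀ y : Mˣ, Pw p (pol P δ y) → Pw2 p M₂ y → ∀ z : Fin B.r → AdjoinRoot P,
      (∀ i, B.rho i y = z i) → (sysB B E (Spl M₂ B.S) D.s0 aτ).lam₀ z = 0 ∧
      ∀ q : B.LP, q.1.1 ∈ Spl M₂ B.S → (sysB B E (Spl M₂ B.S) D.s0 aτ).res q z = 0 := by
    intro y h1 h2 z h3
    obtain rfl : z = fun i => B.rho i y := funext fun i => (h3 i).symm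
    constructor
    · funext j
      rw [sysB_lam0, dec_pw2 hB B D h1 h2 (E.h j) (E.hP j)]
      exact hZK y h1 h2 j
    · intro q hq
      have h := res_pw2 hB B D aτ E h1 h2 q hq
      exact h (Submodule.mem_span_singleton_self _)
  have h1 : Zt B M₂ ≤ LinearMap.ker (sysB B E (Spl M₂ B.S) D.s0 aτ).lam₀ := by
    unfold Zt
    rw [Submodule.span_le]
    rintro z ⟨y, -, h1, h2, h3⟩
    exact (key y h1 h2 z h3).1
  refine ⟨h1 hx, fun q hq => ?_⟩
  have h2 : Zt B M₂ ≤ LinearMap.ker ((sysB B E (Spl M₂ B.S) D.s0 aτ).res q) := by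
    unfold Zt
    rw [Submodule.span_le]
    rintro z ⟨y, -, h1, h2, h3⟩
    exact (key y h1 h2 z h3).2 q hq
  exact h2 hx

/-- **A_ZT1**. -/
theorem a_zt1 : A_ZT1 := by
  intro p hp K M K₁ M₁ J M₂ _ _ _ _ _ _ _ _ _ _ _ _ _ _ _ _ _ _ _ _ _ _ _ ε δ P hirr a₀ hB hom
    B D hJ hZ
  have hpp : p.Prime := hp.out
  have hp0 : p ≠ 0 := hpp.ne_zero
  have : NeZero p := ⟨hp0⟩
  have hs := hB.sit
  have := hs.gM
  have := hs.gK
  have := hs.gMK
  have := hs.st1
  have := hs.st2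
  have := hB.gM₂
  have := hB.t1
  have := hB.t2
  have := hB.t3
  have := hB.t4
  have := tow_M hB
  have := tow_K hB
  obtain ⟨ε₀, he⟩ := hom.eps
  have hG : IsGalois M M₁ := IsGalois.tower_top_of_isGalois K M M₁
  -- `M → M₁` is surjective
  have hM₁ : ∀ z : M₁, ∃ y : M, algebraMap M M₁ y = z := by
    intro z
    have h2 : ∀ σ : M₁ ≃ₐ[M] M₁, σ = 1 := by
      intro σ
      have h3 : σ.restrictScalars K = 1 := hom.gen _ (by
        rw [← he]
        exact σ.commutes ε₀)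
      ext x
      exact DFunLike.congr_fun h3 x
    have h5 := (IsGalois.mem_bot_iff_fixed (F := M) (E := M₁) z).2 (fun σ => by rw [h2 σ]; rfl)
    obtain ⟨y, hy⟩ := IntermediateField.mem_bot.1 h5
    exact ⟨y, hy⟩
  -- `M → M₂` is not surjective
  have hns : ¬ ∀ z : M₂, ∃ y : M, algebraMap M M₂ y = z := by
    intro h
    have h1 : finrank M M₂ = 1 := by
      have h2 : (⊥ : IntermediateField M M₂) = ⊤ := by
        rw [eq_top_iff]
        intro z _
        obtain ⟨y, rfl⟩ := h z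
        exact IntermediateField.algebraMap_mem _ y
      have h3 : finrank M (⊥ : IntermediateField M M₂) = 1 := IntermediateField.finrank_bot
      rw [h2, IntermediateField.finrank_top'] at h3
      exact h3
    obtain ⟨l, hl⟩ := hB.degJ
    have hl0 : l ≠ 0 := by
      rintro rfl
      exact hJ (by rw [hl, pow_zero])
    have h2 : finrank K M * finrank M M₂ = finrank K M₂ := finrank_mul_finrank K M M₂
    have h3 : finrank K J * finrank J M₂ = finrank K M₂ := finrank_mul_finrank K J M₂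
    have h4 : p ∣ finrank K M := by
      rw [h1, mul_one] at h2
      rw [h2, ← h3, hl]
      exact (dvd_pow_self p hl0).mul_right _
    have h5 := hs.copm
    have h6 := Nat.dvd_gcd h4 (dvd_refl p)
    rw [h5] at h6
    exact hpp.one_lt.ne' (Nat.dvd_one.1 h6)
  have hε₁ : IsPrimitiveRoot (algebraMap M M₁ ε₀) p := by
    rw [he]
    exact hs.prim.map_of_injective (algebraMap K₁ M₁).injective
  have hε₀ : IsPrimitiveRoot ε₀ p := hε₁.of_map_of_injective (algebraMap M M₁).injective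
  obtain ⟨i, -, hi⟩ := hε₀.eq_pow_of_pow_eq_one (show (δ ε₀) ^ p = 1 by
    rw [← map_pow, hε₀.pow_eq_one, map_one])
  have he2 : algebraMap M M₂ ε₀ = algebraMap K₁ M₂ ε := by
    rw [IsScalarTower.algebraMap_apply M M₁ M₂, he, ← IsScalarTower.algebraMap_apply K₁ M₁ M₂]
  obtain ⟨⟨b, hb1, hb2, -⟩, htyp⟩ := ker_ex hB hM₁ hns ⟨ε₀, he2, hi.symm⟩
  have hbt := htyp b hb2
  -- the root of `P`
  have hroot : AdjoinRoot.root P = algebraMap (ZMod p) (AdjoinRoot P) (i : ZMod p) := by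
    set g : M₁ ≃ₐ[K] M₁ := AlgEquiv.liftNormal δ M₁ with hg
    have hgM : ∀ y : M, g (algebraMap M M₁ y) = algebraMap M M₁ (δ y) := fun y =>
      AlgEquiv.liftNormal_commutes δ M₁ y
    have hgK : ∀ y : K₁, g (algebraMap K₁ M₁ y) =
        algebraMap K₁ M₁ (AlgEquiv.restrictNormalHom K₁ g y) := fun y =>
      (AlgEquiv.restrictNormal_commutes g K₁ y).symm
    have h1 := hom.rel g 1 (AlgEquiv.restrictNormalHom K₁ g)
      (fun y => by rw [pow_one]; exact hgM y) hgK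
    rw [pow_one] at h1
    rw [h1, Pool.Agent.Helper22.PP.nsig_eq hs.prim (n := i)]
    apply (algebraMap K₁ M₁).injective
    rw [← hgK, ← he, hgM, ← hi, map_pow, he, map_pow]
  -- `P = u (X - i)`
  have hP : ∃ u : ZMod p, P = C u * (X - C (i : ZMod p)) := by
    have h1 : P ∣ X - C (i : ZMod p) := by
      rw [← AdjoinRoot.mk_eq_zero, map_sub, AdjoinRoot.mk_X, AdjoinRoot.mk_C, hroot]
      exact sub_self _
    obtain ⟨c, hc⟩ := h1
    have hc0 : c ≠ 0 := by
      rintro rfl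
      rw [mul_zero] at hc
      exact X_sub_C_ne_zero _ hc
    have h2 := congrArg natDegree hc
    rw [natDegree_X_sub_C, natDegree_mul hs.irr.ne_zero hc0, hom.deg] at h2
    have h3 : c.natDegree = 0 := by omega
    obtain ⟨v, hv⟩ := natDegree_eq_zero.1 h3
    have hv0 : v ≠ 0 := by
      rintro rfl
      rw [C_0] at hv
      exact hc0 hv.symm
    refine ⟨v⁻¹, ?_⟩
    rw [hc, ← hv, mul_comm P, ← mul_assoc, ← C_mul, inv_mul_cancel₀ hv0, C_1, one_mul]
  obtain ⟨u, hu⟩ := hP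
  have hbP : Pw p (pol P δ b) := by
    obtain ⟨y, hy⟩ := Pool.Agent.Helper96.WY.act_congr (p := p) δ
      (Pool.Agent.Helper77.RL.lift P)
      (C (u.val : ℤ) * Pool.Agent.Helper77.RL.lift (X - C (i : ZMod p))) (by
        rw [Pool.Agent.Helper77.RL.lift_map, Polynomial.map_mul,
          Pool.Agent.Helper77.RL.lift_map, map_C, hu]
        simp) b
    rw [← Pool.Agent.Helper77.RL.act_lift, hy, Pool.Agent.Helper77.RL.act_mul,
      Pool.Agent.Helper77.RL.act_C, Pool.Agent.Helper77.RL.act_lift, zpow_natCast]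
    exact pw_mul (pw_npow hbt _) ⟨y, rfl⟩
  -- an `S`-unit
  obtain ⟨z, hz⟩ := Pool.Agent.Helper62.PP.exists_unit B b (val_pw2 hB B D hb2)
  have hy1 : Pw p (pol P δ (b / z ^ p)) := by
    obtain ⟨w, hw⟩ := hbP
    refine ⟨w / pol P δ z, ?_⟩
    rw [_root_.map_div, hw, map_pow, div_pow]
  have hy2 : Pw2 p M₂ (b / z ^ p) := by
    obtain ⟨w, hw⟩ := hb2
    refine ⟨w / algebraMap M M₂ (z : M), ?_⟩
    rw [div_pow, hw, Units.val_div_eq_div_val, map_div₀, Units.val_pow_eq_pow_val, map_pow]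
  have hmem : (fun i => B.rho i (b / z ^ p)) ∈ Zt B M₂ :=
    Submodule.subset_span ⟨_, hz, hy1, hy2, fun _ => rfl⟩
  rw [hZ, Submodule.mem_bot] at hmem
  have h3 := B.rho0 _ hz hy1 (fun i => congrFun hmem i)
  apply hb1
  obtain ⟨t, ht⟩ := h3
  exact ⟨t * z, by rw [mul_pow, ← ht, div_mul_cancel]⟩

end Pool.Agent.Helper42.WY
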