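import Pool.Agent.Helper42.WY.MOM3
import Pool.Agent.Helper42.WY.SELO4
import Pool.Agent.Helper42.WY.EX1
import Pool.Agent.Helper94.PP1.RNK
import Pool.Agent.Helper88.LE.SUN

/-!
# Project WY: the moment theorem for `χ₀ ≡ ω`
-/

set_option autoImplicit false

namespace Pool.Agent.Helper42.WY

open NumberField Polynomial Module IsDedekindDomain
open Pool.Agent.Helper51.RP Pool.Agent.Helper42.RD Pool.Agent.Helper42.PP Pool.Agent.Helper42.PP1
open Pool.Agent.Helper51.SigLeo Pool.Agent.Helper11.LE Pool.Agent.Helper11.PP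
open Pool.Agent.Helper17.PP (Sys)
open Pool.Agent.Helper42.PB Pool.Agent.Helper76.PB Pool.Agent.Helper42.PW Pool.Agent.Helper38.WY
open Pool.Agent.Helper11.PB (tc_up)
open Pool.Agent.Helper38.ND
open Pool.Agent.Helper11.M3 (HypW Hyp₄ MT₄W Bad₄ A_HYP4 A_NRM A_ZT1 A_OMS Nrml OmS subS Zt ZK NV YG
  eL)
open Pool.Agent.Helper94.PP1 (rank1)

theorem hypW_sub {p : ℕ} {B B₀ k U Λ C : Type} [Field k] [Fintype k] [Algebra (ZMod p) k]
    [AddCommGroup U] [Module k U] [AddCommGroup Λ] [Module k Λ] [AddCommGroup C]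
    {S : Sys p B B₀ k U Λ C} {W : Submodule k U} {ψ : AddChar k ℂ} {g : ℝ → ℝ} {K : ℕ}
    (h : HypW (subS S W) ψ g K) : HypW S ψ g K where
  one_le := h.one_le
  ψ_ne := h.ψ_ne
  che := h.che
  g_one := h.g_one
  g_mono := h.g_mono
  ht := h.ht
  mers := h.mers

/-- The functionals of a `TauX` kill the elements of type `P` which are `p`-th powers in `M₂`. -/
theorem zk_tau (hGRP : N_GRP) (hSGB : Y_SGB) {p : ℕ} [Fact p.Prime]
    {K M K₁ M₁ J M₂ : Type} [Field K] [NumberField K] [Field M]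
    [NumberField M] [Field K₁] [NumberField K₁] [Field M₁] [NumberField M₁] [Field J]
    [NumberField J] [Field M₂] [NumberField M₂] [Algebra K M] [Algebra K K₁] [Algebra K M₁]
    [Algebra M M₁] [Algebra K₁ M₁] [Algebra K J] [Algebra K M₂] [Algebra M M₂] [Algebra K₁ M₂]
    [Algebra M₁ M₂] [Algebra J M₂] {ε : K₁} {δ : M ≃ₐ[K] M} {P : (ZMod p)[X]} {a₀ : M₂ˣ}
    (hs : SitB p K M K₁ M₁ J M₂ ε δ P a₀) {T : Set (K →+* ℂ_[p])} {B : Base p K M K₁ M₁ ε δ P}
    {aτ : K₁ˣ} {n : ℕ} (E : TauX n B a₀ T aτ) : ZK E.toTauF M₂ := by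
  intro y h1 h2 j
  have hε₂ : IsPrimitiveRoot (algebraMap K₁ M₂ ε) p :=
    hs.sit.prim.map_of_injective (algebraMap K₁ M₂).injective
  have hα : (a₀ : M₂) * algebraMap K₁ M₂ (aτ : K₁) ≠ 0 :=
    mul_ne_zero a₀.ne_zero ((_root_.map_ne_zero _).2 aτ.ne_zero)
  have h := selX_pw2 (T' := (above T : Set (M₂ →+* ℂ_[p]))) hGRP hSGB hε₂ hα h1 h2
  exact E.hS j y h1 (fun W _ => h.loc W) h.sig

/-- The moment theorem for `χ₀ ≡ ω`, from the rank and the number of the local conditions. -/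
theorem mom4_core (hGRP : N_GRP) (hCHG : N_CHG) (hSGB : Y_SGB) (hPWA : Y_PWA) (hTri : O_TRI)
    (hMT : MT₄W) (hNRM : A_NRM) (hZT1 : A_ZT1) (hHYP : A_HYP4)
    {p : ℕ} [hpF : Fact p.Prime] (hp2 : p ≠ 2) (L : IwasawaLog p ℂ_[p])
    {K M K₁ M₁ J M₂ : Type} [Field K] [NumberField K] [Field M]
    [NumberField M] [Field K₁] [NumberField K₁] [IsTotallyComplex K₁] [Field M₁] [NumberField M₁]
    [IsTotallyComplex M₁] [Field J]
    [NumberField J] [Field M₂] [NumberField M₂] [Algebra K M] [Algebra K K₁] [Algebra K M₁]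
    [Algebra M M₁] [Algebra K₁ M₁] [Algebra K J] [Algebra K M₂] [Algebra M M₂] [Algebra K₁ M₂]
    [Algebra M₁ M₂] [Algebra J M₂] {ε : K₁} {δ : M ≃ₐ[K] M} {P : (ZMod p)[X]} {i : ℕ} {a₀ : M₂ˣ}
    (hP : P = X - C (i : ZMod p)) (hs : SitB p K M K₁ M₁ J M₂ ε δ P a₀)
    (hε : ∃ ε₀ : M, algebraMap M M₂ ε₀ = algebraMap K₁ M₂ ε ∧ δ ε₀ = ε₀ ^ i)
    (hM₁ : ∀ z : M₁, ∃ y : M, algebraMap M M₁ y = z) (hom : OmS p M₁ ε δ P)
    (T : Set (K →+* ℂ_[p]))
    (hext : ∀ (B : Base p K M K₁ M₁ ε δ P) (_ : BaseB B a₀), ∃ n : ℕ,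
      (∀ aτ : K₁ˣ, OmType p K ε (aτ : K₁) → ∃ E : TauX n B a₀ T aτ, NrmInd E.toTauF M₂) ∧
      B.r ≤ n + 1 ∧ (finrank K J = 1 → AdjoinRoot.root P = 1 → B.r ≤ n)) :
    MomA p K ε (BdO T P δ ε a₀) (1 / ((p : ℝ) - 1)) := by
  classical
  subst hP
  have hp : p.Prime := hpF.out
  have hirr : Fact (Irreducible (X - C (i : ZMod p))) := ⟨hs.sit.irr⟩
  have hP0 : (X - C (i : ZMod p)) ≠ 0 := hs.sit.irr.ne_zero
  have hfinA : Module.Finite (ZMod p) (AdjoinRoot (X - C (i : ZMod p))) :=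
    (AdjoinRoot.powerBasis hP0).finite
  have hfA : Finite (AdjoinRoot (X - C (i : ZMod p))) := Module.finite_of_finite (ZMod p)
  let instA : Fintype (AdjoinRoot (X - C (i : ZMod p))) := Fintype.ofFinite _
  have hcard : Fintype.card (AdjoinRoot (X - C (i : ZMod p))) = p := by
    rw [Module.card_eq_pow_finrank (K := ZMod p) (V := AdjoinRoot (X - C (i : ZMod p))),
      ZMod.card, (AdjoinRoot.powerBasis hP0).finrank, AdjoinRoot.powerBasis_dim,
      natDegree_X_sub_C, pow_one]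
  have hp1 : (1 : ℝ) < p := by exact_mod_cast hp.one_lt
  have hp0 : (0 : ℝ) < p := by linarith
  have hpp : (0 : ℝ) < (p : ℝ) - 1 := by linarith
  have hθ : (0 : ℝ) ≤ 1 / ((p : ℝ) - 1) := by positivity
  refine momG L hs.sit _ hθ _ ?_
  intro S₀
  obtain ⟨B₀, hSB₀, ⟨D₀⟩⟩ := Pool.Agent.Helper53.PW.w_exb p K M K₁ M₁ J M₂ ε δ _ a₀ hs S₀
  obtain ⟨B, D, hBS, -, hnrm⟩ := hNRM p K M K₁ M₁ J M₂ ε δ _ a₀ hs B₀ D₀
  have hSB : S₀ ⊆ B.S := by rw [hBS]; exact hSB₀
  obtain ⟨g, K₀, hslow, hH⟩ := hHYP p K M K₁ M₁ J M₂ ε δ _ a₀ hs hom B D hnrm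
  refine ⟨B, Spl M₂ B.S, D.s0, g, K₀, hSB, hslow, ?_⟩
  obtain ⟨n, hE, hr1, hr2⟩ := hext B D
  intro aτ haτ
  obtain ⟨E, hEN⟩ := hE aτ haτ
  obtain ⟨W, hW⟩ := exists_isCompl (Zt B M₂)
  have hW' : IsCompl W (Zt B M₂) := hW.symm
  obtain ⟨ψ, K', hHyp, c, X₁, hc, hlow⟩ := hH n E.toTauF aτ haτ hEN (zk_tau hGRP hSGB hs E) W hW'
  let instW : Fintype W := Fintype.ofFinite _
  obtain ⟨Kc, c', X₁', hc', hana⟩ := anhG B E.toTauF (Spl M₂ B.S) D.s0 aτ
    (Bad₄ (subS (sysB B E.toTauF (Spl M₂ B.S) D.s0 aτ) W) (NV B J M₂)) ψ g K'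
    (hypW_sub hHyp.toHypW) K₀ hslow c X₁ hc hlow (1 / ((p : ℝ) - 1)) hθ (mt4w_le hMT hHyp (by
      have hcW : (Fintype.card W : ℝ) =
          (p : ℝ) ^ finrank (AdjoinRoot (X - C (i : ZMod p))) W := by
        rw [Module.card_eq_pow_finrank (K := AdjoinRoot (X - C (i : ZMod p))) (V := W), hcard,
          Nat.cast_pow]
      have h4 : (Fintype.card (Fin n → AdjoinRoot (X - C (i : ZMod p))) : ℝ) = (p : ℝ) ^ n := by
        rw [Fintype.card_fun, hcard, Fintype.card_fin, Nat.cast_pow]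
      have hrk := Submodule.finrank_add_eq_of_isCompl hW'
      rw [Module.finrank_fin_fun] at hrk
      rw [hcW, h4, hcard]
      by_cases hJ : finrank K J = 1
      · by_cases hroot : AdjoinRoot.root (X - C (i : ZMod p)) = 1
        · have hY : YG (X - C (i : ZMod p)) K J = ⊥ := if_neg fun h => h.2 hroot
          rw [hY]
          have h6 : Nat.card (⊥ : AddSubgroup (AdjoinRoot (X - C (i : ZMod p)))) = 1 := by
            simp
          rw [h6, Nat.cast_one, one_mul]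
          have h7 : finrank (AdjoinRoot (X - C (i : ZMod p))) W ≤ n := by
            have := hr2 hJ hroot
            omega
          have h5 : (p : ℝ) ^ finrank (AdjoinRoot (X - C (i : ZMod p))) W / (p : ℝ) ^ n ≤ 1 := by
            rw [div_le_one (by positivity)]
            exact pow_le_pow_right₀ hp1.le h7
          calc _ ≤ 1 * (1 / ((p : ℝ) - 1)) := mul_le_mul_of_nonneg_right h5 hθ
            _ = _ := one_mul _
        · have hY : YG (X - C (i : ZMod p)) K J = ⊤ := if_pos ⟨hJ, hroot⟩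
          rw [hY]
          have h6 : Nat.card (⊤ : AddSubgroup (AdjoinRoot (X - C (i : ZMod p)))) = p := by
            rw [AddSubgroup.card_top, Nat.card_eq_fintype_card, hcard]
          rw [h6]
          have h7 : finrank (AdjoinRoot (X - C (i : ZMod p))) W ≤ n + 1 := by omega
          have h5 : (p : ℝ) ^ finrank (AdjoinRoot (X - C (i : ZMod p))) W ≤ (p : ℝ) ^ (n + 1) :=
            pow_le_pow_right₀ hp1.le h7
          calc (p : ℝ) ^ finrank (AdjoinRoot (X - C (i : ZMod p))) W / (p : ℝ) ^ n *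
                (1 / (p * ((p : ℝ) - 1)))
              ≤ (p : ℝ) ^ (n + 1) / (p : ℝ) ^ n * (1 / (p * ((p : ℝ) - 1))) := by gcongr
            _ = 1 / ((p : ℝ) - 1) := by
              rw [pow_succ]
              field_simp
      · have hY : YG (X - C (i : ZMod p)) K J = ⊥ := if_neg fun h => hJ h.1
        rw [hY]
        have h6 : Nat.card (⊥ : AddSubgroup (AdjoinRoot (X - C (i : ZMod p)))) = 1 := by
          simp
        rw [h6, Nat.cast_one, one_mul]
        have hZ := hZT1 p K M K₁ M₁ J M₂ ε δ _ a₀ hs hom B D hJ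
        have hZ1 : 1 ≤ finrank (AdjoinRoot (X - C (i : ZMod p))) (Zt B M₂) := by
          rw [Nat.one_le_iff_ne_zero, Ne, Submodule.finrank_eq_zero]
          exact hZ
        have h7 : finrank (AdjoinRoot (X - C (i : ZMod p))) W ≤ n := by omega
        have h5 : (p : ℝ) ^ finrank (AdjoinRoot (X - C (i : ZMod p))) W / (p : ℝ) ^ n ≤ 1 := by
          rw [div_le_one (by positivity)]
          exact pow_le_pow_right₀ hp1.le h7
        calc _ ≤ 1 * (1 / ((p : ℝ) - 1)) := mul_le_mul_of_nonneg_right h5 hθ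
          _ = _ := one_mul _))
  exact ⟨_, E.toTauF, _, Kc, c', X₁', hc', hana, fun a hcl ha hl =>
    selO hGRP hCHG hSGB hPWA hTri hp2 hs hε hM₁ T B D aτ E W hW'.sup_eq_top a hcl ha hl⟩

end Pool.Agent.Helper42.WY
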