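import Pool.Agent.Helper42.WY.DEN2H
import Pool.Agent.Helper11.M3.SMO

/-!
# Project WY: the density theorem, step 2
-/

set_option autoImplicit false

namespace Pool.Agent.Helper42.WY

/-- The density theorem, step 2, without hypotheses. -/
theorem i_den2 : Pool.Agent.Helper38.WY.Y_DEN2 :=
  h_den2 (Pool.Agent.Helper11.M3.a_smo Pool.Agent.Helper76.PB.a_smn a_zto)

end Pool.Agent.Helper42.WY
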