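import Pool.Agent.Helper42.WY.OMG

/-!
# Project WY (MP_fc6b1e_nt): one class, `χ₀ ≡ ω`
-/

set_option autoImplicit false

namespace Pool.Agent.Helper42.WY

open NumberField Polynomial Module IsDedekindDomain TensorProduct Pool.Agent.Helper51.SigLeo
open Pool.Agent.Helper51.RP Pool.Agent.Helper42.RD Pool.Agent.Helper11.LE Pool.Agent.Helper11.PP
open Pool.Agent.Helper38.FD (Chr CutsOut LeopoldtFor IsOrdinary isGalois_of_cutsOut
  free_of_splits splits_of_free ordv_of_unram exists_cutsOut exists_faithful exists_lift fix_sup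
  pow_card_desc Restricts)
open Pool.Agent.Helper42.PP (LocS)
open Pool.Agent.Helper42.PP1 (SitW NTV sitW_one above_self)
open Pool.Agent.Helper42.PB (SitB)
open Pool.Agent.Helper77.PPB
open Pool.Agent.Helper22.PP (ram_sup le_of_fix)
open Pool.Agent.Helper42.PW (eq_one_of_pow)
open Pool.Agent.Helper38.FW (OmegaAt IsOmega)
open Pool.Agent.Helper38.WY

/-- The field of `(ψ^n)^p`. -/
theorem cutsOut_pow_mul {p : ℕ} [hp : Fact p.Prime] {K : Type} [Field K] [NumberField K]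
    {ψ₀ φ : Chr K (AlgebraicClosure K) ℂ_[p]} {J : IntermediateField K (AlgebraicClosure K)}
    (hJ : CutsOut (ψ₀ ^ p) J) (hφ : φ ^ p = 1) (hψ : ∃ l : ℕ, ψ₀ ^ p ^ l = 1) {n : ℕ}
    (hn : ¬ p ∣ n) : CutsOut (((ψ₀ * φ) ^ n) ^ p) J := by
  have h1 : ((ψ₀ * φ) ^ n) ^ p = (ψ₀ ^ p) ^ n := by
    refine MonoidHom.ext fun g => ?_
    have h2 : φ g ^ p = 1 := by rw [← MonoidHom.pow_apply, hφ]; rfl
    rw [MonoidHom.pow_apply, MonoidHom.pow_apply, MonoidHom.mul_apply, MonoidHom.pow_apply,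
      MonoidHom.pow_apply, ← pow_mul, mul_comm n p, pow_mul, mul_pow, h2, mul_one]
  rw [h1]
  intro g
  rw [← hJ g]
  obtain ⟨l, hl⟩ := hψ
  constructor
  · intro h
    rw [MonoidHom.pow_apply] at h
    have h2 : ((ψ₀ ^ p) g) ^ p ^ l = 1 := by
      rw [MonoidHom.pow_apply, ← pow_mul, mul_comm, pow_mul, ← MonoidHom.pow_apply ψ₀ (p ^ l), hl,
        MonoidHom.one_apply, one_pow]
    have h3 := Nat.dvd_gcd (orderOf_dvd_of_pow_eq_one h) (orderOf_dvd_of_pow_eq_one h2)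
    have h4 : n.gcd (p ^ l) = 1 := by
      have h5 : Nat.Coprime n p := ((Nat.Prime.coprime_iff_not_dvd hp.out).2 hn).symm
      exact h5.pow_right l
    rw [h4] at h3
    exact orderOf_eq_one_iff.1 (Nat.dvd_one.1 h3)
  · intro h
    rw [MonoidHom.pow_apply, h, one_pow]

/-- One class, `χ₀ ≡ ω ≠ 1`, from a moment theorem (`Q` is a property of the set of the bad classes). -/
theorem y_clsO (hKU : Y_KUM) (hGL : O_GL) (hPH : S_PHI) (hNS : S_NSP)
    (p : ℕ) [hpF : Fact p.Prime] (hp2 : p ≠ 2) (K : Type) [Field K] [NumberField K]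
    (ιinf : AlgebraicClosure K →+* ℂ) (ιp : AlgebraicClosure K →+* ℂ_[p]) (Lg : IwasawaLog p ℂ_[p])
    (K₁ : IntermediateField K (AlgebraicClosure K)) [NumberField K₁] (ε₁ : K₁)
    (hC : Cyc p K K₁ ε₁) (h1K : 1 < finrank K K₁) (εk : ℂ_[p]ˣ) (hεk : IsPrimitiveRoot εk p)
    (nf : ClP p K₁ → IntermediateField K (AlgebraicClosure K))
    (cf : ClP p K₁ → Chr K (AlgebraicClosure K) ℂ_[p])
    (n1 : ∀ c ∈ BSet p K ε₁, nf c ∈ CycN p K ∧
      ∀ a : (K₁)ˣ, clp p a = c → Gen p (K₁.val : K₁ →+* AlgebraicClosure K) a (nf c))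
    (n5 : ∀ c ∈ BSet p K ε₁, CutsOut (cf c) (nf c) ∧ ∀ a : (K₁)ˣ, clp p a = c →
      ∀ s : AlgebraicClosure K, s ^ p = (K₁.val : K₁ →+* AlgebraicClosure K) (a : K₁) →
      ∀ g : AlgebraicClosure K ≃ₐ[K] AlgebraicClosure K,
        (∀ x : K₁, g ((K₁.val : K₁ →+* AlgebraicClosure K) x) =
          (K₁.val : K₁ →+* AlgebraicClosure K) x) → ∀ i : ℕ,
        g s = (K₁.val : K₁ →+* AlgebraicClosure K) ε₁ ^ i * s → cf c g = εk ^ i)
    (S : Set (K →+* ℂ)) (hcl : PlaceClosed (TSet ιinf ιp S))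
    (F₀ : IntermediateField K (AlgebraicClosure K)) (χ₀ ψ₀ : Chr K (AlgebraicClosure K) ℂ_[p])
    (hχ : CutsOut χ₀ K₁) (hω : IsOmega χ₀)
    (hψ : CutsOut ψ₀ F₀) (hF : ∃ l : ℕ, finrank K F₀ = p ^ l)
    (Q : Set (ClP p K₁) → Prop)
    (hMB : ∀ (J M₂ : IntermediateField K (AlgebraicClosure K)) [NumberField J] [NumberField M₂]
      [Algebra K₁ M₂] [Algebra J M₂] (δ : K₁ ≃ₐ[K] K₁) (i : ℕ) (a₀ : (M₂)ˣ) (ζ : ℂ_[p])
      (Φ : ℤ_[p][X]), δ ε₁ = ε₁ ^ i →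
      SitB p K K₁ K₁ K₁ J M₂ ε₁ δ (X - C (i : ZMod p)) a₀ →
      PhiData p (finrank K K₁) ζ Φ (X - C (i : ZMod p)) →
      Q (BdO (TSet ιinf ιp S) (X - C (i : ZMod p) : (ZMod p)[X]) δ ε₁ a₀)) :
    ClsX ιinf ιp Lg ε₁ nf cf S F₀ χ₀ ψ₀ Q := by
  classical
  have hp : p.Prime := hpF.out
  have hgK : IsGalois K K₁ := hC.gal
  have hfK₁ : FiniteDimensional K K₁ := Module.Finite.of_restrictScalars_finite ℚ K K₁
  have hεΩ : IsPrimitiveRoot ((ε₁ : K₁) : AlgebraicClosure K) p :=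
    hC.prim.map_of_injective (f := K₁.val) K₁.val.injective
  have hdvd : finrank K K₁ ∣ p - 1 :=
    Pool.Agent.Helper14.RD.finrank_dvd_pred p K K₁ ε₁ hC.prim hC.gen
  have hcopK : (finrank K K₁).Coprime p :=
    Nat.Coprime.coprime_dvd_left hdvd ((Nat.coprime_self_sub_left
      (Fact.out : p.Prime).one_le).2 (Nat.coprime_one_left p))
  obtain ⟨χM, hinj, hχM'⟩ := exists_faithful hχ
  have hres : ∀ (X : IntermediateField K (AlgebraicClosure K)) [IsGalois K X]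
      (g : AlgebraicClosure K ≃ₐ[K] AlgebraicClosure K),
      Restricts (algebraMap X (AlgebraicClosure K)) g (AlgEquiv.restrictNormalHom X g) :=
    fun X _ g x ↦ (AlgEquiv.restrictNormal_commutes g X x).symm
  have hχM : ∀ g, χ₀ g = χM (AlgEquiv.restrictNormalHom K₁ g) := fun g => hχM' g _ (hres K₁ g)
  have hinj' : Function.Injective ((Units.coeHom ℂ_[p]).comp χM) := by
    intro x y hxy
    apply hinj
    exact Units.ext hxy
  have hcyc : IsCyclic (K₁ ≃ₐ[K] K₁) := isCyclic_of_injective_ringHom _ hinj'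
  obtain ⟨δ, hδ⟩ := IsCyclic.exists_generator (α := (K₁ ≃ₐ[K] K₁))
  have horder : orderOf δ = finrank K K₁ := by
    rw [orderOf_eq_card_of_forall_mem_zpowers hδ, IsGalois.card_aut_eq_finrank]
  have hm0 : 0 < finrank K K₁ := finrank_pos
  have hprim : IsPrimitiveRoot ((χM δ : ℂ_[p]ˣ) : ℂ_[p]) (finrank K K₁) := by
    have h4 : orderOf ((χM δ : ℂ_[p]ˣ) : ℂ_[p]) = finrank K K₁ := by
      rw [← horder]
      exact orderOf_injective ((Units.coeHom ℂ_[p]).comp χM) hinj' δ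
    rw [← h4]
    exact IsPrimitiveRoot.orderOf _
  -- the integer `i`
  obtain ⟨gδ, hgδ⟩ := exists_lift δ
  obtain ⟨i, hi1, hi2⟩ := exists_root_pow hεΩ gδ
  have hgδ' : AlgEquiv.restrictNormalHom K₁ gδ = δ := by
    ext x
    have h5 := hres K₁ gδ x
    have h6 : gδ (x : AlgebraicClosure K) = ((δ x : K₁) : AlgebraicClosure K) := hgδ x
    exact h5.symm.trans h6
  have hδi : δ ε₁ = ε₁ ^ i := by
    apply Subtype.ext
    have h6 : gδ (ε₁ : AlgebraicClosure K) = ((δ ε₁ : K₁) : AlgebraicClosure K) := hgδ ε₁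
    rw [← h6, hi1]
    rfl
  have hnorm : ‖((χM δ : ℂ_[p]ˣ) : ℂ_[p]) - i‖ < 1 := by
    have h5 := hω gδ i hi2
    rwa [hχM, hgδ'] at h5
  obtain ⟨Φ, P, hPhi⟩ := hPH p ℂ_[p] (finrank K K₁) ((χM δ : ℂ_[p]ˣ) : ℂ_[p]) hcopK h1K hprim
  have hnsp := hNS p ℂ_[p] K K₁ (finrank K K₁) δ _ Φ P hPhi horder rfl
  have hSit := sitW_omega p K K₁ ε₁ hC δ P horder hPhi.irr hPhi.dvdP hnsp
  obtain rfl := phi_omega hPhi hdvd i hnorm
  -- the field `J`
  obtain ⟨J, hfJ, hcJ, hJF, hdJ, -, -⟩ := exists_J p hψ hF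
  have hnJ : NumberField J := NumberField.of_module_finite K J
  obtain ⟨l₀, hl₀⟩ := id hF
  have hfF : FiniteDimensional K F₀ := FiniteDimensional.of_finrank_pos (by
    rw [hl₀]; exact pow_pos hp.pos l₀)
  have hnF : NumberField F₀ := NumberField.of_module_finite K F₀
  have hgF : IsGalois K F₀ := isGalois_of_cutsOut hψ
  have hgJ : IsGalois K J := isGalois_of_cutsOut hcJ
  obtain ⟨M₂, hM₂⟩ : ∃ M₂ : IntermediateField K (AlgebraicClosure K), M₂ = K₁ ⊔ J := ⟨_, rfl⟩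
  have hfM₂ : FiniteDimensional K M₂ := by
    rw [hM₂]; exact IntermediateField.finiteDimensional_sup K₁ J
  have hnM₂ : NumberField M₂ := NumberField.of_module_finite K M₂
  have hle2 : K₁ ≤ M₂ := by rw [hM₂]; exact le_sup_left
  have hleJ : J ≤ M₂ := by rw [hM₂]; exact le_sup_right
  let A2 : Algebra K₁ M₂ := (IntermediateField.inclusion hle2).toRingHom.toAlgebra
  let A4 : Algebra J M₂ := (IntermediateField.inclusion hleJ).toRingHom.toAlgebra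
  obtain ⟨a₀, s₀, hB, m0, p0, r0⟩ := hKU p K K₁ K₁ K₁ ε₁ δ (X - C (i : ZMod p)) hSit
    (K₁.val : K₁ →+* AlgebraicClosure K) K₁ (fun x => rfl)
    (fun y => ⟨fun hy => ⟨⟨y, hy⟩, rfl⟩, by rintro ⟨x, rfl⟩; exact x.2⟩) εk hεk ψ₀ F₀ hψ hF
    J M₂ (fun x => rfl) (fun x => rfl) (fun x => rfl) (fun x => rfl) hcJ hM₂
  refine ⟨_, hMB J M₂ δ i a₀ _ Φ hδi hB hPhi, ?_⟩
  intro c hc hv hcB l n hpn
  obtain ⟨v₀, hv1, hv2⟩ := hv
  obtain ⟨hc1, a, hac, hom⟩ := hc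
  have hcBS : c ∈ BSet p K ε₁ := ⟨hc1, a, hac, hom⟩
  obtain ⟨hNc, hgen⟩ := n1 c hcBS
  obtain ⟨hcut, hrel⟩ := n5 c hcBS
  have hgN : IsGalois K (nf c) := hNc.2
  have hfN : FiniteDimensional K (nf c) := FiniteDimensional.of_finrank_pos (by
    rw [hNc.1]; exact hp.pos)
  have hnN : NumberField (nf c) := NumberField.of_module_finite K (nf c)
  have D : Dat p K₁ K₁ J M₂ F₀ (nf c) ε₁ εk ψ₀ (cf c) a₀ s₀ a v₀ :=
    { KM := fun x => rfl
      le1 := le_rfl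
      eq2 := hM₂
      leJ := hJF
      prim := hC.prim
      primk := hεk
      cop := hcopK
      cut0 := hψ
      cutJ := hcJ
      cutN := hcut
      degN := hNc.1
      deg0 := hF
      mem0 := m0
      pow0 := p0
      rel0 := fun g hg i hi => r0 g hg i hi
      gen := hgen a hac
      rel := fun s hs g hg i hi => hrel a hac s hs g (fun x => hg _ x.2) i hi
      ram := hv1
      nram := hv2 }
  have hnB : NumberField (⊥ : IntermediateField K (AlgebraicClosure K)) :=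
    NumberField.of_module_finite K _
  have hgB : IsGalois K (⊥ : IntermediateField K (AlgebraicClosure K)) := inferInstance
  obtain ⟨-, -, -, c4⟩ := comp_props (Pool.Agent.Helper38.FW.comp_bot (p := p)
    (⊥ : IntermediateField K (AlgebraicClosure K)) F₀ (nf c))
  obtain ⟨g, hg1, hg2⟩ := D.exg ⊥ (c4 v₀ hv1)
  obtain ⟨-, q2, q3⟩ := D.psi
  have hψg : (ψ₀ * cf c) g ≠ 1 := by
    rw [MonoidHom.mul_apply, (hψ g).2 fun x hx => hg1 x ((le_sup_left : F₀ ≤ F₀ ⊔ ⊥) hx), one_mul]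
    exact hg2
  -- the power `n`
  have hpw : ∀ g', (∀ x ∈ J, g' x = x) → ((ψ₀ * cf c) g') ^ n = 1 → (ψ₀ * cf c) g' = 1 :=
    fun g' hg' h1 => eq_one_of_pow hp hpn h1 (q3 g' hg')
  obtain ⟨l₁, hl₁⟩ := q2
  have hom2 : OmType p K (algebraMap K₁ M₂ ε₁)
      ((a₀ * Units.map (algebraMap K₁ M₂ : K₁ →* M₂) a : (M₂)ˣ) : M₂) := by
    have t3 : IsScalarTower K K₁ M₂ := IsScalarTower.of_algebraMap_eq fun x => rfl
    exact om_both hp hC.prim a.ne_zero hB.om hom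
  have hql : ((ψ₀ * cf c) ^ n) ^ p ^ l₁ = 1 := by
    refine MonoidHom.ext fun g' => ?_
    have h := DFunLike.congr_fun hl₁ g'
    rw [MonoidHom.pow_apply] at h
    rw [MonoidHom.pow_apply, MonoidHom.pow_apply, ← pow_mul, mul_comm, pow_mul, h]
    exact one_pow n
  have hφp : (cf c) ^ p = 1 := by
    ext g'
    have h2 := pow_card_desc hcut g'
    rw [hNc.1] at h2
    rw [MonoidHom.pow_apply, h2]
    rfl
  have hψp : ∃ l : ℕ, ψ₀ ^ p ^ l = 1 := by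
    refine ⟨l₀, ?_⟩
    ext g'
    have h2 := pow_card_desc hψ g'
    rw [hl₀] at h2
    rw [MonoidHom.pow_apply, h2]
    rfl
  have hχl : χ₀ ^ p ^ l = χ₀ := by
    ext1 g'
    have h2 : χ₀ g' ^ (p - 1) = 1 := by
      obtain ⟨d, hd⟩ := hdvd
      rw [hd, pow_mul, pow_card_desc hχ g', one_pow]
    have h3 : χ₀ g' ^ p = χ₀ g' := by
      have h4 : p = (p - 1) + 1 := by have := hp.one_lt; omega
      calc χ₀ g' ^ p = χ₀ g' ^ ((p - 1) + 1) := by rw [← h4]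
        _ = χ₀ g' := by rw [pow_succ, h2, one_mul]
    rw [MonoidHom.pow_apply]
    clear hχM hnorm
    induction l with
    | zero => rw [pow_zero, pow_one]
    | succ l ih => rw [pow_succ, pow_mul, ih, h3]
  show LeopoldtFor ιinf ιp Lg S (χ₀ ^ p ^ l * (ψ₀ * cf c) ^ n)
  rw [hχl]
  refine hGL p hp2 K ιinf ιp Lg S hcl K₁ J M₂ (fun x => rfl) hM₂ hcopK hdJ
    χM hinj δ i horder hnorm χ₀ ((ψ₀ * cf c) ^ n) hχM ⟨l₁, hql⟩
    (cutsOut_pow_mul hcJ hφp hψp hpn)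
    ⟨g, fun x hx => hg1 x ((le_sup_of_le_left hJF : J ≤ F₀ ⊔ ⊥) hx), ?_⟩
    (algebraMap K₁ M₂ ε₁) (a₀ * Units.map (algebraMap K₁ M₂ : K₁ →* M₂) a)
    (hC.prim.map_of_injective (algebraMap K₁ M₂).injective) ⟨ε₁, rfl, hδi⟩ hom2
    (D.npw g (fun x hx => hg1 x ((le_sup_left : F₀ ≤ F₀ ⊔ ⊥) hx)) hg2)
    (fun s hs g' hg' h1 => D.aut s hs g' hg' (hpw g' (fun x hx => hg' x (hleJ hx)) (by
      rw [← MonoidHom.pow_apply]; exact h1)))
    (by
      intro x hx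
      by_contra hxp
      push Not at hxp
      exact hcB ⟨x, a, hac, hx, fun j => by
        rintro ⟨w, hw⟩
        exact hxp j w hw⟩)
  rw [MonoidHom.pow_apply]
  intro h1
  exact hψg (hpw g (fun x hx => hg1 x ((le_sup_of_le_left hJF : J ≤ F₀ ⊔ ⊥) hx)) h1)

/-- One class, `χ₀ = 1 ≡ ω`, from a moment theorem (`Q` is a property of the set of the bad classes). -/
theorem y_clsO0 (hKU : Y_KUM) (hGL : O_GL0)
    (p : ℕ) [hpF : Fact p.Prime] (hp2 : p ≠ 2) (K : Type) [Field K] [NumberField K]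
    (ιinf : AlgebraicClosure K →+* ℂ) (ιp : AlgebraicClosure K →+* ℂ_[p]) (Lg : IwasawaLog p ℂ_[p])
    (K₁ : IntermediateField K (AlgebraicClosure K)) [NumberField K₁] (ε₁ : K₁)
    (hC : Cyc p K K₁ ε₁) (h1K : K₁ = ⊥) (εk : ℂ_[p]ˣ) (hεk : IsPrimitiveRoot εk p)
    (nf : ClP p K₁ → IntermediateField K (AlgebraicClosure K))
    (cf : ClP p K₁ → Chr K (AlgebraicClosure K) ℂ_[p])
    (n1 : ∀ c ∈ BSet p K ε₁, nf c ∈ CycN p K ∧
      ∀ a : (K₁)ˣ, clp p a = c → Gen p (K₁.val : K₁ →+* AlgebraicClosure K) a (nf c))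
    (n5 : ∀ c ∈ BSet p K ε₁, CutsOut (cf c) (nf c) ∧ ∀ a : (K₁)ˣ, clp p a = c →
      ∀ s : AlgebraicClosure K, s ^ p = (K₁.val : K₁ →+* AlgebraicClosure K) (a : K₁) →
      ∀ g : AlgebraicClosure K ≃ₐ[K] AlgebraicClosure K,
        (∀ x : K₁, g ((K₁.val : K₁ →+* AlgebraicClosure K) x) =
          (K₁.val : K₁ →+* AlgebraicClosure K) x) → ∀ i : ℕ,
        g s = (K₁.val : K₁ →+* AlgebraicClosure K) ε₁ ^ i * s → cf c g = εk ^ i)
    (S : Set (K →+* ℂ)) (hcl : PlaceClosed (TSet ιinf ιp S))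
    (F₀ : IntermediateField K (AlgebraicClosure K)) (ψ₀ : Chr K (AlgebraicClosure K) ℂ_[p])
    (hψ : CutsOut ψ₀ F₀) (hF : ∃ l : ℕ, finrank K F₀ = p ^ l)
    (Q : Set (ClP p K₁) → Prop)
    (hMB : ∀ (J M₂ : IntermediateField K (AlgebraicClosure K)) [NumberField J] [NumberField M₂]
      [Algebra K₁ M₂] [Algebra J M₂] (a₀ : (M₂)ˣ), (∃ ε₀ : K, algebraMap K K₁ ε₀ = ε₁) →
      SitB p K K K₁ K₁ J M₂ ε₁ (1 : K ≃ₐ[K] K) (X - 1) a₀ →
      Q (BdO (TSet ιinf ιp S) (X - 1 : (ZMod p)[X]) (1 : K ≃ₐ[K] K) ε₁ a₀)) :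
    ClsX ιinf ιp Lg ε₁ nf cf S F₀ 1 ψ₀ Q := by
  classical
  have hp : p.Prime := hpF.out
  have hgK : IsGalois K K₁ := hC.gal
  have hfK₁ : FiniteDimensional K K₁ := Module.Finite.of_restrictScalars_finite ℚ K K₁
  have hSit := Pool.Agent.Helper42.PP1.sitW_one p K K₁ ε₁ hC.prim hC.gen
  obtain ⟨ε₀, hε₀⟩ : ∃ ε₀ : K, algebraMap K K₁ ε₀ = ε₁ := by
    have h1 : (ε₁ : AlgebraicClosure K) ∈ (⊥ : IntermediateField K (AlgebraicClosure K)) := by
      rw [← h1K]; exact ε₁.2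
    obtain ⟨y, hy⟩ := IntermediateField.mem_bot.1 h1
    exact ⟨y, Subtype.ext hy⟩
  -- the field `J`
  obtain ⟨J, hfJ, hcJ, hJF, hdJ, -, -⟩ := exists_J p hψ hF
  have hnJ : NumberField J := NumberField.of_module_finite K J
  obtain ⟨l₀, hl₀⟩ := id hF
  have hfF : FiniteDimensional K F₀ := FiniteDimensional.of_finrank_pos (by
    rw [hl₀]; exact pow_pos hp.pos l₀)
  have hnF : NumberField F₀ := NumberField.of_module_finite K F₀
  have hgF : IsGalois K F₀ := isGalois_of_cutsOut hψ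
  have hgJ : IsGalois K J := isGalois_of_cutsOut hcJ
  obtain ⟨M₂, hM₂⟩ : ∃ M₂ : IntermediateField K (AlgebraicClosure K), M₂ = K₁ ⊔ J := ⟨_, rfl⟩
  have hfM₂ : FiniteDimensional K M₂ := by
    rw [hM₂]; exact IntermediateField.finiteDimensional_sup K₁ J
  have hnM₂ : NumberField M₂ := NumberField.of_module_finite K M₂
  have hle2 : K₁ ≤ M₂ := by rw [hM₂]; exact le_sup_left
  have hleJ : J ≤ M₂ := by rw [hM₂]; exact le_sup_right
  have hM₂J : M₂ = J := by rw [hM₂, h1K, bot_sup_eq]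
  let A2 : Algebra K₁ M₂ := (IntermediateField.inclusion hle2).toRingHom.toAlgebra
  let A4 : Algebra J M₂ := (IntermediateField.inclusion hleJ).toRingHom.toAlgebra
  obtain ⟨a₀, s₀, hB, m0, p0, r0⟩ := hKU p K K K₁ K₁ ε₁ (1 : K ≃ₐ[K] K) (X - 1) hSit
    (K₁.val : K₁ →+* AlgebraicClosure K) K₁ (fun x => rfl)
    (fun y => ⟨fun hy => ⟨⟨y, hy⟩, rfl⟩, by rintro ⟨x, rfl⟩; exact x.2⟩) εk hεk ψ₀ F₀ hψ hF
    J M₂ (fun x => rfl) (fun x => rfl) (fun x => rfl) (fun x => rfl) hcJ hM₂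
  have hcopK : (finrank K K₁).Coprime p := by
    have h1 := Pool.Agent.Helper14.RD.finrank_dvd_pred p K K₁ ε₁ hC.prim hC.gen
    exact Nat.Coprime.coprime_dvd_left h1 ((Nat.coprime_self_sub_left
      (Fact.out : p.Prime).one_le).2 (Nat.coprime_one_left p))
  refine ⟨_, hMB J M₂ a₀ ⟨ε₀, hε₀⟩ hB, ?_⟩
  intro c hc hv hcB l n hpn
  obtain ⟨v₀, hv1, hv2⟩ := hv
  obtain ⟨hc1, a, hac, hom⟩ := hc
  have hcBS : c ∈ BSet p K ε₁ := ⟨hc1, a, hac, hom⟩
  obtain ⟨hNc, hgen⟩ := n1 c hcBS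
  obtain ⟨hcut, hrel⟩ := n5 c hcBS
  have hgN : IsGalois K (nf c) := hNc.2
  have hfN : FiniteDimensional K (nf c) := FiniteDimensional.of_finrank_pos (by
    rw [hNc.1]; exact hp.pos)
  have hnN : NumberField (nf c) := NumberField.of_module_finite K (nf c)
  have D : Dat p K₁ K₁ J M₂ F₀ (nf c) ε₁ εk ψ₀ (cf c) a₀ s₀ a v₀ :=
    { KM := fun x => rfl
      le1 := le_rfl
      eq2 := hM₂
      leJ := hJF
      prim := hC.prim
      primk := hεk
      cop := hcopK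
      cut0 := hψ
      cutJ := hcJ
      cutN := hcut
      degN := hNc.1
      deg0 := hF
      mem0 := m0
      pow0 := p0
      rel0 := fun g hg i hi => r0 g hg i hi
      gen := hgen a hac
      rel := fun s hs g hg i hi => hrel a hac s hs g (fun x => hg _ x.2) i hi
      ram := hv1
      nram := hv2 }
  have hnB : NumberField (⊥ : IntermediateField K (AlgebraicClosure K)) :=
    NumberField.of_module_finite K _
  have hgB : IsGalois K (⊥ : IntermediateField K (AlgebraicClosure K)) := inferInstance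
  obtain ⟨-, -, -, c4⟩ := comp_props (Pool.Agent.Helper38.FW.comp_bot (p := p)
    (⊥ : IntermediateField K (AlgebraicClosure K)) F₀ (nf c))
  obtain ⟨g, hg1, hg2⟩ := D.exg ⊥ (c4 v₀ hv1)
  obtain ⟨-, q2, q3⟩ := D.psi
  have hψg : (ψ₀ * cf c) g ≠ 1 := by
    rw [MonoidHom.mul_apply, (hψ g).2 fun x hx => hg1 x ((le_sup_left : F₀ ≤ F₀ ⊔ ⊥) hx), one_mul]
    exact hg2
  -- the power `n`
  have hpw : ∀ g', (∀ x ∈ J, g' x = x) → ((ψ₀ * cf c) g') ^ n = 1 → (ψ₀ * cf c) g' = 1 :=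
    fun g' hg' h1 => eq_one_of_pow hp hpn h1 (q3 g' hg')
  obtain ⟨l₁, hl₁⟩ := q2
  have hom2 : OmType p K (algebraMap K₁ M₂ ε₁)
      ((a₀ * Units.map (algebraMap K₁ M₂ : K₁ →* M₂) a : (M₂)ˣ) : M₂) := by
    have t3 : IsScalarTower K K₁ M₂ := IsScalarTower.of_algebraMap_eq fun x => rfl
    exact om_both hp hC.prim a.ne_zero hB.om hom
  have hql : ((ψ₀ * cf c) ^ n) ^ p ^ l₁ = 1 := by
    refine MonoidHom.ext fun g' => ?_
    have h := DFunLike.congr_fun hl₁ g'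
    rw [MonoidHom.pow_apply] at h
    rw [MonoidHom.pow_apply, MonoidHom.pow_apply, ← pow_mul, mul_comm, pow_mul, h]
    exact one_pow n
  have hφp : (cf c) ^ p = 1 := by
    ext g'
    have h2 := pow_card_desc hcut g'
    rw [hNc.1] at h2
    rw [MonoidHom.pow_apply, h2]
    rfl
  have hψp : ∃ l : ℕ, ψ₀ ^ p ^ l = 1 := by
    refine ⟨l₀, ?_⟩
    ext g'
    have h2 := pow_card_desc hψ g'
    rw [hl₀] at h2
    rw [MonoidHom.pow_apply, h2]
    rfl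
  have hfin := hGL p hp2 K ιinf ιp Lg S hcl J M₂ hM₂J hdJ ((ψ₀ * cf c) ^ n)
    ⟨l₁, hql⟩ (cutsOut_pow_mul hcJ hφp hψp hpn)
    ⟨g, fun x hx => hg1 x ((le_sup_of_le_left hJF : J ≤ F₀ ⊔ ⊥) hx), ?_⟩
    (algebraMap K₁ M₂ ε₁) (a₀ * Units.map (algebraMap K₁ M₂ : K₁ →* M₂) a)
    (hC.prim.map_of_injective (algebraMap K₁ M₂).injective)
    ⟨ε₀, by rw [← hε₀]; rfl⟩ hom2
    (D.npw g (fun x hx => hg1 x ((le_sup_left : F₀ ≤ F₀ ⊔ ⊥) hx)) hg2)
    (fun s hs g' hg' h1 => D.aut s hs g' hg' (hpw g' (fun x hx => hg' x (hleJ hx)) (by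
      rw [← MonoidHom.pow_apply]; exact h1)))
    (by
      intro x hx
      by_contra hxp
      push Not at hxp
      exact hcB ⟨x, a, hac, hx, fun j => by
        rintro ⟨w, hw⟩
        exact hxp j w hw⟩)
  · have e : (1 : Chr K (AlgebraicClosure K) ℂ_[p]) ^ p ^ l * (ψ₀ * cf c) ^ n =
        (ψ₀ * cf c) ^ n := by
      refine MonoidHom.ext fun g' => ?_
      rw [MonoidHom.mul_apply, MonoidHom.pow_apply, MonoidHom.one_apply, one_pow, one_mul]
    show LeopoldtFor ιinf ιp Lg S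
      ((1 : Chr K (AlgebraicClosure K) ℂ_[p]) ^ p ^ l * (ψ₀ * cf c) ^ n)
    rw [e]
    exact hfin
  · rw [MonoidHom.pow_apply]
    intro h1
    exact hψg (hpw g (fun x hx => hg1 x ((le_sup_of_le_left hJF : J ≤ F₀ ⊔ ⊥) hx)) h1)

end Pool.Agent.Helper42.WY
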