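import Pool.Agent.Helper42.WY.Asm
import Pool.Agent.Helper42.WY.ClsO
import Pool.Agent.Helper42.WY.MOMG
import Pool.Agent.Helper38.WY.Goals9

/-!
# Project WY (MP_fc6b1e_nt): the density theorem for all the characters, from the moment theorems
-/

set_option autoImplicit false

namespace Pool.Agent.Helper42.WY

open NumberField Polynomial Module IsDedekindDomain TensorProduct Pool.Agent.Helper51.SigLeo
open Pool.Agent.Helper51.RP Pool.Agent.Helper42.RD Pool.Agent.Helper11.LE Pool.Agent.Helper11.PP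
open Pool.Agent.Helper42.PP Pool.Agent.Helper42.PP1 Pool.Agent.Helper42.PB Pool.Agent.Helper42.PW
open Pool.Agent.Helper38.FD (Chr CutsOut LeopoldtFor IsOrdinary isGalois_of_cutsOut)
open Pool.Agent.Helper77.PPB
open Pool.Agent.Helper11.R (NTV2)
open Pool.Agent.Helper11.PB (tc_up)
open Pool.Agent.Helper38.FW (G_WT G_ASM momA_mono IsOmega OmegaAt not_isOmega norm_chr)
open Pool.Agent.Helper38.WY

/-- The class with the trivial bound. -/
theorem y_clsT {p : ℕ} [Fact p.Prime] {K : Type} [Field K] [NumberField K]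
    (ιinf : AlgebraicClosure K →+* ℂ) (ιp : AlgebraicClosure K →+* ℂ_[p]) (Lg : IwasawaLog p ℂ_[p])
    {K₁ : IntermediateField K (AlgebraicClosure K)} [NumberField K₁] (ε₁ : K₁)
    (nf : ClP p K₁ → IntermediateField K (AlgebraicClosure K))
    (cf : ClP p K₁ → Chr K (AlgebraicClosure K) ℂ_[p]) (S : Set (K →+* ℂ))
    (F₀ : IntermediateField K (AlgebraicClosure K)) (χ₀ ψ₀ : Chr K (AlgebraicClosure K) ℂ_[p])
    (Q : Set (ClP p K₁) → Prop) (hQ : Q Set.univ) :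
    ClsX ιinf ιp Lg ε₁ nf cf S F₀ χ₀ ψ₀ Q :=
  ⟨Set.univ, hQ, fun _ _ _ h => absurd (Set.mem_univ _) h⟩

theorem y_den2 (hMB1 : MOMB1X) (hMR : MOMRX) (hM3 : MOM3X) (hM4 : MOM4X) (hM40 : MOM4X0)
    (hNT3 : Y_NT3) (hG1 : Z_GL1) (hG0 : Z_GL0) (hGO : O_GL) (hGO0 : O_GL0) : Y_DEN2 := by
  classical
  intro p hpF K _ _ ιinf ιp Lg ι hι n c S M F₀ χ₀ ψ₀ hCM hord hfM hχ hcop hψ hF hc
    θ hθ hcase A hA e he
  have hp : p.Prime := hpF.out
  obtain ⟨i₀⟩ := id hι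
  have hSW := Pool.Agent.Helper74.PPB.b_swt
  have hNT := Pool.Agent.Helper58.PPB.b_ntv
  have hNT2 := Pool.Agent.Helper91.PPB.b_ntv2
  have hPH := Pool.Agent.Helper22.RP.s_phi
  have hNS := Pool.Agent.Helper11.RP.s_nsp
  have hFR := Pool.Agent.Helper20.RD.e_frb
  have htc : IsTotallyComplex K := Pool.Agent.Helper35.RD.totallyComplex_of_cm (hCM i₀)
  have hcl : ∀ i, PlaceClosed (TSet ιinf ιp (S i)) := fun i =>
    Pool.Agent.Helper35.RD.tset_closed ιinf ιp (S i) (hord i)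
  have hcard : ∀ i, finrank ℚ K = 2 * (TSet ιinf ιp (S i)).ncard := fun i => by
    rw [Pool.Agent.Helper35.RD.tset_ncard, Pool.Agent.Helper35.RD.two_mul_ncard_cm (hCM i)]
  have hrk : ∀ i, Units.rank K + 1 ≤ (TSet ιinf ιp (S i)).ncard := fun i ↦
    Pool.Agent.Helper32.LE.rank_cm ιinf ιp (S i) (hCM i)
  have hp0 : (0 : ℝ) < p := by exact_mod_cast hp.pos
  have hp1 : (1 : ℝ) < p := by exact_mod_cast hp.one_lt
  refine asmX Pool.Agent.Helper77.PPL.d_map Pool.Agent.Helper39.PPB.b_chr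
    Pool.Agent.Helper14.PW.w_ldt Pool.Agent.Helper5.PW.w_pro Pool.Agent.Helper32.FW.g_wt
    Pool.Agent.Helper49.FW.g_asm p K ιinf ιp Lg ι n c S F₀ χ₀ ψ₀ hF hc
    θ hθ ?_ A hA e he
  intro K₁ _ ε ε₁ εk nf cf hε hK₁ hε₁ hC hεk n1 n5 i
  have hgK : IsGalois K K₁ := hC.gal
  have htc₁ : IsTotallyComplex K₁ := tc_up K K₁
  have hfi := hfM i
  have hnz : ¬ IsOmega (χ₀ i) → ∃ (g : AlgebraicClosure K ≃ₐ[K] AlgebraicClosure K) (r : ℕ),
      (∀ ξ : AlgebraicClosure K, ξ ^ p = 1 → g ξ = ξ ^ r) ∧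
      ‖((χ₀ i g : ℂ_[p]ˣ) : ℂ_[p]) - r‖ = 1 := fun h => not_isOmega h (norm_chr (hχ i))
  rcases hcase i with ⟨hM, hle⟩ | ⟨hM, hom, hsd, hle⟩ | ⟨hM, hom, j, hj, hj', hle⟩
  · by_cases hom : IsOmega (χ₀ i)
    · -- `χ₀ ≡ ω`
      have hMK : M i = K₁ := field_omega hε hK₁ (hχ i) (hcop i) hom
      by_cases hp2 : p = 2
      · -- `p = 2`
        refine y_clsT ιinf ιp Lg ε₁ nf cf (S i) (F₀ i) (χ₀ i) (ψ₀ i) _ ?_
        refine momT p Lg K K₁ ε₁ hC _ ?_ _
        rw [hp2] at hle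
        norm_num at hle
        exact hle
      · have hχK : CutsOut (χ₀ i) K₁ := hMK ▸ hχ i
        by_cases h1 : 1 < finrank K K₁
        · exact y_clsO a_ykum hGO hPH hNS p hp2 K ιinf ιp Lg K₁ ε₁ hC h1 εk hεk nf cf n1 n5
            (S i) (hcl i) (F₀ i) (χ₀ i) (ψ₀ i) hχK hom (hψ i) (hF i)
            (fun Bd => MomA p K ε₁ Bd (θ (c i))) (by
              intro J M₂ _ _ _ _ δ t a₀ ζ Φ hδ hB hPhi
              exact momA_mono hle (hM4 p hp2 Lg K K₁ J M₂ ε₁ δ t a₀ h1 hδ hB ζ Φ hPhi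
                (TSet ιinf ιp (S i)) (hcl i) (hcard i)))
        · have hfK₁ : FiniteDimensional K K₁ := Module.Finite.of_restrictScalars_finite ℚ K K₁
          have h2 : finrank K K₁ = 1 := by
            have : 0 < finrank K K₁ := finrank_pos
            omega
          have hbot : K₁ = ⊥ := IntermediateField.finrank_eq_one_iff.1 h2
          have hχ1 : χ₀ i = 1 := by
            ext g
            have h3 : χ₀ i g = 1 := by
              rw [(hχ i) g, hMK, hbot]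
              intro x hx
              obtain ⟨y, rfl⟩ := IntermediateField.mem_bot.1 hx
              exact g.commutes y
            rw [h3]
            rfl
          rw [hχ1]
          exact y_clsO0 a_ykum hGO0 p hp2 K ιinf ιp Lg K₁ ε₁ hC hbot εk hεk nf cf n1 n5
            (S i) (hcl i) (F₀ i) (ψ₀ i) (hψ i) (hF i)
            (fun Bd => MomA p K ε₁ Bd (θ (c i))) (by
              intro J M₂ _ _ _ _ a₀ hε₀ hB
              exact momA_mono hle (hM40 p hp2 Lg K K₁ J M₂ ε₁ a₀ hε₀ hB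
                (TSet ιinf ιp (S i)) (hcl i) (hcard i)))
    · -- `χ₀ = 1`, no roots of unity
      have hM' : M i = ⊥ := hM.resolve_right hom
      have hχ1 : χ₀ i = 1 := by
        ext g
        have h1 : χ₀ i g = 1 := by
          rw [(hχ i) g, hM']
          intro x hx
          obtain ⟨y, rfl⟩ := IntermediateField.mem_bot.1 hx
          exact g.commutes y
        rw [h1]
        rfl
      have hμ := no_root hχ1 (hnz hom)
      rw [hχ1]
      exact y_cls0 a_ykum hG0 p K ιinf ιp Lg hμ K₁ ε₁ hC εk hεk nf cf n1 n5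
        (S i) (hcl i) (F₀ i) (ψ₀ i) (hψ i) (hF i)
        (fun Bd => MomA p K ε₁ Bd (θ (c i))) (by
          intro J M₂ _ _ _ _ a₀ hB
          refine momA_mono ?_
            (hMB1 p Lg K K₁ J M₂ ε₁ a₀ hB hμ (TSet ιinf ιp (S i)) (hcl i) (hrk i))
          refine le_trans ?_ hle
          have h9 : (p : ℝ) ^ (Units.rank K + 1) ≤ (p : ℝ) ^ (TSet ιinf ιp (S i)).ncard :=
            pow_le_pow_right₀ hp1.le (hrk i)
          rw [div_le_div_iff₀ (mul_pos (pow_pos hp0 _) (by linarith)) (by linarith), one_mul]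
          exact mul_le_mul_of_nonneg_right h9 (by linarith))
  · -- the general case
    refine y_cls1 a_ykum hSW hNT hG1 hPH hNS hFR p K ιinf ιp Lg K₁ ε hε hK₁ ε₁ hε₁ εk hεk
      nf cf n1 n5 (S i) (hcl i) (M i) (F₀ i) (χ₀ i) (ψ₀ i) (hχ i) (hcop i) (hnz hom) hM (hψ i)
      (hF i) (fun Bd => MomA p K ε₁ Bd (θ (c i))) ?_
    intro M₁ J M₂ _ _ _ _ _ _ _ _ _ _ _ χM δ Φ P a₀ hχM hb
    have hntv2 := hNT2 p K (M i) K₁ M₁ hb.v1 hb.v2 ε₁ δ P hb.sit.sit χM Φ hb.ord hb.phi (by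
      obtain ⟨g, r, h4, h5⟩ := hnz hom
      exact ⟨g, r, h4, by rw [← hχM g]; exact h5⟩) (by
      intro j
      have h9 : ∀ g, ‖((((χ₀ i) ^ (1 + p ^ j)) g : ℂ_[p]ˣ) : ℂ_[p])‖ = 1 := fun g ↦ by
        rw [MonoidHom.pow_apply, Units.val_pow_eq_pow_val, norm_pow, norm_chr (hχ i) g, one_pow]
      obtain ⟨g, r, h4, h5⟩ := not_isOmega (hsd j) h9
      refine ⟨g, r, h4, ?_⟩
      rw [← hχM g, ← Units.val_pow_eq_pow_val, ← MonoidHom.pow_apply]
      exact h5)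
    refine momA_mono ?_ (hMR p Lg K (M i) K₁ M₁ J M₂ ε₁ δ P a₀ hb.sit hntv2 _ _ Φ
      hb.phi rfl hb.tor (TSet ιinf ιp (S i)) (hcl i) (hcard i))
    rw [Pool.Agent.Helper77.PPL.phi_deg hb.phi]
    exact hle
  · -- the self-dual case
    refine y_cls1 a_ykum hSW hNT hG1 hPH hNS hFR p K ιinf ιp Lg K₁ ε hε hK₁ ε₁ hε₁ εk hεk
      nf cf n1 n5 (S i) (hcl i) (M i) (F₀ i) (χ₀ i) (ψ₀ i) (hχ i) (hcop i) (hnz hom) hM (hψ i)
      (hF i) (fun Bd => MomA p K ε₁ Bd (θ (c i))) ?_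
    intro M₁ J M₂ _ _ _ _ _ _ _ _ _ _ _ χM δ Φ P a₀ hχM hb
    obtain ⟨hnt3, hsd3⟩ := hNT3 p K (M i) K₁ M₁ hb.v1 hb.v2 ε₁ δ P hb.sit.sit χM Φ hb.ord
      hb.phi (by
      obtain ⟨g, r, h4, h5⟩ := hnz hom
      exact ⟨g, r, h4, by rw [← hχM g]; exact h5⟩)
    have hdeg := Pool.Agent.Helper77.PPL.phi_deg hb.phi
    refine momA_mono ?_ (hM3 p Lg K (M i) K₁ M₁ J M₂ ε₁ δ P a₀ hb.sit hnt3 j
      (hsd3 j (fun g r hg => by
        have h5 := hj g r hg
        rw [← hχM g, ← Units.val_pow_eq_pow_val, ← MonoidHom.pow_apply]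
        exact h5)) (by rw [hdeg]; exact hj') _ _ Φ
      hb.phi rfl hb.tor (TSet ιinf ιp (S i)) (hcl i) (hcard i))
    rw [hdeg]
    exact hle

end Pool.Agent.Helper42.WY
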