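import Pool.Agent.Helper42.WY.MOM4

/-!
# Project WY: the moment theorem for `χ₀ ≡ ω`: MOM4X, MOM4X0
-/

set_option autoImplicit false

namespace Pool.Agent.Helper42.WY

open NumberField Polynomial Module IsDedekindDomain
open Pool.Agent.Helper51.RP Pool.Agent.Helper42.RD Pool.Agent.Helper42.PP Pool.Agent.Helper42.PP1
open Pool.Agent.Helper51.SigLeo Pool.Agent.Helper11.LE Pool.Agent.Helper11.PP
open Pool.Agent.Helper17.PP (Sys)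
open Pool.Agent.Helper42.PB Pool.Agent.Helper76.PB Pool.Agent.Helper42.PW Pool.Agent.Helper38.WY
open Pool.Agent.Helper11.PB (tc_up)
open Pool.Agent.Helper38.ND
open Pool.Agent.Helper11.M3 (HypW Hyp₄ MT₄W Bad₄ A_HYP4 A_NRM A_ZT1 A_OMS Nrml OmS subS Zt ZK NV YG
  eL)
open Pool.Agent.Helper94.PP1 (rank1)

/-- **MOM4X**. -/
theorem mom4X (hGRP : N_GRP) (hCHG : N_CHG) (hSGB : Y_SGB) (hPWA : Y_PWA) (hTri : O_TRI)
    (hEXT : Y_EXT) (hALN : F_ALN) (hRNK : O_RNK)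
    (hMT : MT₄W) (hNRM : A_NRM) (hZT1 : A_ZT1) (hOMS : A_OMS) (hHYP : A_HYP4) : MOM4X := by
  classical
  intro p hpF hp2 L K K₁ J M₂ _ _ _ _ _ _ _ _ _ _ _ _ _ _ ε δ i a₀ hd1 hδε hs ζ Φ hPhi T hTc hd
  have hcK : IsTotallyComplex K₁ := tc_up K K₁
  have hne : Nonempty (AlgebraicClosure ℚ →+* ℂ_[p]) :=
    Pool.Agent.Helper35.RD.nonempty_hom ℚ ℂ_[p]
  have := hs.sit.gM
  have hord : orderOf δ = finrank K K₁ := hs.sit.ord
  have hPX : AdjoinRoot.root (X - C (i : ZMod p)) ≠ 1 := by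
    intro h
    have h2 := hPhi.cop 1 one_pos hPhi.one_lt (one_dvd _)
    have h3 : (X - C (i : ZMod p)) ∣ X ^ 1 - 1 := by
      rw [← AdjoinRoot.mk_eq_zero, pow_one, map_sub, AdjoinRoot.mk_X, map_one, h, sub_self]
    exact hs.sit.irr.not_isUnit (h2.isUnit_of_dvd' dvd_rfl h3)
  have lob : S_LOB := Pool.Agent.Helper32.RP.s_lob Pool.Agent.Helper90.RP.s_sub
    Pool.Agent.Helper59.RP.s_bin (Pool.Agent.Helper39.RP.s_sig Pool.Agent.Helper95.RP.s_lat)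
    Pool.Agent.Helper99.RP.s_prm
  have hom : Pool.Agent.Helper11.M3.OmS p K₁ ε δ (X - C (i : ZMod p)) :=
    hOMS p K K₁ K₁ K₁ ε δ (X - C (i : ZMod p)) hs.sit hp2 (finrank_self K₁) i ε rfl rfl hδε
  refine mom4_core hGRP hCHG hSGB hPWA hTri hMT hNRM hZT1 hHYP hp2 L rfl hs ⟨ε, rfl, hδε⟩
    (fun z => ⟨z, rfl⟩) hom T ?_
  intro B D
  obtain ⟨hSf, hst, hSp, -, -, -, -⟩ := Pool.Agent.Helper16.PP.p_upr p K K₁ B.S
  obtain ⟨s₀, hs₀⟩ := Pool.Agent.Helper90.RP.Dual.dvd_ncard (K := K) (finrank K K₁) rfl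
    {w ∈ up K₁ B.S | FreeP K w} (hSf.subset fun w hw => hw.1)
    (fun w hw v hv => ⟨hst w hw.1 v hv, free_of_conj hv hw.2⟩)
    (fun w hw => hw.2)
  have hr : B.r ≤ T.ncard + s₀ + 1 :=
    hRNK p ℂ_[p] K K₁ K₁ K₁ ε (finrank K K₁) T.ncard s₀ δ ζ Φ (X - C (i : ZMod p)) hPhi
      (natDegree_X_sub_C _) hord rfl hd B hSf hst hs₀
  refine ⟨T.ncard + s₀, fun aτ haτ => ?_, hr, fun _ h => absurd h hPX⟩
  obtain ⟨E⟩ := hEXT p K K₁ K₁ K₁ J M₂ ε δ (X - C (i : ZMod p)) a₀ hs L T B aτ haτ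
    (T.ncard + s₀) (fun 𝔪₀ v hv =>
      lob p ℂ_[p] hne L K K₁ (finrank K K₁) s₀ δ ζ Φ (X - C (i : ZMod p)) hPhi hord rfl T hTc
        (up K₁ B.S) 𝔪₀ v hv hs₀)
  exact ⟨E, hALN p K K₁ K₁ K₁ J M₂ ε δ (X - C (i : ZMod p)) a₀ hs hPX B D _ E.toTauF⟩

/-- **MOM4X0**. -/
theorem mom4X0 (hGRP : N_GRP) (hCHG : N_CHG) (hSGB : Y_SGB) (hPWA : Y_PWA) (hTri : O_TRI)
    (hEX1 : Y_EX1)
    (hMT : MT₄W) (hNRM : A_NRM) (hZT1 : A_ZT1) (hOMS : A_OMS) (hHYP : A_HYP4) : MOM4X0 := by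
  classical
  intro p hpF hp2 L K K₁ J M₂ _ _ _ _ _ _ _ _ _ _ _ _ _ _ ε a₀ hε hs T hTc hd
  have hp : p.Prime := hpF.out
  have hcK : IsTotallyComplex K₁ := tc_up K K₁
  obtain ⟨ε₀, hε₀⟩ := hε
  have := hs.sit.gK
  have hC : Cyc p K K₁ ε := ⟨hs.sit.prim, hs.sit.gK, hs.sit.gen⟩
  have hK₁ : ∀ z : K₁, ∃ y : K, algebraMap K K₁ y = z := by
    intro z
    have h2 : ∀ σ : K₁ ≃ₐ[K] K₁, σ = 1 := fun σ =>
      hs.sit.gen σ (by rw [← hε₀]; exact σ.commutes ε₀)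
    have h5 := (IsGalois.mem_bot_iff_fixed (F := K) (E := K₁) z).2 (fun σ => by rw [h2 σ]; rfl)
    obtain ⟨y, hy⟩ := IntermediateField.mem_bot.1 h5
    exact ⟨y, hy⟩
  have := tow_K hs
  have hom : Pool.Agent.Helper11.M3.OmS p K₁ ε (1 : K ≃ₐ[K] K) (X - 1 : (ZMod p)[X]) :=
    hOMS p K K K₁ K₁ ε 1 (X - 1) hs.sit hp2 (finrank_self K₁) 1 ε₀ (by simp) (by rw [hε₀]; rfl)
      (by rw [pow_one]; rfl)
  refine mom4_core (i := 1) hGRP hCHG hSGB hPWA hTri hMT hNRM hZT1 hHYP hp2 L (by simp) hs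
    ⟨ε₀, ?_, by rw [pow_one]; rfl⟩ hK₁ hom T ?_
  · rw [← hε₀, ← IsScalarTower.algebraMap_apply K K₁ M₂]
  intro B D
  have hr := rank1 Pool.Agent.Helper88.LE.l_sun hC.prim hC.gen B
  have hu : urk p K = Units.rank K + 1 := by
    unfold urk
    rw [if_pos]
    exact ⟨ε₀, IsPrimitiveRoot.of_map_of_injective (f := algebraMap K K₁)
      (by rw [hε₀]; exact hC.prim) (algebraMap K K₁).injective⟩
  have hT0 : 0 < finrank ℚ K := finrank_pos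
  have hT : Units.rank K + 1 = T.ncard := by
    have h1 := IsTotallyComplex.finrank K
    have h2 : Fintype.card (InfinitePlace K) =
        InfinitePlace.nrRealPlaces K + InfinitePlace.nrComplexPlaces K :=
      InfinitePlace.card_eq_nrRealPlaces_add_nrComplexPlaces K
    rw [IsTotallyComplex.nrRealPlaces_eq_zero, zero_add] at h2
    unfold Units.rank
    omega
  rw [hu, hT] at hr
  obtain ⟨h1, h2⟩ : (finrank K J = 1 → ∀ aτ : K₁ˣ, OmType p K ε (aτ : K₁) →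
      ∃ E : TauX (B.S.card + T.ncard) B a₀ T aτ, NrmInd E.toTauF M₂) ∧
      (1 < finrank K J → ∀ aτ : K₁ˣ, OmType p K ε (aτ : K₁) →
        ∃ E : TauX (B.S.card + T.ncard - 1) B a₀ T aτ, NrmInd E.toTauF M₂) :=
    ⟨fun hJ aτ haτ => (hEX1 p hp2 L K K₁ J M₂ ε a₀ hs T B D aτ haτ).1 hJ,
      fun hJ aτ haτ => (hEX1 p hp2 L K K₁ J M₂ ε a₀ hs T B D aτ haτ).2 hJ⟩
  by_cases hJ : finrank K J = 1
  · exact ⟨_, h1 hJ, by omega, fun _ _ => hr⟩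
  · have h0 : 0 < finrank K J := finrank_pos
    refine ⟨_, h2 (by omega), by omega, fun h => absurd h hJ⟩

end Pool.Agent.Helper42.WY
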