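import Pool.Agent.Helper42.WY.DEN2
import Pool.Agent.Helper42.WY.MOM4B
import Pool.Agent.Helper42.WY.AZT
import Pool.Agent.Helper38.WY.AsmD
import Pool.Agent.Helper48.WY.ORNK
import Pool.Agent.Helper49.WY.OUPB

/-!
# Project WY: the density theorem, step 2, modulo the abstract moment theorems and the analytic hypotheses
-/

set_option autoImplicit false

namespace Pool.Agent.Helper42.WY

open Pool.Agent.Helper38.WY Pool.Agent.Helper42.PW Pool.Agent.Helper76.PB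
open Pool.Agent.Helper11.M3 (MT₃W MT₄W A_HYP3 A_HYP4 A_NRM A_OMS)

theorem f_rnk : O_RNK := Pool.Agent.Helper48.WY.o_rnk Pool.Agent.Helper49.WY.o_upb

theorem f_mom3 (hMT : MT₃W) (hNRM : A_NRM) (hH3 : A_HYP3) : MOM3X :=
  mom3X a_ysel' a_yext (f_aln a_fline) hMT hNRM hH3

theorem f_mom4 (hMT : MT₄W) (hNRM : A_NRM) (hOMS : A_OMS) (hH4 : A_HYP4) : MOM4X :=
  mom4X a_grp a_chg Pool.Agent.Helper96.WY.y_sgb a_ypwa Pool.Agent.Helper39.WY.o_tri a_yext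
    (f_aln a_fline) f_rnk hMT hNRM a_zt1 hOMS hH4

theorem f_mom40 (hMT : MT₄W) (hNRM : A_NRM) (hOMS : A_OMS) (hH4 : A_HYP4) : MOM4X0 :=
  mom4X0 a_grp a_chg Pool.Agent.Helper96.WY.y_sgb a_ypwa Pool.Agent.Helper39.WY.o_tri
    (y_ex1 a_yext a_fline) hMT hNRM a_zt1 hOMS hH4

/-- The density theorem, step 2. -/
theorem f_den2 (hMT3 : MT₃W) (hMT4 : MT₄W) (hNRM : A_NRM) (hOMS : A_OMS) (hH3 : A_HYP3)
    (hH4 : A_HYP4) (hNT3 : Y_NT3) : Y_DEN2 :=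
  y_den2 (a_momb1x a_ysel' a_yext a_fline) (momrX (a_momrxr a_ysel' a_yext a_fline))
    (f_mom3 hMT3 hNRM hH3) (f_mom4 hMT4 hNRM hOMS hH4) (f_mom40 hMT4 hNRM hOMS hH4) hNT3 a_zgl1
    a_zgl0 a_ogl a_ogl0

end Pool.Agent.Helper42.WY
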