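import Pool.Agent.Helper9.ND.NANA
import Pool.Agent.Helper42.WY.NSHTW

/-!
# Project WY: from weights to the natural density, with `HypW` and an arbitrary predicate (port of
`Helper9/ND/NANA.lean`)
-/

namespace Pool.Agent.Helper42.WY

open Finset Pool.Agent.Helper17.PP Pool.Agent.Helper17.PP0 Pool.Agent.Helper17.PP2
open Pool.Agent.Helper38.ND
open Pool.Agent.Helper11.M3 (HypW)
open Pool.Agent.Helper9.ND (fin_fam ncard_fam sub_upto)
open Pool.Agent.Helper11.PP (Slow)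
open Pool.Agent.Helper44.PP.Dabs (slow_one slow_pow)

/-- `AnaN` for an arbitrary predicate `Bad`. -/
def AnaG {p : ℕ} {B B₀ k U Λ C : Type} [Field k] [AddCommGroup U] [Module k U]
    [AddCommGroup Λ] [Module k Λ] [AddCommGroup C] (S : Sys p B B₀ k U Λ C)
    (Bad : Finset B → Prop) (g : ℝ → ℝ) (θ Kc c X₁ : ℝ) : Prop :=
  (∀ X : ℝ, 0 < X → {b | S.Fam b ∧ (S.nm b : ℝ) ≤ X}.Finite ∧
    ({b | S.Fam b ∧ (S.nm b : ℝ) ≤ X}.ncard : ℝ) ≤ Kc * (X * g X)) ∧
  (∀ X : ℝ, 0 < X → X₁ ≤ X → c * (X * g X) ≤ {b | S.Fam b ∧ (S.nm b : ℝ) ≤ X}.ncard) ∧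
  ∀ η : ℝ, 0 < η → ∃ X₀ : ℝ, ∀ X : ℝ, X₀ ≤ X →
    ({b | S.Fam b ∧ Bad b ∧ (S.nm b : ℝ) ≤ X}.ncard : ℝ) ≤
      θ * {b | S.Fam b ∧ (S.nm b : ℝ) ≤ X}.ncard + η * (X * g X)

section

variable {p : ℕ} {B B₀ k U Λ C : Type} [Field k] [Fintype k] [Algebra (ZMod p) k]
    [AddCommGroup U] [Module k U] [AddCommGroup Λ] [Module k Λ]
    [AddCommGroup C] {S : Sys p B B₀ k U Λ C} {ψ : AddChar k ℂ} {g : ℝ → ℝ} {K : ℕ}

theorem exp_boundW (hS : HypW S ψ g K) {Y : ℝ} (hY : 0 < Y) (P : Finset B) :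
    ∑ b ∈ P.powerset, Real.exp (-(S.nm b / Y)) ≤ K * (Y * g Y) := by
  have h := hS.ht (fun _ ↦ 1) (fun q ↦ ⟨zero_le_one, by
    have : (0 : ℝ) ≤ Fintype.card k := Nat.cast_nonneg _
    linarith⟩) Y hY P
  simp only [Finset.prod_const_one, one_mul, sub_self, zero_div, Finset.sum_const_zero,
    Real.exp_zero, mul_one] at h
  refine h.trans ?_
  have h1 : 0 ≤ g Y := zero_le_one.trans (hS.g_one Y)
  refine mul_le_mul_of_nonneg_left ?_ (Nat.cast_nonneg _)
  refine mul_le_mul_of_nonneg_right ?_ h1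
  calc Y * min 1 Y ≤ Y * 1 := mul_le_mul_of_nonneg_left (min_le_left _ _) hY.le
    _ = Y := mul_one _

open Classical in
theorem firstW (hS : HypW S ψ g K) (R : Finset B → Prop) {X : ℝ} (hX : 0 < X) :
    ({b | R b ∧ (S.nm b : ℝ) ≤ X}.ncard : ℝ) ≤ Real.exp 1 * K * (X * g X) := by
  rw [ncard_fam S X R _ (Finset.Subset.refl _)]
  have h1 := exp_boundW hS hX (S.upto X)
  have h2 : ((((S.upto X).powerset.filter fun b ↦ R b ∧ (S.nm b : ℝ) ≤ X).card : ℕ) : ℝ) *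
      Real.exp (-1) ≤ ∑ b ∈ (S.upto X).powerset, Real.exp (-(S.nm b / X)) := by
    refine le_trans ?_ (Finset.sum_le_sum_of_subset_of_nonneg (Finset.filter_subset
      (fun b ↦ R b ∧ (S.nm b : ℝ) ≤ X) _) (fun b _ _ ↦ (Real.exp_pos _).le))
    rw [← nsmul_eq_mul]
    refine Finset.card_nsmul_le_sum _ _ _ ?_
    intro b hb
    refine Real.exp_le_exp.mpr ?_
    rw [neg_le_neg_iff, div_le_one hX]
    exact (Finset.mem_filter.mp hb).2.2
  have h3 := mul_le_mul_of_nonneg_left (h2.trans h1) (Real.exp_pos 1).le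
  have h4 : Real.exp 1 * Real.exp (-1) = 1 := by
    rw [← Real.exp_add]; simp
  calc _ = Real.exp 1 * (((((S.upto X).powerset.filter
        fun b ↦ R b ∧ (S.nm b : ℝ) ≤ X).card : ℕ) : ℝ) * Real.exp (-1)) := by
        rw [mul_left_comm, h4, mul_one]
    _ ≤ _ := h3
    _ = _ := by ring

open Classical in
theorem secondW (hS : HypW S ψ g K) {K₀ : ℝ} (hg : Slow g K₀) {c X₁ : ℝ} (hc : 0 < c)
    (hlow : ∀ X : ℝ, X₁ ≤ X → ∃ P : Finset B, c * (X * g X) ≤
      ∑ b ∈ P.powerset with S.Fam b, Real.exp (-(S.nm b / X))) :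
    ∃ c' X₁' : ℝ, 0 < c' ∧ ∀ X : ℝ, 0 < X → X₁' ≤ X →
      c' * (X * g X) ≤ {b | S.Fam b ∧ (S.nm b : ℝ) ≤ X}.ncard := by
  have hK0 := slow_one hg
  have hKn : (0 : ℝ) ≤ K := Nat.cast_nonneg _
  obtain ⟨l, hl⟩ : ∃ l : ℕ, 2 * K * K₀ * Real.exp (-(2 : ℝ) ^ l / 2) ≤ c / 2 := by
    have h1 : Filter.Tendsto (fun l : ℕ ↦ 2 * K * K₀ * Real.exp (-(2 : ℝ) ^ l / 2)) Filter.atTop
        (nhds (2 * K * K₀ * 0)) := by
      refine Filter.Tendsto.const_mul _ ?_
      refine Real.tendsto_exp_atBot.comp ?_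
      have h2 : (fun l : ℕ ↦ -(2 : ℝ) ^ l / 2) = fun l ↦ -((2 : ℝ) ^ l / 2) := by
        funext l; ring
      rw [h2]
      exact Filter.tendsto_neg_atTop_atBot.comp
        ((tendsto_pow_atTop_atTop_of_one_lt (by norm_num)).atTop_div_const (by norm_num))
    rw [mul_zero] at h1
    exact (h1.eventually (gt_mem_nhds (show (0 : ℝ) < c / 2 by positivity))).exists.imp
      fun l hl ↦ hl.le
  set t : ℝ := (2 : ℝ) ^ l with ht
  have ht1 : 1 ≤ t := one_le_pow₀ (by norm_num)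
  have ht0 : 0 < t := by linarith
  have hKl : 0 < K₀ ^ l := pow_pos (by linarith) l
  refine ⟨c / (2 * t * K₀ ^ l), t * max X₁ 1, by positivity, fun X hX hX1 ↦ ?_⟩
  set Y : ℝ := X / t with hY
  have hYX : t * Y = X := by rw [hY]; field_simp
  have hY1 : max X₁ 1 ≤ Y := by
    rw [hY, le_div_iff₀ ht0, mul_comm]
    exact hX1
  have hYo : 1 ≤ Y := (le_max_right _ _).trans hY1
  have hY0 : 0 < Y := by linarith
  obtain ⟨P, hP⟩ := hlow Y ((le_max_left _ _).trans hY1)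
  have hgY : 0 < g Y := lt_of_lt_of_le one_pos (hg.one Y)
  -- the split
  have h1 : ∑ b ∈ P.powerset with S.Fam b, Real.exp (-(S.nm b / Y)) ≤
      ({b | S.Fam b ∧ (S.nm b : ℝ) ≤ X}.ncard : ℝ) +
        Real.exp (-t / 2) * ∑ b ∈ P.powerset, Real.exp (-(S.nm b / (2 * Y))) := by
    have h2 : ∀ b ∈ P.powerset.filter fun b ↦ S.Fam b, Real.exp (-(S.nm b / Y)) ≤
        (if (S.nm b : ℝ) ≤ X then (1 : ℝ) else 0) +
          Real.exp (-t / 2) * Real.exp (-(S.nm b / (2 * Y))) := by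
      intro b _
      by_cases hb : (S.nm b : ℝ) ≤ X
      · rw [if_pos hb]
        have h3 : Real.exp (-(S.nm b / Y)) ≤ 1 := by
          rw [Real.exp_le_one_iff, neg_nonpos]
          positivity
        have h4 : 0 ≤ Real.exp (-t / 2) * Real.exp (-(S.nm b / (2 * Y))) := by positivity
        linarith
      · rw [if_neg hb, zero_add, ← Real.exp_add]
        refine Real.exp_le_exp.mpr ?_
        have h3 : t * Y < S.nm b := by rw [hYX]; exact not_le.mp hb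
        have h4 : t ≤ S.nm b / Y := by
          rw [le_div_iff₀ hY0]; exact h3.le
        have h5 : (S.nm b : ℝ) / (2 * Y) = S.nm b / Y / 2 := by
          field_simp
        rw [h5]
        linarith
    refine (Finset.sum_le_sum h2).trans ?_
    rw [Finset.sum_add_distrib]
    refine add_le_add ?_ ?_
    · rw [Finset.sum_ite, Finset.sum_const_zero, add_zero, Finset.sum_const, nsmul_eq_mul, mul_one,
        Finset.filter_filter]
      rw [← Set.ncard_coe_finset]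
      refine Nat.cast_le.mpr (Set.ncard_le_ncard ?_ (fin_fam S X _))
      intro b hb
      simp only [Finset.coe_filter, Set.mem_ofPred_eq] at hb
      exact hb.2
    · rw [← Finset.mul_sum]
      refine mul_le_mul_of_nonneg_left ?_ (Real.exp_pos _).le
      exact Finset.sum_le_sum_of_subset_of_nonneg (Finset.filter_subset _ _)
        (fun b _ _ ↦ (Real.exp_pos _).le)
  have h2 := exp_boundW hS (show 0 < 2 * Y by positivity) P
  have h3 := hg.dbl Y hYo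
  have h4 : Real.exp (-t / 2) * ∑ b ∈ P.powerset, Real.exp (-(S.nm b / (2 * Y))) ≤
      c / 2 * (Y * g Y) := by
    calc Real.exp (-t / 2) * ∑ b ∈ P.powerset, Real.exp (-(S.nm b / (2 * Y)))
        ≤ Real.exp (-t / 2) * (K * (2 * Y * g (2 * Y))) :=
          mul_le_mul_of_nonneg_left h2 (Real.exp_pos _).le
      _ ≤ Real.exp (-t / 2) * (K * (2 * Y * (K₀ * g Y))) := by gcongr
      _ = (2 * K * K₀ * Real.exp (-t / 2)) * (Y * g Y) := by ring
      _ ≤ c / 2 * (Y * g Y) := mul_le_mul_of_nonneg_right hl (by positivity)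
  have h5 : c / 2 * (Y * g Y) ≤ ({b | S.Fam b ∧ (S.nm b : ℝ) ≤ X}.ncard : ℝ) := by linarith
  refine le_trans ?_ h5
  have h6 := slow_pow hg l Y hYo
  rw [← ht, hYX] at h6
  calc c / (2 * t * K₀ ^ l) * (X * g X) ≤ c / (2 * t * K₀ ^ l) * (X * (K₀ ^ l * g Y)) := by
        gcongr
    _ = c / 2 * (Y * g Y) := by
        rw [hY]
        field_simp

open Classical in
/-- **N_ANA** for an arbitrary predicate. -/
theorem n_anaG (hPOL : N_POL) {p : ℕ} {B B₀ k U Λ C : Type} [Field k] [Fintype k]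
    [Algebra (ZMod p) k] [AddCommGroup U] [Module k U] [AddCommGroup Λ] [Module k Λ]
    [AddCommGroup C] (S : Sys p B B₀ k U Λ C) (Bad : Finset B → Prop) (ψ : AddChar k ℂ)
    (g : ℝ → ℝ) (K : ℕ) (hS : HypW S ψ g K) (K' : ℝ) (hBr : Brun S K') (K₀ : ℝ)
    (hg : Slow g K₀) (c X₁ : ℝ) (hc : 0 < c) (hlow : ∀ X : ℝ, X₁ ≤ X → ∃ P : Finset B,
      c * (X * g X) ≤ ∑ b ∈ P.powerset with S.Fam b, Real.exp (-(S.nm b / X)))
    (θ : ℝ) (hθ : 0 ≤ θ) (hw : ∀ w : ℝ → ℝ, WF w → ∀ ε : ℝ, 0 < ε → ∃ X₀ : ℝ, ∀ X : ℝ, X₀ ≤ X →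
      ∀ P : Finset B, ∑ b ∈ P.powerset with (S.Fam b ∧ Bad b), w (S.nm b / X) ≤
        θ * ∑ b ∈ P.powerset with S.Fam b, w (S.nm b / X) + ε * (X * g X)) :
    ∃ Kc c' X₁' : ℝ, 0 < c' ∧ AnaG S Bad g θ Kc c' X₁' := by
  classical
  obtain ⟨c', X₁', hc', h2⟩ := secondW hS hg hc hlow
  refine ⟨Real.exp 1 * K, c', X₁', hc', fun X hX ↦ ⟨fin_fam S X _, firstW hS _ hX⟩, h2, ?_⟩
  intro η hη
  obtain ⟨K'', hK''0, hK''⟩ := n_shtW S ψ g K hS K' hBr
  have hKn : (0 : ℝ) ≤ K := Nat.cast_nonneg _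
  set δ : ℝ := min 1 (η / (4 * (θ * K'' + 1))) with hδ
  set ε₁ : ℝ := η / (4 * (θ * K + 1)) with hε₁
  have hd1 : 0 < θ * K'' + 1 := by positivity
  have hd2 : 0 < θ * K + 1 := by positivity
  have hδ0 : 0 < δ := lt_min one_pos (by positivity)
  have hδ1 : δ ≤ 1 := min_le_left _ _
  have hε0 : 0 < ε₁ := by positivity
  have hb1 : θ * (K'' * δ) ≤ η / 4 := by
    have h3 : δ ≤ η / (4 * (θ * K'' + 1)) := min_le_right _ _
    calc θ * (K'' * δ) = θ * K'' * δ := by ring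
      _ ≤ (θ * K'' + 1) * δ := mul_le_mul_of_nonneg_right (by linarith) hδ0.le
      _ ≤ (θ * K'' + 1) * (η / (4 * (θ * K'' + 1))) := mul_le_mul_of_nonneg_left h3 hd1.le
      _ = η / 4 := by field_simp
  have hb2 : θ * (ε₁ * K) ≤ η / 4 := by
    calc θ * (ε₁ * K) = θ * K * ε₁ := by ring
      _ ≤ (θ * K + 1) * ε₁ := mul_le_mul_of_nonneg_right (by linarith) hε0.le
      _ = η / 4 := by rw [hε₁]; field_simp
  obtain ⟨w, hwf, hw1, hw2, hw3⟩ := hPOL δ ε₁ hδ0 hε0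
  obtain ⟨X₂, hX₂⟩ := hK'' δ hδ0 hδ1
  obtain ⟨X₃, hX₃⟩ := hw w hwf (η / 4) (by positivity)
  refine ⟨max 1 (max X₂ X₃), fun X hX ↦ ?_⟩
  have hXo : 1 ≤ X := (le_max_left _ _).trans hX
  have hX2 : X₂ ≤ X := ((le_max_left _ _).trans (le_max_right _ _)).trans hX
  have hX3 : X₃ ≤ X := ((le_max_right _ _).trans (le_max_right _ _)).trans hX
  have hX0 : 0 < X := by linarith
  have hgX : 0 < g X := lt_of_lt_of_le one_pos (hg.one X)
  have hXg : 0 < X * g X := by positivity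
  have m1 := hX₂ X hX2 (S.upto X)
  have m2 := hX₃ X hX3 (S.upto X)
  have m3 := exp_boundW hS hX0 (S.upto X)
  have hnn : ∀ b : Finset B, 0 ≤ (S.nm b : ℝ) / X := fun b ↦ by positivity
  -- the bad ones
  have k1 : ({b | S.Fam b ∧ Bad b ∧ (S.nm b : ℝ) ≤ X}.ncard : ℝ) ≤
      ∑ b ∈ (S.upto X).powerset with (S.Fam b ∧ Bad b), w (S.nm b / X) := by
    have e1 : {b | S.Fam b ∧ Bad b ∧ (S.nm b : ℝ) ≤ X} =
        {b | (S.Fam b ∧ Bad b) ∧ (S.nm b : ℝ) ≤ X} := by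
      ext b
      simp only [Set.mem_ofPred_eq, and_assoc]
    rw [e1, ncard_fam S X _ _ (Finset.Subset.refl _), ← Finset.filter_filter]
    have e2 : ∀ F : Finset (Finset B), (∀ b ∈ F, (S.nm b : ℝ) ≤ X) →
        (F.card : ℝ) ≤ ∑ b ∈ F, w (S.nm b / X) := by
      intro F hF
      have := Finset.card_nsmul_le_sum F
        (fun b ↦ w (S.nm b / X)) 1 (fun b hb ↦ hw1 _ (hnn b) (by
          rw [div_le_one hX0]
          exact hF b hb))
      rwa [nsmul_eq_mul, mul_one] at this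
    refine (e2 _ fun b hb ↦ (Finset.mem_filter.mp hb).2).trans ?_
    refine Finset.sum_le_sum_of_subset_of_nonneg ?_ (fun b _ _ ↦ hwf.nonneg _ (hnn b))
    intro b hb
    simp only [Finset.mem_filter] at hb ⊢
    exact hb.1
  -- all
  have k2 : ∑ b ∈ (S.upto X).powerset with S.Fam b, w (S.nm b / X) ≤
      ({b | S.Fam b ∧ (S.nm b : ℝ) ≤ X}.ncard : ℝ) + K'' * δ * (X * g X) +
        ε₁ * (K * (X * g X)) := by
    have h3 : ∀ b ∈ (S.upto X).powerset.filter fun b ↦ S.Fam b, w (S.nm b / X) ≤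
        ((if (S.nm b : ℝ) ≤ X then (1 : ℝ) else 0) +
          (if X < S.nm b ∧ (S.nm b : ℝ) ≤ (1 + δ) * X then (1 : ℝ) else 0)) +
          ε₁ * Real.exp (-(S.nm b / X)) := by
      intro b _
      by_cases hb : (S.nm b : ℝ) ≤ X
      · rw [if_pos hb, if_neg (fun h ↦ absurd h.1 (not_lt.mpr hb)), add_zero]
        exact hw2 _ (hnn b) (((div_le_one hX0).mpr hb).trans (by linarith))
      · by_cases hb2 : (S.nm b : ℝ) ≤ (1 + δ) * X
        · rw [if_neg hb, if_pos ⟨not_le.mp hb, hb2⟩, zero_add]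
          exact hw2 _ (hnn b) ((div_le_iff₀ hX0).mpr hb2)
        · rw [if_neg hb, if_neg (fun h ↦ hb2 h.2), zero_add, zero_add]
          exact hw3 _ ((lt_div_iff₀ hX0).mpr (not_le.mp hb2))
    refine (Finset.sum_le_sum h3).trans ?_
    rw [Finset.sum_add_distrib, Finset.sum_add_distrib]
    refine add_le_add (add_le_add ?_ ?_) ?_
    · rw [Finset.sum_ite, Finset.sum_const_zero, add_zero, Finset.sum_const, nsmul_eq_mul, mul_one,
        Finset.filter_filter, ncard_fam S X _ _ (Finset.Subset.refl _)]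
    · refine le_trans ?_ m1
      rw [Finset.sum_ite, Finset.sum_const_zero, add_zero, Finset.sum_const, nsmul_eq_mul, mul_one]
      refine Nat.cast_le.mpr (Finset.card_le_card ?_)
      intro b hb
      have hb1 := Finset.mem_filter.mp hb
      exact Finset.mem_filter.mpr ⟨(Finset.mem_filter.mp hb1.1).1, hb1.2⟩
    · rw [← Finset.mul_sum]
      refine mul_le_mul_of_nonneg_left ?_ hε0.le
      refine le_trans ?_ m3
      exact Finset.sum_le_sum_of_subset_of_nonneg (Finset.filter_subset _ _)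
        (fun b _ _ ↦ (Real.exp_pos _).le)
  have k3 := mul_le_mul_of_nonneg_left k2 hθ
  have k4 : θ * (K'' * δ * (X * g X)) ≤ η / 4 * (X * g X) := by
    rw [← mul_assoc]
    exact mul_le_mul_of_nonneg_right hb1 hXg.le
  have k5 : θ * (ε₁ * (K * (X * g X))) ≤ η / 4 * (X * g X) := by
    have : θ * (ε₁ * (K * (X * g X))) = θ * (ε₁ * K) * (X * g X) := by ring
    rw [this]
    exact mul_le_mul_of_nonneg_right hb2 hXg.le
  have k6 : 0 ≤ η * (X * g X) := by positivity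
  have m2' : ∑ b ∈ (S.upto X).powerset with (S.Fam b ∧ Bad b), w (S.nm b / X) ≤
      θ * ∑ b ∈ (S.upto X).powerset with S.Fam b, w (S.nm b / X) + η / 4 * (X * g X) := by
    convert m2 using 1
  nlinarith [k1, m2', k3, k4, k5, k6]

end

end Pool.Agent.Helper42.WY
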