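import Pool.Agent.Helper87.PW.WMOMV
import Pool.Agent.Helper42.WY.NANAG

/-!
# Project WY: from the labels to the classes, for an arbitrary predicate (port of `Helper87/PW/WMOMV.lean`)
-/

set_option autoImplicit false

namespace Pool.Agent.Helper42.WY

open NumberField Polynomial Module IsDedekindDomain TensorProduct
open Pool.Agent.Helper51.RP Pool.Agent.Helper42.RD Pool.Agent.Helper42.PP Pool.Agent.Helper42.PP1
open Pool.Agent.Helper51.SigLeo Pool.Agent.Helper11.LE Pool.Agent.Helper11.PP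
open Pool.Agent.Helper17.PP (Sys)
open Pool.Agent.Helper42.PB
open Pool.Agent.Helper42.PW
open Pool.Agent.Helper38.ND
open Pool.Agent.Helper86.ND (sub_fin sub_card sub_card2)
open Pool.Agent.Helper79.PP (clp_eq clp_one clp_mul clp_pow clp_eq_one nice_val)
open Pool.Agent.Helper15.PP (gZ mem_gZ)
open Pool.Agent.Helper87.PW (coreV)

/-- `W_MOMV` for an arbitrary predicate. -/
theorem w_momG (hABS : N_ABS) (hCND : W_CND) (p : ℕ) [hpF : Fact p.Prime]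
    (L : IwasawaLog p ℂ_[p]) (K M K₁ M₁ : Type) [Field K]
    [NumberField K] [Field M] [NumberField M] [Field K₁] [NumberField K₁] [Field M₁]
    [NumberField M₁] [Algebra K M] [Algebra K K₁] [Algebra K M₁] [Algebra M M₁] [Algebra K₁ M₁]
    (ε : K₁) (δ : M ≃ₐ[K] M) (P : (ZMod p)[X]) [Fact (Irreducible P)]
    (hs : SitW p K M K₁ M₁ ε δ P)
    (B : Base p K M K₁ M₁ ε δ P) (V : Set (HeightOneSpectrum (𝓞 K)))
    (s0 : HeightOneSpectrum (𝓞 K) → ZMod p) (g : ℝ → ℝ) (K₀ : ℝ) (hslow : Slow g K₀)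
    (θ : ℝ) (hθ : 0 ≤ θ) (S₀ : Finset (HeightOneSpectrum (𝓞 K))) (A Bd : Set (ClP p K₁))
    (f : ClP p K₁ → ℕ) (hS₀ : S₀ ⊆ B.S) (hA : LocA p K ε S₀ A)
    (hAne : ∃ a : K₁ˣ, OmType p K ε (a : K₁) ∧ clp p a ∈ A) (hf : IsWt p K ε S₀ f)
    (hE : ∀ aτ : K₁ˣ, OmType p K ε (aτ : K₁) → clp p aτ ∈ A →
      ∃ (n : ℕ) (E : TauF n B) (Bad : Finset B.LP → Prop) (Kc c X₁ : ℝ), 0 < c ∧
        AnaG (sysB B E V s0 aτ) Bad g θ Kc c X₁ ∧
        ∀ a : K₁ˣ, clp p a ∈ Bd → OmType p K ε (a : K₁) → LocS p (up K₁ B.S) (a / aτ) →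
          Bad (B.lab a)) :
    MomV p K ε A f Bd θ := by
  classical
  have hLAB : V_LAB := Pool.Agent.Helper42.PB.v_lab
  have hp : p.Prime := hpF.out
  have := hs.gK
  have := hs.st2
  have := hs.gMK
  have hG2 : IsGalois K₁ M₁ := IsGalois.tower_top_of_isGalois K K₁ M₁
  have hcop := hs.c2
  have hTRF : E_TRF := Pool.Agent.Helper40.RD.e_trf
  have hTAU : D_TAU := Pool.Agent.Helper15.PP.d_tau Pool.Agent.Helper74.PP.p_lfi
  obtain ⟨F₀, hF₀, huq⟩ := hTAU p K₁ (up K₁ B.S) (up_finite B.S)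
    {a : K₁ˣ | OmType p K ε (a : K₁) ∧ clp p a ∈ A}
  have hF₀1 : ∀ τ : F₀, OmType p K ε ((τ : K₁ˣ) : K₁) := fun τ => (hF₀ τ τ.2).1
  have hne : Nonempty F₀ := by
    obtain ⟨a, ha, haA⟩ := hAne
    obtain ⟨τ, ⟨h2, -⟩, -⟩ := huq a ⟨ha, haA⟩
    exact ⟨⟨τ, h2⟩⟩
  have hE' : ∀ τ : F₀, ∃ (n : ℕ) (E : TauF n B) (Bad : Finset B.LP → Prop) (Kc c X₁ : ℝ), 0 < c ∧
      AnaG (sysB B E V s0 τ) Bad g θ Kc c X₁ ∧
      ∀ a : K₁ˣ, clp p a ∈ Bd → OmType p K ε (a : K₁) →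
        LocS p (up K₁ B.S) (a / (τ : K₁ˣ)) → Bad (B.lab a) := fun τ =>
    hE τ (hF₀1 τ) (hF₀ τ τ.2).2
  choose n E bad Kτ c X₁ hc hS hB using hE'
  have hL : ∀ τ : F₀, _ := fun τ => hLAB p ℂ_[p] L K M K₁ M₁ ε δ P hs B τ (n τ) (E τ)
    V s0 (hF₀1 τ)
  obtain ⟨Kc, c', X', hKc, hc', hcc, hX'⟩ := common (fun τ : F₀ => max K₀ (Kτ τ)) c X₁ hc
  obtain ⟨τ₀⟩ := hne
  have hne : Nonempty F₀ := ⟨τ₀⟩
  have hKc0 : Slow g Kc := slow_mono hslow ((le_max_left _ _).trans (hKc τ₀))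
  have hval : ∀ W : HeightOneSpectrum (𝓞 K₁), ∃ W' : HeightOneSpectrum (𝓞 M₁), Above W' W ∧
      ∀ x : K₁, ((p : ℤ) ∣ ordv W' (algebraMap K₁ M₁ x) ↔ (p : ℤ) ∣ ordv W x) := by
    intro W
    obtain ⟨W', hW'⟩ := exists_above' (E := M₁) W
    exact ⟨W', hW', (hTRF p K₁ M₁ hcop W' W hW').1⟩
  have hval1 : ∀ a : K₁ˣ, OmType p K ε (a : K₁) → ∀ v ∈ B.calP,
      ∀ W : HeightOneSpectrum (𝓞 K₁), Above W v →
      ((p : ℤ) ∣ ordv W (a : K₁) ↔ ordp p (B.Q v) a = 0) := by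
    intro a ha v hv W hW
    obtain ⟨W', hW', hx⟩ := hval W
    rw [← hx]
    exact ((hL τ₀).1 a ha).2.1 v hv W' (above_trans hW hW')
  have hval2 : ∀ a : K₁ˣ, OmType p K ε (a : K₁) → ∀ v ∉ B.S, v ∉ B.calP →
      ∀ W : HeightOneSpectrum (𝓞 K₁), Above W v → (p : ℤ) ∣ ordv W (a : K₁) := by
    intro a ha v hv hv' W hW
    obtain ⟨W', hW', hx⟩ := hval W
    rw [← hx]
    exact ((hL τ₀).1 a ha).2.2.1 v hv hv' W' (above_trans hW hW')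
  have hFT : ∀ τ : F₀, ∃ F : ℕ, 1 ≤ F ∧ ∀ a : K₁ˣ, OmType p K ε (a : K₁) →
      LocS p (up K₁ B.S) (a / (τ : K₁ˣ)) →
      f (clp p a) = F * ∏ q ∈ B.lab a, Ideal.absNorm q.1.1.asIdeal := by
    intro τ
    obtain ⟨F, hF1, hF2⟩ := hCND p K K₁ ε S₀ B.S B.calP B.Q τ f hS₀ (fun v hv => hv.1)
      (fun v hv => (B.Qa v hv).1) hf (hF₀1 τ)
    exact ⟨F, hF1, fun a ha hl => hF2 a (B.lab a) ha hl (hval1 a ha)
      (fun v hv hv' W hW => hval2 a ha v hv hv' W hW)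
      (Pool.Agent.Helper11.PP.mem_lab B ((hL τ₀).1 a ha).1)⟩
  choose FT hFT1 hFT2 using hFT
  have e1 : ∀ (τ : F₀) (X : ℝ), {b : {b : Finset B.LP // (sysB B (E τ) V s0 τ).Fam b} |
        ((∏ q ∈ b.1, Ideal.absNorm q.1.1.asIdeal : ℕ) : ℝ) ≤ X}.ncard =
      {b | (sysB B (E τ) V s0 τ).Fam b ∧ ((sysB B (E τ) V s0 τ).nm b : ℝ) ≤ X}.ncard :=
    fun τ X => sub_card (P := fun b => (sysB B (E τ) V s0 τ).Fam b)
      (f := (sysB B (E τ) V s0 τ).nm)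
  have e2 : ∀ (τ : F₀) (X : ℝ), {b : {b : Finset B.LP // (sysB B (E τ) V s0 τ).Fam b} |
        b ∈ {b : {b : Finset B.LP // (sysB B (E τ) V s0 τ).Fam b} |
          bad τ b.1} ∧
        ((∏ q ∈ b.1, Ideal.absNorm q.1.1.asIdeal : ℕ) : ℝ) ≤ X}.ncard =
      {b | (sysB B (E τ) V s0 τ).Fam b ∧ bad τ b ∧
        ((sysB B (E τ) V s0 τ).nm b : ℝ) ≤ X}.ncard :=
    fun τ X => sub_card2 (P := fun b => (sysB B (E τ) V s0 τ).Fam b)
      (Q := fun b => bad τ b) (f := (sysB B (E τ) V s0 τ).nm)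
  exact coreV B hABS S₀ hS₀ A hA f F₀ hne (fun c hc => hF₀ c hc) (fun a h1 h2 => huq a ⟨h1, h2⟩)
    (fun τ b => (sysB B (E τ) V s0 τ).Fam b)
    (fun τ b => bad τ b)
    (fun τ a ha hl => ((hL τ).1 a ha).2.2.2 hl)
    (fun τ b hb => (hL τ).2.1 b hb)
    (fun τ a a' ha ha' hl hl' hlab => (hL τ).2.2.1 a a' ha ha' hl hl' hlab)
    Bd (fun τ a hcB ha hl => hB τ a hcB ha hl) FT hFT1 hFT2
    g Kc c' X' θ hc' hθ hKc0
    (fun τ X hX => by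
      obtain ⟨h1, h2⟩ := (hS τ).1 X hX
      refine ⟨sub_fin h1, ?_⟩
      rw [e1]
      refine h2.trans ?_
      refine mul_le_mul_of_nonneg_right ((le_max_right _ _).trans (hKc τ)) ?_
      exact mul_nonneg hX.le (zero_le_one.trans (hslow.one X)))
    (fun τ X hX hX1 => by
      rw [e1]
      refine le_trans ?_ ((hS τ).2.1 X hX ((hX' τ).trans hX1))
      refine mul_le_mul_of_nonneg_right (hcc τ) ?_
      exact mul_nonneg hX.le (zero_le_one.trans (hslow.one X)))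
    (fun η hη => by
      have h1 : ∀ τ : F₀, _ := fun τ => (hS τ).2.2 η hη
      choose X₀ hX₀ using h1
      refine ⟨∑ τ, |X₀ τ|, fun τ X hX => ?_⟩
      rw [e1, e2]
      exact hX₀ τ X (((le_abs_self _).trans (Finset.single_le_sum (f := fun τ => |X₀ τ|)
        (fun i _ => abs_nonneg _) (Finset.mem_univ τ))).trans hX))

end Pool.Agent.Helper42.WY
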