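import Pool.Agent.Helper42.PW.Defs3
import Pool.Agent.Helper50.PPB.BKUM

/-!
# Project WY: the Kummer generator of an arbitrary base character (no condition at the primes above `p`)
-/

set_option autoImplicit false

namespace Pool.Agent.Helper42.WY

open NumberField Polynomial Module IsDedekindDomain
open Pool.Agent.Helper51.RP Pool.Agent.Helper42.RD Pool.Agent.Helper11.LE Pool.Agent.Helper11.PP
open Pool.Agent.Helper38.FD (Chr CutsOut isGalois_of_cutsOut exists_faithful exists_lift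
  exists_restricts Restricts fix_sup pow_card_desc free_of_splits)
open Pool.Agent.Helper42.PP1 (SitW)
open Pool.Agent.Helper42.PB (SitB)
open Pool.Agent.Helper50.PPB

/-- **Y_KUM** (`W_KUM` without the condition that the primes above `p` split completely in the field `J` of `ψ₀^p`;
the weak `SitB`). -/
def Y_KUM : Prop :=
  ∀ (p : ℕ) [Fact p.Prime] (K M K₁ M₁ : Type) [Field K] [NumberField K] [Field M] [NumberField M]
    [Field K₁] [NumberField K₁] [Field M₁] [NumberField M₁] [Algebra K M] [Algebra K K₁]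
    [Algebra K M₁] [Algebra M M₁] [Algebra K₁ M₁] (ε : K₁) (δ : M ≃ₐ[K] M) (P : (ZMod p)[X]),
    SitW p K M K₁ M₁ ε δ P →
  ∀ (j₁ : M₁ →+* AlgebraicClosure K) (E₁ : IntermediateField K (AlgebraicClosure K)),
    (∀ x : K, j₁ (algebraMap K M₁ x) = algebraMap K (AlgebraicClosure K) x) →
    (∀ y, y ∈ E₁ ↔ ∃ x, j₁ x = y) →
  ∀ εk : ℂ_[p]ˣ, IsPrimitiveRoot εk p →
  ∀ (ψ₀ : Chr K (AlgebraicClosure K) ℂ_[p]) (F₀ : IntermediateField K (AlgebraicClosure K)),
    CutsOut ψ₀ F₀ → (∃ l : ℕ, finrank K F₀ = p ^ l) →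
  ∀ (J M₂ : IntermediateField K (AlgebraicClosure K)) [NumberField J] [NumberField M₂]
    [Algebra M M₂] [Algebra K₁ M₂] [Algebra M₁ M₂] [Algebra J M₂],
    (∀ x : M, ((algebraMap M M₂ x : M₂) : AlgebraicClosure K) = j₁ (algebraMap M M₁ x)) →
    (∀ x : K₁, ((algebraMap K₁ M₂ x : M₂) : AlgebraicClosure K) = j₁ (algebraMap K₁ M₁ x)) →
    (∀ x : M₁, ((algebraMap M₁ M₂ x : M₂) : AlgebraicClosure K) = j₁ x) →
    (∀ x : J, ((algebraMap J M₂ x : M₂) : AlgebraicClosure K) = x) →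
    CutsOut (ψ₀ ^ p) J → M₂ = E₁ ⊔ J →
  ∃ (a₀ : (M₂)ˣ) (s₀ : AlgebraicClosure K), SitB p K M K₁ M₁ J M₂ ε δ P a₀ ∧ s₀ ∈ M₂ ⊔ F₀ ∧
    s₀ ^ p = ((a₀ : M₂) : AlgebraicClosure K) ∧
    ∀ g : AlgebraicClosure K ≃ₐ[K] AlgebraicClosure K, (∀ x ∈ M₂, g x = x) → ∀ i : ℕ,
      g s₀ = j₁ (algebraMap K₁ M₁ ε) ^ i * s₀ → ψ₀ g = εk ^ i

theorem y_kum (h1 : Pool.Agent.Helper77.PPB.B_KU1) (h3 : Pool.Agent.Helper77.PPB.B_KU4)
    (h4 : Pool.Agent.Helper77.PPB.B_KU5) : Y_KUM := by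
  intro p _ K M K₁ M₁ _ _ _ _ _ _ _ _ _ _ _ _ _ ε δ P hS j₁ E₁ hj hE εk hεk ψ₀ F₀ hF₀ hdeg
    J M₂ _ _ _ _ _ _ a1 a2 a3 a4 hJ hM₂
  have gMK := hS.gMK
  obtain ⟨l, hl⟩ := hdeg
  have hpos : 0 < p := (Fact.out : p.Prime).pos
  have fF₀ : FiniteDimensional K F₀ := FiniteDimensional.of_finrank_pos
    (by rw [hl]; exact pow_pos hpos l)
  have nF₀ : NumberField F₀ := NumberField.of_module_finite K F₀
  have gF₀ : IsGalois K F₀ := isGalois_of_cutsOut hF₀
  have gJ : IsGalois K J := isGalois_of_cutsOut hJ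
  have fJ : FiniteDimensional K J := Module.Finite.of_restrictScalars_finite ℚ K J
  have hJF : J ≤ F₀ := by
    refine le_of_fix J F₀ fun g hg => (hJ g).1 ?_
    rw [MonoidHom.pow_apply, (hF₀ g).2 hg, one_pow]
  have hJM : J ≤ M₂ := by rw [hM₂]; exact le_sup_right
  have hEM : E₁ ≤ M₂ := by rw [hM₂]; exact le_sup_left
  -- the field `E₁`
  let j : M₁ →ₐ[K] AlgebraicClosure K := { j₁ with commutes' := hj }
  have hjE : E₁ = j.fieldRange := by
    ext y
    rw [hE, AlgHom.mem_fieldRange]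
    rfl
  have gE₁ : IsGalois K E₁ := by rw [hjE]; exact galois_range j
  have gM₂ : IsGalois K M₂ := by
    have n1 : Normal K E₁ := gE₁.to_normal
    have n2 : Normal K J := gJ.to_normal
    have n3 : Normal K ((E₁ ⊔ J : IntermediateField K (AlgebraicClosure K))) := inferInstance
    have n4 : Normal K M₂ := by rw [hM₂]; exact n3
    exact { to_isSeparable := inferInstance, to_normal := n4 }
  have hst1 := hS.st2
  -- the root of unity
  have hε₂ : IsPrimitiveRoot (algebraMap K₁ M₂ ε) p :=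
    hS.prim.map_of_injective (algebraMap K₁ M₂).injective
  have hεE : ((algebraMap K₁ M₂ ε : M₂) : AlgebraicClosure K) ∈ E₁ := by
    rw [hE, a2]; exact ⟨_, rfl⟩
  -- commuting
  have hcomm : ∀ (g h : AlgebraicClosure K ≃ₐ[K] AlgebraicClosure K), ∀ x ∈ M₂ ⊔ F₀,
      g (h x) = h (g x) := by
    intro g h x hx
    have c1 := comm_sup p K M K₁ M₁ ε δ P hS j₁ E₁ hj hE g h
    have c2 := comm_chr hJ g h
    have c3 := comm_chr hF₀ g h
    have c4 : ∀ x ∈ M₂, ((h * g)⁻¹ * (g * h)) x = x := by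
      rw [hM₂]; exact fix_sup _ c1 c2
    have c5 := fix_sup _ c4 c3 x hx
    have c6 : (h * g) (((h * g)⁻¹ * (g * h)) x) = (h * g) x := by rw [c5]
    have c7 : (h * g) (((h * g)⁻¹ * (g * h)) x) = (g * h) x := by
      show ((h * g) * ((h * g)⁻¹ * (g * h))) x = _
      rw [mul_inv_cancel_left]
    rw [c7] at c6
    exact c6
  have hpp : ∀ g, (∀ x ∈ M₂, g x = x) → ψ₀ g ^ p = 1 := by
    intro g hg
    rw [← MonoidHom.pow_apply]
    exact (hJ g).2 fun x hx => hg x (hJM hx)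
  obtain ⟨a₀, s₀, hs1, hs2, hs3⟩ := h1 p K M₂ F₀ ψ₀ hF₀ hpp (algebraMap K₁ M₂ ε) hε₂ εk hεk
  have hpow : ∃ l : ℕ, ψ₀ ^ p ^ l = 1 := by
    refine ⟨l, ?_⟩
    ext1 g
    rw [MonoidHom.pow_apply, ← hl, pow_card_desc hF₀ g]; rfl
  refine ⟨a₀, s₀, ?_, hs1, hs2, ?_⟩
  · exact
    { sit := hS
      t1 := IsScalarTower.of_algebraMap_eq fun x => Subtype.ext (by rw [a3, hj]; rfl)
      t2 := IsScalarTower.of_algebraMap_eq fun x => Subtype.ext (by rw [a3, a1])
      t3 := IsScalarTower.of_algebraMap_eq fun x => Subtype.ext (by rw [a3, a2])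
      t4 := IsScalarTower.of_algebraMap_eq fun x => Subtype.ext (by rw [a4]; rfl)
      gJ := gJ
      gM₂ := gM₂
      cycJ := cyc_of_cutsOut hJ
      degJ := by
        have hd := IntermediateField.finrank_dvd_of_le_right hJF
        rw [hl] at hd
        obtain ⟨m, -, hm⟩ := (Nat.dvd_prime_pow (Fact.out : p.Prime)).1 hd
        exact ⟨m, hm⟩
      lin₂ := by
        intro g hg1 hg2
        obtain ⟨g', hg'⟩ := exists_lift g
        have b1 : ∀ x ∈ E₁, g' x = x := by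
          intro x hx
          obtain ⟨y, rfl⟩ := (hE x).1 hx
          have := hg' (algebraMap M₁ M₂ y)
          rw [hg1] at this
          have e : algebraMap M₂ (AlgebraicClosure K) (algebraMap M₁ M₂ y) = j₁ y := a3 y
          rw [e] at this
          exact this
        have b2 : ∀ x ∈ J, g' x = x := by
          intro x hx
          have := hg' (algebraMap J M₂ ⟨x, hx⟩)
          rw [hg2] at this
          have e : algebraMap M₂ (AlgebraicClosure K) (algebraMap J M₂ ⟨x, hx⟩) = x := a4 ⟨x, hx⟩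
          rw [e] at this
          exact this
        have b3 : ∀ x ∈ M₂, g' x = x := by rw [hM₂]; exact fix_sup _ b1 b2
        ext x
        have := hg' x
        exact this.symm.trans (b3 x x.2)
      om := h3 p K M₂ F₀ hcomm (algebraMap K₁ M₂ ε) hε₂ a₀ s₀ hs1 hs2
      cyc := by
        intro σ hσ hσ1 c hc
        refine h4 p K E₁ J M₂ hM₂ ψ₀ hJ hpow (algebraMap K₁ M₂ ε) hε₂ hεE εk a₀ s₀ hs2 hs3 σ
          ?_ hσ1 c hc
        intro x hx
        obtain ⟨y, hy⟩ := (hE _).1 hx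
        have e : x = algebraMap M₁ M₂ y := Subtype.ext (by rw [a3, hy])
        rw [e, hσ] }
  · intro g hg i hi
    refine hs3 g hg i ?_
    rw [a2]; exact hi

end Pool.Agent.Helper42.WY
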