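import Pool.Agent.Helper42.PW.Cls1
import Pool.Agent.Helper38.FW.Main
import Pool.Agent.Helper38.WY.Goals4
import Pool.Agent.Helper42.WY.KUM
import Pool.Agent.Helper42.WY.ASMX

/-!
# Project WY (MP_fc6b1e_nt): one class, `χ₀ ≠ 1`, no conditions above `p`
-/

set_option autoImplicit false

namespace Pool.Agent.Helper42.WY

open NumberField Polynomial Module IsDedekindDomain TensorProduct Pool.Agent.Helper51.SigLeo
open Pool.Agent.Helper51.RP Pool.Agent.Helper42.RD Pool.Agent.Helper11.LE Pool.Agent.Helper11.PP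
open Pool.Agent.Helper38.FD (Chr CutsOut LeopoldtFor IsOrdinary isGalois_of_cutsOut
  free_of_splits splits_of_free ordv_of_unram exists_cutsOut exists_faithful fix_sup pow_card_desc
  Restricts)
open Pool.Agent.Helper42.PP (LocS)
open Pool.Agent.Helper42.PP1 (SitW NTV)
open Pool.Agent.Helper42.PB (SitB)
open Pool.Agent.Helper77.PPB
open Pool.Agent.Helper22.PP (ram_sup le_of_fix)
open Pool.Agent.Helper42.PW (eq_one_of_pow)
open Pool.Agent.Helper38.WY

/-- The facts available for the application of a moment theorem. -/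
structure BunY (p : ℕ) [Fact p.Prime] {K : Type} [Field K] [NumberField K]
    (K₁ M F₀ M₁ J M₂ : IntermediateField K (AlgebraicClosure K)) [NumberField K₁] [NumberField M]
    [NumberField M₁] [NumberField J] [NumberField M₂] [Algebra M M₁] [Algebra K₁ M₁] [Algebra M M₂]
    [Algebra K₁ M₂] [Algebra M₁ M₂] [Algebra J M₂] (ε₁ : K₁)
    (χM : (M ≃ₐ[K] M) →* ℂ_[p]ˣ) (δ : M ≃ₐ[K] M) (Φ : ℤ_[p][X]) (P : (ZMod p)[X]) (a₀ : (M₂)ˣ) :
    Prop where
  v1 : ∀ x : M, ((algebraMap M M₁ x : M₁) : AlgebraicClosure K) = x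
  v2 : ∀ x : K₁, ((algebraMap K₁ M₁ x : M₁) : AlgebraicClosure K) = x
  w2 : ∀ x : K₁, ((algebraMap K₁ M₂ x : M₂) : AlgebraicClosure K) = x
  leM : M ≤ M₁
  leK : K₁ ≤ M₁
  eq2 : M₂ = M₁ ⊔ J
  copK : (finrank K K₁).Coprime p
  degJ : ∃ l : ℕ, finrank K J = p ^ l
  neJ : p ^ 2 ≤ finrank K F₀ → J ≠ ⊥
  sit : SitB p K M K₁ M₁ J M₂ ε₁ δ P a₀
  ord : orderOf δ = finrank K M
  phi : PhiData p (finrank K M) ((χM δ : ℂ_[p]ˣ) : ℂ_[p]) Φ P
  tor : TorOK P δ
  ntv : NTV p M₁ ε₁ δ P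

/-- One class, `χ₀ ≠ 1`, from a moment theorem (`Q` is a property of the set of the bad classes). -/
theorem y_cls1 (hKU : Y_KUM) (hSW : B_SWT) (hNT : B_NTV)
    (hGL : Z_GL1) (hPH : S_PHI) (hNS : S_NSP) (hFR : Pool.Agent.Helper76.RD.E_FRB)
    (p : ℕ) [hpF : Fact p.Prime] (K : Type) [Field K] [NumberField K]
    (ιinf : AlgebraicClosure K →+* ℂ) (ιp : AlgebraicClosure K →+* ℂ_[p]) (Lg : IwasawaLog p ℂ_[p])
    (K₁ : IntermediateField K (AlgebraicClosure K)) [NumberField K₁] (ε : AlgebraicClosure K)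
    (hε : IsPrimitiveRoot ε p) (hK₁ : K₁ = IntermediateField.adjoin K {ε}) (ε₁ : K₁)
    (hε₁ : (ε₁ : AlgebraicClosure K) = ε) (εk : ℂ_[p]ˣ) (hεk : IsPrimitiveRoot εk p)
    (nf : ClP p K₁ → IntermediateField K (AlgebraicClosure K))
    (cf : ClP p K₁ → Chr K (AlgebraicClosure K) ℂ_[p])
    (n1 : ∀ c ∈ BSet p K ε₁, nf c ∈ CycN p K ∧
      ∀ a : (K₁)ˣ, clp p a = c → Gen p (K₁.val : K₁ →+* AlgebraicClosure K) a (nf c))
    (n5 : ∀ c ∈ BSet p K ε₁, CutsOut (cf c) (nf c) ∧ ∀ a : (K₁)ˣ, clp p a = c →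
      ∀ s : AlgebraicClosure K, s ^ p = (K₁.val : K₁ →+* AlgebraicClosure K) (a : K₁) →
      ∀ g : AlgebraicClosure K ≃ₐ[K] AlgebraicClosure K,
        (∀ x : K₁, g ((K₁.val : K₁ →+* AlgebraicClosure K) x) =
          (K₁.val : K₁ →+* AlgebraicClosure K) x) → ∀ i : ℕ,
        g s = (K₁.val : K₁ →+* AlgebraicClosure K) ε₁ ^ i * s → cf c g = εk ^ i)
    (S : Set (K →+* ℂ)) (hcl : PlaceClosed (TSet ιinf ιp S))
    (M F₀ : IntermediateField K (AlgebraicClosure K)) (χ₀ ψ₀ : Chr K (AlgebraicClosure K) ℂ_[p])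
    [FiniteDimensional K M] (hχ : CutsOut χ₀ M) (hcop : (finrank K M).Coprime p)
    (hω : ∃ (g : AlgebraicClosure K ≃ₐ[K] AlgebraicClosure K) (r : ℕ),
      (∀ ξ : AlgebraicClosure K, ξ ^ p = 1 → g ξ = ξ ^ r) ∧
      ‖((χ₀ g : ℂ_[p]ˣ) : ℂ_[p]) - r‖ = 1)
    (hne : M ≠ ⊥)
    (hψ : CutsOut ψ₀ F₀) (hF : ∃ l : ℕ, finrank K F₀ = p ^ l)
    (Q : Set (ClP p K₁) → Prop)
    (hMB : ∀ (M₁ J M₂ : IntermediateField K (AlgebraicClosure K)) [NumberField M]
      [NumberField M₁] [NumberField J] [NumberField M₂] [Algebra M M₁] [Algebra K₁ M₁]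
      [Algebra M M₂] [Algebra K₁ M₂] [Algebra M₁ M₂] [Algebra J M₂] [IsGalois K M]
      (χM : (M ≃ₐ[K] M) →* ℂ_[p]ˣ) (δ : M ≃ₐ[K] M) (Φ : ℤ_[p][X]) (P : (ZMod p)[X])
      (a₀ : (M₂)ˣ), (∀ g, χ₀ g = χM (AlgEquiv.restrictNormalHom M g)) →
      BunY p K₁ M F₀ M₁ J M₂ ε₁ χM δ Φ P a₀ →
      Q (BdX (TSet ιinf ιp S) P δ ε₁ a₀)) :
    ClsX ιinf ιp Lg ε₁ nf cf S F₀ χ₀ ψ₀ Q := by
  classical
  have hp : p.Prime := hpF.out
  have hgM : IsGalois K M := isGalois_of_cutsOut hχ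
  have hnM : NumberField M := NumberField.of_module_finite K M
  obtain ⟨χM, hinj, hχM'⟩ := exists_faithful hχ
  have hres : ∀ (X : IntermediateField K (AlgebraicClosure K)) [IsGalois K X]
      (g : AlgebraicClosure K ≃ₐ[K] AlgebraicClosure K),
      Restricts (algebraMap X (AlgebraicClosure K)) g (AlgEquiv.restrictNormalHom X g) :=
    fun X _ g x ↦ (AlgEquiv.restrictNormal_commutes g X x).symm
  have hχM : ∀ g, χ₀ g = χM (AlgEquiv.restrictNormalHom M g) := fun g => hχM' g _ (hres M g)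
  have hinj' : Function.Injective ((Units.coeHom ℂ_[p]).comp χM) := by
    intro x y hxy
    apply hinj
    exact Units.ext hxy
  have hcyc : IsCyclic (M ≃ₐ[K] M) := isCyclic_of_injective_ringHom _ hinj'
  obtain ⟨δ, hδ⟩ := IsCyclic.exists_generator (α := (M ≃ₐ[K] M))
  have horder : orderOf δ = finrank K M := by
    rw [orderOf_eq_card_of_forall_mem_zpowers hδ, IsGalois.card_aut_eq_finrank]
  have hm0 : 0 < finrank K M := finrank_pos
  have hprim : IsPrimitiveRoot ((χM δ : ℂ_[p]ˣ) : ℂ_[p]) (finrank K M) := by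
    have h4 : orderOf ((χM δ : ℂ_[p]ˣ) : ℂ_[p]) = finrank K M := by
      rw [← horder]
      exact orderOf_injective ((Units.coeHom ℂ_[p]).comp χM) hinj' δ
    rw [← h4]
    exact IsPrimitiveRoot.orderOf _
  have hlt : 1 < finrank K M := by
    by_contra hle
    have h9 : finrank K M = 1 := by omega
    exact hne (IntermediateField.finrank_eq_one_iff.1 h9)
  obtain ⟨Φ, P, hPhi⟩ := hPH p ℂ_[p] (finrank K M) ((χM δ : ℂ_[p]ˣ) : ℂ_[p]) hcop hlt hprim
  have hnsp := hNS p ℂ_[p] K M (finrank K M) δ _ Φ P hPhi horder rfl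
  -- the tower
  obtain ⟨K₁', M₁, _, hnM₁, _, _, ε₁', t1, t2, v1, v2, e1, e2, e3, hC, hSit⟩ :=
    hSW p K M hcop ε hε δ P horder hPhi.irr hPhi.dvdP hnsp
  obtain rfl : K₁' = K₁ := by rw [e2, hK₁]
  obtain rfl : ε₁' = ε₁ := Subtype.ext (by rw [e1, hε₁])
  have hle1 : K₁' ≤ M₁ := by rw [e3]; exact le_sup_right
  have hleM : M ≤ M₁ := by rw [e3]; exact le_sup_left
  -- the field `J`
  obtain ⟨J, hfJ, hcJ, hJF, hdJ, -, hJne⟩ := exists_J p hψ hF
  have hnJ : NumberField J := NumberField.of_module_finite K J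
  obtain ⟨l₀, hl₀⟩ := id hF
  have hfF : FiniteDimensional K F₀ := FiniteDimensional.of_finrank_pos (by
    rw [hl₀]; exact pow_pos hp.pos l₀)
  have hnF : NumberField F₀ := NumberField.of_module_finite K F₀
  have hgF : IsGalois K F₀ := isGalois_of_cutsOut hψ
  have hgJ : IsGalois K J := isGalois_of_cutsOut hcJ
  have hgM₁ : IsGalois K M₁ := hSit.gMK
  have hfM₁ : FiniteDimensional K M₁ := Module.Finite.of_restrictScalars_finite ℚ K M₁
  obtain ⟨M₂, hM₂⟩ : ∃ M₂ : IntermediateField K (AlgebraicClosure K), M₂ = M₁ ⊔ J := ⟨_, rfl⟩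
  have hfM₂ : FiniteDimensional K M₂ := by
    rw [hM₂]; exact IntermediateField.finiteDimensional_sup M₁ J
  have hnM₂ : NumberField M₂ := NumberField.of_module_finite K M₂
  have hle2 : M₁ ≤ M₂ := by rw [hM₂]; exact le_sup_left
  have hleJ : J ≤ M₂ := by rw [hM₂]; exact le_sup_right
  let A1 : Algebra M M₂ := (IntermediateField.inclusion (hleM.trans hle2)).toRingHom.toAlgebra
  let A2 : Algebra K₁' M₂ := (IntermediateField.inclusion (hle1.trans hle2)).toRingHom.toAlgebra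
  let A3 : Algebra M₁ M₂ := (IntermediateField.inclusion hle2).toRingHom.toAlgebra
  let A4 : Algebra J M₂ := (IntermediateField.inclusion hleJ).toRingHom.toAlgebra
  obtain ⟨a₀, s₀, hB, m0, p0, r0⟩ := hKU p K M K₁' M₁ ε₁' δ P hSit
    (M₁.val : M₁ →+* AlgebraicClosure K) M₁ (fun x => rfl)
    (fun y => ⟨fun hy => ⟨⟨y, hy⟩, rfl⟩, by rintro ⟨x, rfl⟩; exact x.2⟩) εk hεk ψ₀ F₀ hψ hF
    J M₂ (fun x => (v1 x).symm) (fun x => (v2 x).symm) (fun x => rfl) (fun x => rfl) hcJ hM₂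
  have hval₁ : (M₁.val : M₁ →+* AlgebraicClosure K) (algebraMap K₁' M₁ ε₁') = ε₁' := v2 ε₁'
  obtain ⟨hTor, hNTV⟩ := hNT p K M K₁' M₁ v1 v2 ε₁' δ P hSit χM Φ horder hPhi (by
    obtain ⟨g, r, h4, h5⟩ := hω
    exact ⟨g, r, h4, by rw [← hχM g]; exact h5⟩)
  have hgK : IsGalois K K₁' := hSit.gK
  have hcopK : (finrank K K₁').Coprime p := by
    have h1 := Pool.Agent.Helper14.RD.finrank_dvd_pred p K K₁' ε₁' hC.prim hC.gen
    exact Nat.Coprime.coprime_dvd_left h1 ((Nat.coprime_self_sub_left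
      (Fact.out : p.Prime).one_le).2 (Nat.coprime_one_left p))
  have hcopM₁ : (finrank K M₁).Coprime p := by
    have h1 := Module.finrank_mul_finrank K K₁' M₁
    rw [← h1]
    exact Nat.Coprime.mul_left hcopK hSit.c2
  have hbun : BunY p K₁' M F₀ M₁ J M₂ ε₁' χM δ Φ P a₀ :=
    { v1 := v1, v2 := v2, w2 := fun x => rfl, leM := hleM, leK := hle1, eq2 := hM₂
      copK := hcopK, degJ := hdJ, neJ := hJne, sit := hB, ord := horder, phi := hPhi
      tor := hTor, ntv := hNTV }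
  have hmom := hMB M₁ J M₂ χM δ Φ P a₀ hχM hbun
  refine ⟨_, hmom, ?_⟩
  intro c hc hv hcB l n hpn
  obtain ⟨v₀, hv1, hv2⟩ := hv
  obtain ⟨hc1, a, hac, hom⟩ := hc
  have hcBS : c ∈ BSet p K ε₁' := ⟨hc1, a, hac, hom⟩
  obtain ⟨hNc, hgen⟩ := n1 c hcBS
  obtain ⟨hcut, hrel⟩ := n5 c hcBS
  have hgN : IsGalois K (nf c) := hNc.2
  have hfN : FiniteDimensional K (nf c) := FiniteDimensional.of_finrank_pos (by
    rw [hNc.1]; exact hp.pos)
  have hnN : NumberField (nf c) := NumberField.of_module_finite K (nf c)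
  have hnB : NumberField (⊥ : IntermediateField K (AlgebraicClosure K)) :=
    NumberField.of_module_finite K _
  have hgB : IsGalois K (⊥ : IntermediateField K (AlgebraicClosure K)) := inferInstance
  have D : Dat p K₁' M₁ J M₂ F₀ (nf c) ε₁' εk ψ₀ (cf c) a₀ s₀ a v₀ :=
    { KM := fun x => rfl
      le1 := hle1
      eq2 := hM₂
      leJ := hJF
      prim := hC.prim
      primk := hεk
      cop := hcopM₁
      cut0 := hψ
      cutJ := hcJ
      cutN := hcut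
      degN := hNc.1
      deg0 := hF
      mem0 := m0
      pow0 := p0
      rel0 := by
        intro g hg i hi
        exact r0 g hg i (by rw [hval₁]; exact hi)
      gen := hgen a hac
      rel := fun s hs g hg i hi => hrel a hac s hs g (fun x => hg _ x.2) i hi
      ram := hv1
      nram := hv2 }
  obtain ⟨-, -, -, c4⟩ := comp_props (Pool.Agent.Helper38.FW.comp_bot (p := p) M F₀ (nf c))
  obtain ⟨g, hg1, hg2⟩ := D.exg ⊥ (c4 v₀ hv1)
  obtain ⟨-, q2, q3⟩ := D.psi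
  have hψg : (ψ₀ * cf c) g ≠ 1 := by
    rw [MonoidHom.mul_apply, (hψ g).2 fun x hx => hg1 x ((le_sup_left : F₀ ≤ F₀ ⊔ ⊥) hx), one_mul]
    exact hg2
  -- the power `n`
  have hpw : ∀ g', (∀ x ∈ J, g' x = x) → ((ψ₀ * cf c) g') ^ n = 1 → (ψ₀ * cf c) g' = 1 :=
    fun g' hg' h1 => eq_one_of_pow hp hpn h1 (q3 g' hg')
  obtain ⟨l₁, hl₁⟩ := q2
  -- the character
  have hχl : ∀ g, (χ₀ ^ p ^ l) g = (χM ^ p ^ l) (AlgEquiv.restrictNormalHom M g) := by
    intro g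
    rw [MonoidHom.pow_apply, MonoidHom.pow_apply, hχM]
  have hcardM : Nat.card (M ≃ₐ[K] M) = finrank K M := IsGalois.card_aut_eq_finrank K M
  have hinjl : Function.Injective (χM ^ p ^ l) := by
    rw [injective_iff_map_eq_one]
    intro x hx
    rw [MonoidHom.pow_apply, ← map_pow] at hx
    have h5 : x ^ p ^ l = 1 := hinj (by rw [hx, map_one])
    have h6 : x ^ finrank K M = 1 := by rw [← hcardM]; exact pow_card_eq_one'
    have h7 := Nat.dvd_gcd (orderOf_dvd_of_pow_eq_one h6) (orderOf_dvd_of_pow_eq_one h5)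
    rw [(hcop.pow_right l : (finrank K M).gcd (p ^ l) = 1)] at h7
    exact orderOf_eq_one_iff.1 (Nat.dvd_one.1 h7)
  have hPhil : PhiData p (finrank K M) (((χM ^ p ^ l) δ : ℂ_[p]ˣ) : ℂ_[p]) Φ P := by
    rw [MonoidHom.pow_apply, Units.val_pow_eq_pow_val]
    exact Pool.Agent.Helper74.RD.phi_pow hFR hPhi l
  have hom2 : OmType p K (algebraMap K₁' M₂ ε₁')
      ((a₀ * Units.map (algebraMap K₁' M₂ : K₁' →* M₂) a : (M₂)ˣ) : M₂) := by
    have t3 : IsScalarTower K K₁' M₂ := IsScalarTower.of_algebraMap_eq fun x => rfl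
    exact om_both hp hC.prim a.ne_zero hB.om hom
  have hql : ((ψ₀ * cf c) ^ n) ^ p ^ l₁ = 1 := by
    refine MonoidHom.ext fun g' => ?_
    have h := DFunLike.congr_fun hl₁ g'
    rw [MonoidHom.pow_apply] at h
    rw [MonoidHom.pow_apply, MonoidHom.pow_apply, ← pow_mul, mul_comm, pow_mul, h]
    exact one_pow n
  refine hGL p K ιinf ιp Lg S hcl M M₁ J M₂ (fun x => rfl) hleM hM₂ hcopM₁ hdJ
    (χM ^ p ^ l) hinjl δ Φ P horder hPhil hTor (χ₀ ^ p ^ l) ((ψ₀ * cf c) ^ n) hχl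
    ⟨l₁, hql⟩
    (fun g' hg' => by
      rw [MonoidHom.pow_apply, ← pow_mul, mul_comm, pow_mul, q3 g' hg', one_pow])
    ⟨g, fun x hx => hg1 x ((le_sup_of_le_left hJF : J ≤ F₀ ⊔ ⊥) hx), ?_⟩
    (algebraMap K₁' M₂ ε₁') (a₀ * Units.map (algebraMap K₁' M₂ : K₁' →* M₂) a)
    (hC.prim.map_of_injective (algebraMap K₁' M₂).injective) (hle1 ε₁'.2) hom2
    (D.npw g (fun x hx => hg1 x ((le_sup_left : F₀ ≤ F₀ ⊔ ⊥) hx)) hg2)
    (fun s hs g' hg' h1 => D.aut s hs g' hg' (hpw g' (fun x hx => hg' x (hleJ hx)) (by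
      rw [← MonoidHom.pow_apply]; exact h1)))
    (by
      intro x hx
      by_contra hxp
      exact hcB ⟨x, a, hac, hx, hxp⟩)
  rw [MonoidHom.pow_apply]
  intro h1
  exact hψg (hpw g (fun x hx => hg1 x ((le_sup_of_le_left hJF : J ≤ F₀ ⊔ ⊥) hx)) h1)

end Pool.Agent.Helper42.WY
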