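import Pool.Agent.Helper42.WY.DEN2F
import Pool.Agent.Helper17.M3.Asm
import Pool.Agent.Helper17.M3.HYP3
import Pool.Agent.Helper39.M3.ANRM
import Pool.Agent.Helper62.WY.YNT3
import Pool.Agent.Helper51.REC.Asm
import Pool.Agent.Helper59.M3.ABL3
import Pool.Agent.Helper11.M3.BLGA
import Pool.Agent.Helper76.PB.Asm

/-!
# Project WY: the density theorem, step 2, modulo `A_TAU`, `A_OMS`, `A_HYP4`
-/

set_option autoImplicit false

namespace Pool.Agent.Helper42.WY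

open Pool.Agent.Helper38.WY Pool.Agent.Helper42.PW Pool.Agent.Helper76.PB
open Pool.Agent.Helper11.M3 (MT₃W MT₄W A_HYP3 A_HYP4 A_NRM A_OMS A_TAU A_BL3)

theorem g_hyp3 (hTAU : A_TAU) : A_HYP3 :=
  Pool.Agent.Helper17.M3.a_hyp3 hTAU
    (Pool.Agent.Helper59.M3.a_bl3 (Pool.Agent.Helper11.M3.a_blg Pool.Agent.Helper51.REC.r_two))
    Pool.Agent.Helper76.PB.a_smn Pool.Agent.Helper76.PB.a_kum

/-- The density theorem, step 2. -/
theorem g_den2 (hTAU : A_TAU) (hOMS : A_OMS) (hH4 : A_HYP4) : Y_DEN2 :=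
  f_den2 Pool.Agent.Helper17.M3.mt3w Pool.Agent.Helper17.M3.mt4w Pool.Agent.Helper39.M3.a_nrm
    hOMS (g_hyp3 hTAU) hH4 Pool.Agent.Helper62.WY.y_nt3

end Pool.Agent.Helper42.WY
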