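import Pool.Agent.Helper42.WY.DEN2G
import Pool.Agent.Helper11.M3.FIN4
import Pool.Agent.Helper96.M3.AOMS
import Pool.Agent.Helper66.M3.ATAU

/-!
# Project WY: the density theorem, step 2, modulo `A_SMO`
-/

set_option autoImplicit false

namespace Pool.Agent.Helper42.WY

open Pool.Agent.Helper38.WY
open Pool.Agent.Helper11.M3 (A_SMO)

/-- The density theorem, step 2. -/
theorem h_den2 (hSMO : A_SMO) : Y_DEN2 :=
  g_den2 Pool.Agent.Helper66.M3.a_tau Pool.Agent.Helper96.M3.a_oms
    (Pool.Agent.Helper11.M3.f_hyp4 Pool.Agent.Helper51.REC.r_two hSMO)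

end Pool.Agent.Helper42.WY
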