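import Pool.Agent.Helper42.WY.SELO3
import Pool.Agent.Helper79.RP.HIL1

/-!
# Project WY: the Kummer kernel of `M₂/M` for `χ₀ ≡ ω`, `J ≠ K`

`Gal(M₂/M)` is cyclic of order a power of `p`, `≠ 1`; there is `b ∈ Mˣ`, not a `p`-th power, which is a `p`-th power in
`M₂`; it is unique up to exponents and `p`-th powers, and it is of type `X - i`.
-/

set_option autoImplicit false
set_option linter.unusedSectionVars false

namespace Pool.Agent.Helper42.WY

open NumberField Polynomial Module IsDedekindDomain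
open Pool.Agent.Helper51.RP Pool.Agent.Helper42.RD Pool.Agent.Helper42.PP Pool.Agent.Helper42.PP1
open Pool.Agent.Helper42.PB Pool.Agent.Helper42.PW Pool.Agent.Helper38.WY Pool.Agent.Helper11.PP

section main

variable {p : ℕ} [hp : Fact p.Prime] {K M K₁ M₁ J M₂ : Type} [Field K] [NumberField K] [Field M]
  [NumberField M] [Field K₁] [NumberField K₁] [Field M₁] [NumberField M₁] [Field J]
  [NumberField J] [Field M₂] [NumberField M₂] [Algebra K M] [Algebra K K₁] [Algebra K M₁]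
  [Algebra M M₁] [Algebra K₁ M₁] [Algebra K J] [Algebra K M₂] [Algebra M M₂] [Algebra K₁ M₂]
  [Algebra M₁ M₂] [Algebra J M₂] {ε : K₁} {δ : M ≃ₐ[K] M} {P : (ZMod p)[X]} {a₀ : M₂ˣ}

theorem ext_M₂ (hB : SitB p K M K₁ M₁ J M₂ ε δ P a₀) (a b : M₂ ≃ₐ[K] M₂)
    (h1 : ∀ x : M₁, a (algebraMap M₁ M₂ x) = b (algebraMap M₁ M₂ x))
    (h2 : ∀ x : J, a (algebraMap J M₂ x) = b (algebraMap J M₂ x)) : a = b := by
  have h3 : a⁻¹ * b = 1 := by
    refine hB.lin₂ _ (fun x => ?_) fun x => ?_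
    · show a⁻¹ (b _) = _
      rw [← h1]
      exact AlgEquiv.symm_apply_apply a _
    · show a⁻¹ (b _) = _
      rw [← h2]
      exact AlgEquiv.symm_apply_apply a _
  exact inv_mul_eq_one.1 h3

/-- `Gal(M₂/M)` is cyclic of order a power of `p`, and it commutes with `Gal(M₂/K)`. -/
theorem gal_M₂ (hB : SitB p K M K₁ M₁ J M₂ ε δ P a₀)
    (hM₁ : ∀ z : M₁, ∃ y : M, algebraMap M M₁ y = z) :
    IsCyclic (M₂ ≃ₐ[M] M₂) ∧ (∃ k : ℕ, Nat.card (M₂ ≃ₐ[M] M₂) = p ^ k) ∧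
    ∀ (σ : M₂ ≃ₐ[M] M₂) (g : M₂ ≃ₐ[K] M₂) (x : M₂), g (σ x) = σ (g x) := by
  have := hB.sit.gM
  have := hB.gM₂
  have := hB.gJ
  have := hB.cycJ
  have := tow_M hB
  have := hB.t1
  have := hB.t2
  have := hB.t4
  let r : (M₂ ≃ₐ[M] M₂) → (M₂ ≃ₐ[K] M₂) := fun σ => σ.restrictScalars K
  have hrM : ∀ (σ : M₂ ≃ₐ[M] M₂) (x : M₁), r σ (algebraMap M₁ M₂ x) = algebraMap M₁ M₂ x := by
    intro σ x
    obtain ⟨y, rfl⟩ := hM₁ x
    rw [← IsScalarTower.algebraMap_apply M M₁ M₂]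
    exact σ.commutes y
  let f : (M₂ ≃ₐ[M] M₂) →* (J ≃ₐ[K] J) :=
    { toFun := fun σ => AlgEquiv.restrictNormalHom J (r σ)
      map_one' := by
        have : r 1 = 1 := by ext x; rfl
        rw [this, map_one]
      map_mul' := fun σ τ => by
        have : r (σ * τ) = r σ * r τ := by ext x; rfl
        rw [this, map_mul] }
  have hcomm : ∀ (g : M₂ ≃ₐ[K] M₂) (y : J), g (algebraMap J M₂ y) =
      algebraMap J M₂ (AlgEquiv.restrictNormalHom J g y) := fun g y =>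
    (AlgEquiv.restrictNormal_commutes g J y).symm
  have hf : Function.Injective f := by
    rw [injective_iff_map_eq_one]
    intro σ hσ
    have h1 : r σ = 1 := by
      refine hB.lin₂ _ (hrM σ) fun x => ?_
      rw [hcomm]
      have h2 : AlgEquiv.restrictNormalHom J (r σ) = 1 := hσ
      rw [h2]
      rfl
    ext x
    exact DFunLike.congr_fun h1 x
  refine ⟨isCyclic_of_injective f hf, ?_, ?_⟩
  · obtain ⟨l, hl⟩ := hB.degJ
    have h1 : Nat.card (M₂ ≃ₐ[M] M₂) ∣ Nat.card (J ≃ₐ[K] J) := Subgroup.card_dvd_of_injective f hf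
    have h2 : Nat.card (J ≃ₐ[K] J) = p ^ l := by rw [IsGalois.card_aut_eq_finrank, hl]
    rw [h2] at h1
    obtain ⟨k, -, hk⟩ := (Nat.dvd_prime_pow hp.out).1 h1
    exact ⟨k, hk⟩
  · intro σ g x
    have h1 : g * r σ = r σ * g := by
      refine ext_M₂ hB _ _ (fun y => ?_) fun y => ?_
      · -- on `M₁`
        have hgM : ∃ z : M₁, g (algebraMap M₁ M₂ y) = algebraMap M₁ M₂ z := by
          obtain ⟨y₀, rfl⟩ := hM₁ y
          refine ⟨algebraMap M M₁ (AlgEquiv.restrictNormalHom M g y₀), ?_⟩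
          rw [← IsScalarTower.algebraMap_apply M M₁ M₂, ← IsScalarTower.algebraMap_apply M M₁ M₂]
          exact (AlgEquiv.restrictNormal_commutes g M y₀).symm
        obtain ⟨z, hz⟩ := hgM
        show g (r σ (algebraMap M₁ M₂ y)) = r σ (g (algebraMap M₁ M₂ y))
        rw [hrM, hz, hrM]
      · have hcm : ∀ a b : J ≃ₐ[K] J, a * b = b * a := by
          obtain ⟨c, hc⟩ := hB.cycJ.exists_generator
          intro a b
          obtain ⟨m, rfl⟩ := Subgroup.mem_zpowers_iff.1 (hc a)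
          obtain ⟨n, rfl⟩ := Subgroup.mem_zpowers_iff.1 (hc b)
          rw [← zpow_add, ← zpow_add, add_comm]
        rw [hcomm, hcomm, map_mul, map_mul, hcm]
    exact DFunLike.congr_fun h1 x

theorem gal_gen (hB : SitB p K M K₁ M₁ J M₂ ε δ P a₀)
    (hM₁ : ∀ z : M₁, ∃ y : M, algebraMap M M₁ y = z) :
    ∃ (σ : M₂ ≃ₐ[M] M₂) (k : ℕ), orderOf σ = p ^ k ∧
      (∀ x : M₂, σ x = x → ∃ y : M, algebraMap M M₂ y = x) ∧
      (∀ (g : M₂ ≃ₐ[K] M₂) (x : M₂), g (σ x) = σ (g x)) := by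
  have := tow_M hB
  have := hB.gM₂
  have hG : IsGalois M M₂ := IsGalois.tower_top_of_isGalois K M M₂
  obtain ⟨h1, ⟨k, hk⟩, h2⟩ := gal_M₂ hB hM₁
  obtain ⟨σ, hσ⟩ := h1.exists_generator
  refine ⟨σ, k, ?_, ?_, fun g x => h2 σ g x⟩
  · rw [← hk]
    exact orderOf_eq_card_of_forall_mem_zpowers hσ
  · intro x hx
    have h3 : ∀ τ : M₂ ≃ₐ[M] M₂, τ x = x := by
      intro τ
      have h4 : Subgroup.zpowers σ ≤ MulAction.stabilizer (M₂ ≃ₐ[M] M₂) x := by
        rw [Subgroup.zpowers_le]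
        exact hx
      exact h4 (hσ τ)
    have h5 := (IsGalois.mem_bot_iff_fixed (F := M) (E := M₂) x).2 h3
    obtain ⟨y, hy⟩ := IntermediateField.mem_bot.1 h5
    exact ⟨y, hy⟩

/-- The Kummer kernel of `M₂/M`. -/
theorem ker_ex (hB : SitB p K M K₁ M₁ J M₂ ε δ P a₀)
    (hM₁ : ∀ z : M₁, ∃ y : M, algebraMap M M₁ y = z)
    (hns : ¬ ∀ z : M₂, ∃ y : M, algebraMap M M₂ y = z) {i : ℕ}
    (hε : ∃ ε₀ : M, algebraMap M M₂ ε₀ = algebraMap K₁ M₂ ε ∧ δ ε₀ = ε₀ ^ i) :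
    (∃ b : Mˣ, ¬ Pw p b ∧ Pw2 p M₂ b ∧
      ∀ x : Mˣ, Pw2 p M₂ x → ∃ (j : ℕ) (z : Mˣ), x = b ^ j * z ^ p) ∧
    ∀ x : Mˣ, Pw2 p M₂ x → Pw p (pol (X - C (i : ZMod p)) δ x) := by
  have hpp : p.Prime := hp.out
  have hp0 : p ≠ 0 := hpp.ne_zero
  have : NeZero p := ⟨hp0⟩
  have := hB.sit.gM
  have := hB.gM₂
  have := tow_M hB
  obtain ⟨ε₀, he1, he2⟩ := hε
  have hε₂ : IsPrimitiveRoot (algebraMap M M₂ ε₀) p := by
    rw [he1]
    exact hB.sit.prim.map_of_injective (algebraMap K₁ M₂).injective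
  obtain ⟨σ, k, hσ, hfix, hcom⟩ := gal_gen hB hM₁
  have hk : 0 < k := by
    rcases Nat.eq_zero_or_pos k with h | h
    · exfalso
      rw [h, pow_zero, orderOf_eq_one_iff] at hσ
      exact hns fun z => hfix z (by rw [hσ]; rfl)
    · exact h
  have hσε : σ (algebraMap M M₂ ε₀) = algebraMap M M₂ ε₀ := σ.commutes ε₀
  have hσj : ∀ j : ℕ, (σ ^ j) (algebraMap M M₂ ε₀) = algebraMap M M₂ ε₀ := fun j =>
    (σ ^ j).commutes ε₀
  have hε0 : algebraMap M M₂ ε₀ ≠ 0 := hε₂.ne_zero hp0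
  -- the `p`-th roots
  have hkum : ∀ (x : Mˣ) (v : M₂), v ^ p = algebraMap M M₂ (x : M) →
      ∃ j : ℕ, σ v = algebraMap M M₂ ε₀ ^ j * v := by
    intro x v hv
    have hv0 : v ≠ 0 := by
      rintro rfl
      rw [zero_pow hp0] at hv
      exact x.ne_zero ((map_eq_zero_iff _ (algebraMap M M₂).injective).1 hv.symm)
    have h1 : (σ v / v) ^ p = 1 := by
      rw [div_pow, ← map_pow, hv, σ.commutes, div_self]
      rw [← hv]
      exact pow_ne_zero _ hv0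
    obtain ⟨j, -, hj⟩ := hε₂.eq_pow_of_pow_eq_one h1
    exact ⟨j, by rw [hj, div_mul_cancel₀ _ hv0]⟩
  obtain ⟨w, hw0, hw⟩ := Pool.Agent.Helper79.RP.hilbert90 (pow_pos hpp.pos k) σ hσ
    (u := algebraMap M M₂ ε₀) (by
      rw [Finset.prod_congr rfl fun j _ => hσj j, Finset.prod_const, Finset.card_range]
      obtain ⟨k', rfl⟩ : ∃ k', k = k' + 1 := ⟨k - 1, by omega⟩
      rw [pow_succ', pow_mul, hε₂.pow_eq_one, one_pow])
  obtain ⟨b₀, hb₀⟩ := hfix (w ^ p) (by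
    rw [map_pow, hw, mul_pow, hε₂.pow_eq_one, one_mul])
  have hb0 : b₀ ≠ 0 := by
    rintro rfl
    rw [map_zero] at hb₀
    exact pow_ne_zero p hw0 hb₀.symm
  refine ⟨⟨Units.mk0 b₀ hb0, ?_, ⟨w, by rw [Units.val_mk0, hb₀]⟩, ?_⟩, ?_⟩
  · rintro ⟨z, hz⟩
    have h1 : (algebraMap M M₂ (z : M)) ^ p = w ^ p := by
      rw [← map_pow, ← hb₀, ← Units.val_pow_eq_pow_val, ← hz, Units.val_mk0]
    have hz0 : algebraMap M M₂ (z : M) ≠ 0 := (_root_.map_ne_zero _).2 z.ne_zero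
    have h2 : (w / algebraMap M M₂ (z : M)) ^ p = 1 := by
      rw [div_pow, h1, div_self (pow_ne_zero _ hw0)]
    obtain ⟨j, -, hj⟩ := hε₂.eq_pow_of_pow_eq_one h2
    have h3 : w = algebraMap M M₂ (ε₀ ^ j * z) := by
      rw [map_mul, map_pow, hj, div_mul_cancel₀ _ hz0]
    have h4 : σ w = w := by rw [h3]; exact σ.commutes _
    rw [hw] at h4
    exact hε₂.ne_one hpp.one_lt (mul_eq_right₀ hw0 |>.1 h4)
  · rintro x ⟨v, hv⟩
    obtain ⟨j, hj⟩ := hkum x v hv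
    obtain ⟨m, hm⟩ := hfix (v / w ^ j) (by
      rw [map_div₀, map_pow, hw, hj, mul_pow, mul_div_mul_left _ _ (pow_ne_zero _ hε0)])
    have hm0 : m ≠ 0 := by
      rintro rfl
      rw [map_zero] at hm
      rw [eq_comm, div_eq_zero_iff] at hm
      rcases hm with h | h
      · rw [h, zero_pow hp0] at hv
        exact x.ne_zero ((map_eq_zero_iff _ (algebraMap M M₂).injective).1 hv.symm)
      · exact pow_ne_zero _ hw0 h
    refine ⟨j, Units.mk0 m hm0, ?_⟩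
    ext
    apply (algebraMap M M₂).injective
    rw [Units.val_mul, Units.val_pow_eq_pow_val, Units.val_pow_eq_pow_val, Units.val_mk0,
      Units.val_mk0, map_mul, map_pow, map_pow, hb₀, hm, ← hv, ← pow_mul, mul_comm p j, pow_mul,
      ← mul_pow, mul_div_cancel₀ _ (pow_ne_zero _ hw0)]
  · rintro x ⟨v, hv⟩
    obtain ⟨j, hj⟩ := hkum x v hv
    have hv0 : v ≠ 0 := by
      rintro rfl
      rw [zero_pow hp0] at hv
      exact x.ne_zero ((map_eq_zero_iff _ (algebraMap M M₂).injective).1 hv.symm)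
    set g : M₂ ≃ₐ[K] M₂ := AlgEquiv.liftNormal δ M₂ with hg
    have hgM : ∀ y : M, g (algebraMap M M₂ y) = algebraMap M M₂ (δ y) := fun y =>
      AlgEquiv.liftNormal_commutes δ M₂ y
    obtain ⟨c₀, hc₀⟩ := hfix (g v / v ^ i) (by
      rw [map_div₀, map_pow, ← hcom, hj, map_mul, map_pow, hgM, he2, map_pow, mul_pow, ← pow_mul,
        ← pow_mul, mul_comm i j, mul_div_mul_left _ _ (pow_ne_zero _ hε0)])
    have hc0 : c₀ ≠ 0 := by
      rintro rfl
      rw [map_zero, eq_comm, div_eq_zero_iff] at hc₀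
      rcases hc₀ with h | h
      · exact hv0 ((map_eq_zero_iff g g.injective).1 h)
      · exact pow_ne_zero _ hv0 h
    have h5 : δ (x : M) = (x : M) ^ i * c₀ ^ p := by
      apply (algebraMap M M₂).injective
      rw [← hgM, ← hv, map_mul, map_pow, map_pow, ← hv, map_pow, hc₀, div_pow, ← pow_mul,
        ← pow_mul, mul_comm p i, mul_div_cancel₀ _ (pow_ne_zero _ hv0)]
    obtain ⟨y, hy⟩ := Pool.Agent.Helper96.WY.act_congr (p := p) δ
      (Pool.Agent.Helper77.RL.lift (X - C (i : ZMod p))) (X - C (i : ℤ)) (by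
        rw [Pool.Agent.Helper77.RL.lift_map, Polynomial.map_sub, map_X, map_C]
        simp) x
    refine ⟨Units.mk0 c₀ hc0 * y, ?_⟩
    rw [← Pool.Agent.Helper77.RL.act_lift, hy, mul_pow]
    congr 1
    rw [Pool.Agent.Helper77.RL.act_sub, Pool.Agent.Helper77.RL.act_X,
      Pool.Agent.Helper77.RL.act_C, zpow_natCast, div_eq_iff_eq_mul]
    ext
    rw [Units.val_mul, Units.val_pow_eq_pow_val, Units.val_pow_eq_pow_val, Units.val_mk0,
      mul_comm]
    exact h5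

end main

end Pool.Agent.Helper42.WY
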