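import Pool.Agent.Helper42.WY.Cls0
import Pool.Agent.Helper77.PPL.DENF
import Pool.Agent.Helper38.WY.Goals8

/-!
# Project WY (MP_fc6b1e_nt): the situation for `χ₀ ≡ ω`
-/

set_option autoImplicit false

namespace Pool.Agent.Helper42.WY

open NumberField Polynomial Module IsDedekindDomain TensorProduct Pool.Agent.Helper51.SigLeo
open Pool.Agent.Helper51.RP Pool.Agent.Helper42.RD Pool.Agent.Helper11.LE Pool.Agent.Helper11.PP
open Pool.Agent.Helper38.FD (Chr CutsOut LeopoldtFor IsOrdinary isGalois_of_cutsOut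
  free_of_splits splits_of_free ordv_of_unram exists_cutsOut exists_faithful fix_sup pow_card_desc
  Restricts)
open Pool.Agent.Helper42.PP (LocS)
open Pool.Agent.Helper42.PP1 (SitW NTV sitW_one above_self)
open Pool.Agent.Helper42.PB (SitB)
open Pool.Agent.Helper77.PPB
open Pool.Agent.Helper22.PP (ram_sup le_of_fix)
open Pool.Agent.Helper42.PW (eq_one_of_pow)
open Pool.Agent.Helper38.FW (OmegaAt IsOmega)
open Pool.Agent.Helper38.WY
open Pool.Agent.Helper40.RS (bel gw bel_smul lies conj_of_bel free_gw absNorm_free val_smul)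
open Pool.Agent.Helper40.RD (bel_of_above ordW)

/-- Elements of `ℂ_p` which are congruent to integers. -/
theorem norm_nat_sub {p : ℕ} [hp : Fact p.Prime] {i j : ℕ}
    (h : ‖((i : ℕ) : ℂ_[p]) - (j : ℕ)‖ < 1) : (i : ZMod p) = j := by
  have h1 : ‖((i : ℤ_[p]) - (j : ℤ_[p]))‖ < 1 := by
    have h2 : Pool.Agent.Helper22.RP.io p ℂ_[p] ((i : ℤ_[p]) - (j : ℤ_[p])) =
        ((i : ℕ) : ℂ_[p]) - (j : ℕ) := by
      rw [map_sub, map_natCast, map_natCast]
    rw [← h2, Pool.Agent.Helper22.RP.norm_io] at h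
    exact h
  have h3 := Pool.Agent.Helper22.RP.toZMod_eq_zero.2 h1
  rw [map_sub, map_natCast, map_natCast, sub_eq_zero] at h3
  exact h3

/-- The integer `r` of `g` on the roots of unity. -/
theorem exists_root_pow {p : ℕ} [hp : Fact p.Prime] {K : Type} [Field K] [NumberField K]
    {ε : AlgebraicClosure K} (hε : IsPrimitiveRoot ε p)
    (g : AlgebraicClosure K ≃ₐ[K] AlgebraicClosure K) :
    ∃ r : ℕ, g ε = ε ^ r ∧ ∀ ξ : AlgebraicClosure K, ξ ^ p = 1 → g ξ = ξ ^ r := by
  have h1 : (g ε) ^ p = 1 := by rw [← map_pow, hε.pow_eq_one, map_one]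
  have : NeZero p := ⟨hp.out.ne_zero⟩
  obtain ⟨r, -, hr⟩ := hε.eq_pow_of_pow_eq_one h1
  refine ⟨r, hr.symm, fun ξ hξ => ?_⟩
  obtain ⟨j, -, rfl⟩ := hε.eq_pow_of_pow_eq_one hξ
  rw [map_pow, ← hr, ← pow_mul, ← pow_mul, mul_comm]

/-- If `χ₀ ≡ ω` then the field of `χ₀` is `K(ε)`. -/
theorem field_omega {p : ℕ} [hp : Fact p.Prime] {K : Type} [Field K] [NumberField K]
    {K₁ M : IntermediateField K (AlgebraicClosure K)} {ε : AlgebraicClosure K}
    (hε : IsPrimitiveRoot ε p) (hK₁ : K₁ = IntermediateField.adjoin K {ε})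
    {χ₀ : Chr K (AlgebraicClosure K) ℂ_[p]} (hχ : CutsOut χ₀ M) (hcop : (finrank K M).Coprime p)
    (hω : IsOmega χ₀) : M = K₁ := by
  have hm0 : 0 < finrank K M := Nat.pos_of_ne_zero fun h0 ↦ by
    rw [h0, Nat.coprime_zero_left] at hcop
    exact hp.out.one_lt.ne' hcop
  have hfM : FiniteDimensional K M := FiniteDimensional.of_finrank_pos hm0
  have hnM : NumberField M := NumberField.of_module_finite K M
  have hgM : IsGalois K M := isGalois_of_cutsOut hχ
  have hfK₁ : FiniteDimensional K K₁ := by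
    rw [hK₁]
    exact IntermediateField.adjoin.finiteDimensional (Algebra.IsIntegral.isIntegral ε)
  have hnK₁ : NumberField K₁ := NumberField.of_module_finite K K₁
  have hgK₁ : IsGalois K K₁ := by
    rw [hK₁]
    have : IsCyclotomicExtension {p} K (IntermediateField.adjoin K {ε}) :=
      hε.intermediateField_adjoin_isCyclotomicExtension (K := K)
    exact IsCyclotomicExtension.isGalois {p} K _
  have hmem : ε ∈ K₁ := by rw [hK₁]; exact IntermediateField.mem_adjoin_simple_self K ε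
  have hgen : ∀ g : AlgebraicClosure K ≃ₐ[K] AlgebraicClosure K, g ε = ε →
      ∀ x ∈ K₁, g x = x := by
    intro g hg x hx
    rw [hK₁] at hx
    have h1 : IntermediateField.adjoin K {ε} ≤
        IntermediateField.fixedField (Subgroup.zpowers g) := by
      rw [IntermediateField.adjoin_le_iff]
      intro y hy
      have hy' : y = ε := hy
      rw [hy']
      rintro ⟨h, hh⟩
      obtain ⟨n, rfl⟩ := Subgroup.mem_zpowers_iff.1 hh
      show (g ^ n) ε = ε
      have h2 : g ∈ MulAction.stabilizer (AlgebraicClosure K ≃ₐ[K] AlgebraicClosure K) ε := hg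
      exact Subgroup.zpow_mem _ h2 n
    exact h1 hx ⟨g, Subgroup.mem_zpowers g⟩
  have key : ∀ g : AlgebraicClosure K ≃ₐ[K] AlgebraicClosure K, χ₀ g = 1 ↔ g ε = ε := by
    intro g
    obtain ⟨r, hr, hr'⟩ := exists_root_pow hε g
    have h1 := hω g r hr'
    constructor
    · intro h
      rw [h] at h1
      have h2 : ((1 : ℕ) : ZMod p) = r := norm_nat_sub (by
        rw [Nat.cast_one]
        simpa using h1)
      rw [hr]
      have h3 : 1 ≡ r [MOD p] := (ZMod.natCast_eq_natCast_iff _ _ _).1 h2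
      have h4 : ε ^ 1 = ε ^ r := by
        rw [← Nat.div_add_mod 1 p, ← Nat.div_add_mod r p, pow_add, pow_add, pow_mul, pow_mul,
          hε.pow_eq_one, one_pow, one_pow, (h3 : 1 % p = r % p)]
      rw [← h4, pow_one]
    · intro h
      have h2 := hω g 1 (fun ξ hξ => by
        rw [hr' ξ hξ]
        obtain ⟨j, -, rfl⟩ := (haveI : NeZero p := ⟨hp.out.ne_zero⟩; hε.eq_pow_of_pow_eq_one hξ)
        rw [pow_one, ← pow_mul, mul_comm, pow_mul, ← hr, h])
      by_contra hne
      have h3 : (χ₀ g) ^ finrank K M = 1 := pow_card_desc hχ g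
      have h4 := Pool.Agent.Helper22.RP.one_sub_norm (k := ℂ_[p]) hcop
        (η := ((χ₀ g : ℂ_[p]ˣ) : ℂ_[p])) (by
          rw [← Units.val_pow_eq_pow_val, h3, Units.val_one]) (by
          intro h5
          exact hne (Units.ext h5))
      rw [Nat.cast_one] at h2
      exact h4 h2
  apply le_antisymm
  · refine le_of_fix fun g hg => ?_
    exact (hχ g).1 ((key g).2 (hg ε hmem))
  · refine le_of_fix fun g hg => ?_
    exact hgen g ((key g).1 ((hχ g).2 hg))

/-- The polynomial for `ω`. -/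
theorem phi_omega {p : ℕ} [hp : Fact p.Prime] {m : ℕ} {ζ : ℂ_[p]} {Φ : ℤ_[p][X]}
    {P : (ZMod p)[X]} (h : PhiData p m ζ Φ P) (hm : m ∣ p - 1) (i : ℕ) (hi : ‖ζ - (i : ℕ)‖ < 1) :
    P = X - C (i : ZMod p) := by
  have hm0 : 0 < m := lt_trans one_pos h.one_lt
  have : NeZero m := ⟨hm0.ne'⟩
  have hone : orderOf (p : ZMod m) = 1 := by
    rw [orderOf_eq_one_iff]
    have h1 : ((p - 1 : ℕ) : ZMod m) = 0 := (ZMod.natCast_eq_zero_iff _ _).2 hm
    rw [Nat.cast_sub hp.out.one_le, Nat.cast_one, sub_eq_zero] at h1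
    exact h1
  have hdeg : P.natDegree = 1 := by
    rw [Pool.Agent.Helper77.PPL.phi_deg h, hone]
  have hdegΦ : Φ.natDegree = 1 := by
    rw [← hdeg, h.map, h.monic.natDegree_map]
  have hΦ : Φ = X + C (Φ.coeff 0) := h.monic.eq_X_add_C hdegΦ
  set z : ℤ_[p] := - Φ.coeff 0 with hz
  have h2 := h.root
  rw [hΦ, eval₂_add, eval₂_X, eval₂_C] at h2
  have h3 : ζ = Pool.Agent.Helper22.RP.io p ℂ_[p] z := by
    rw [hz, map_neg]
    exact eq_neg_of_add_eq_zero_left h2
  have h4 : ‖z - (i : ℤ_[p])‖ < 1 := by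
    have h5 : Pool.Agent.Helper22.RP.io p ℂ_[p] (z - (i : ℤ_[p])) = ζ - (i : ℕ) := by
      rw [map_sub, map_natCast, ← h3]
    rw [← h5, Pool.Agent.Helper22.RP.norm_io] at hi
    exact hi
  have h5 := Pool.Agent.Helper22.RP.toZMod_eq_zero.2 h4
  rw [map_sub, map_natCast, sub_eq_zero] at h5
  rw [h.map, hΦ, Polynomial.map_add, Polynomial.map_X, Polynomial.map_C]
  have h6 : Φ.coeff 0 = - z := by rw [hz, neg_neg]
  rw [h6, map_neg, h5, C_neg]
  ring

theorem sitW_omega (p : ℕ) [Fact p.Prime] (K K₁ : Type) [Field K] [NumberField K] [Field K₁]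
    [NumberField K₁] [Algebra K K₁] (ε : K₁) (hC : Cyc p K K₁ ε) (δ : K₁ ≃ₐ[K] K₁)
    (P : (ZMod p)[X]) (hord : orderOf δ = finrank K K₁) (hirr : Irreducible P)
    (hdvd : P ∣ X ^ finrank K K₁ - 1)
    (hnsp : ∀ w : HeightOneSpectrum (𝓞 K₁), ¬ FreeP K w → ∀ x : K₁ˣ, Pw p (pol P δ x) →
      (p : ℤ) ∣ ordv w (x : K₁)) :
    SitW p K K₁ K₁ K₁ ε δ P := by
  have hg := hC.gal
  have h1 := sitW_one p K K₁ ε hC.prim hC.gen
  exact
    { st1 := inferInstance
      st2 := inferInstance
      gM := hg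
      gK := hg
      gMK := hg
      prim := hC.prim
      gen := hC.gen
      lin := fun g _ h => by ext x; exact h x
      ord := hord
      irr := hirr
      dvdP := hdvd
      copm := h1.c1
      c1 := by rw [Module.finrank_self]; exact Nat.coprime_one_left p
      c2 := by rw [Module.finrank_self]; exact Nat.coprime_one_left p
      nsp := hnsp
      vis := by
        intro v hv
        obtain ⟨v1, v2, v3⟩ := h1.vis v hv
        refine ⟨?_, ?_, v3⟩
        · intro W hWv hW
          obtain ⟨h2, -, h4⟩ := v1 W hWv hW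
          refine ⟨h2, ?_, h4⟩
          intro w hw
          have h5 := above_self hw
          subst h5
          exact ⟨hW, h2, hWv⟩
        · intro w Q W hw hQ hW hwf hQf
          exact Pool.Agent.Helper42.RD.free_of_conj (Pool.Agent.Helper42.RD.conj_of_bel'
            ((bel_of_above hW).trans (bel_of_above hQ).symm)) hQf }

end Pool.Agent.Helper42.WY
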