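import Pool.Agent.Helper11.M3.DefsW

/-!
# Project WY / M3: the quotient of a system by a subspace with trivial conditions
-/

set_option autoImplicit false

namespace Pool.Agent.Helper42.WY

open Finset Pool.Agent.Helper17.PP
open Pool.Agent.Helper11.M3 (Piv Bad₄ HypW)

variable {p : ℕ} {B B₀ k U Λ C : Type} [Field k] [AddCommGroup U] [Module k U]
    [AddCommGroup Λ] [Module k Λ] [AddCommGroup C]

open Classical in
/-- The quotient of the system by a subspace `W` of `U`; the conditions at the split primes and `lam₀` are trivial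
on `W`. -/
noncomputable def quo (S : Sys p B B₀ k U Λ C) (W : Submodule k U)
    (h1 : W ≤ LinearMap.ker S.lam₀) (h2 : ∀ q, S.spl q → W ≤ LinearMap.ker (S.res q)) :
    Sys p B B₀ k (U ⧸ W) Λ C where
  bs := S.bs
  N := S.N
  spl := S.spl
  cls := S.cls
  cl₀ := S.cl₀
  lam₀ := W.liftQ S.lam₀ h1
  lam := S.lam
  res q := if h : S.spl q then W.liftQ (S.res q) (h2 q h) else 0
  a := S.a
  dg := S.dg
  kap := S.kap
  two_le := S.two_le
  fin := S.fin
  bsN := S.bsN
  bsS := S.bsS

section lemmas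

variable (S : Sys p B B₀ k U Λ C) (W : Submodule k U)
    (h1 : W ≤ LinearMap.ker S.lam₀) (h2 : ∀ q, S.spl q → W ≤ LinearMap.ker (S.res q))

theorem quo_res {q : B} (hq : S.spl q) (x : U) :
    (quo S W h1 h2).res q (W.mkQ x) = S.res q x := by
  unfold quo
  simp only [dif_pos hq]
  rfl

theorem quo_lam₀ (x : U) : (quo S W h1 h2).lam₀ (W.mkQ x) = S.lam₀ x := rfl

/-- A solution of the system gives a solution of the quotient system. -/
theorem quo_sol [Algebra (ZMod p) k] {b : Finset B} {x : U} {c : B → k} (h : S.IsSol b x c) :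
    (quo S W h1 h2).IsSol b (W.mkQ x) c where
  supp := h.supp
  lam := h.lam
  loc q hq hs := by
    have h3 := h.loc q hq hs
    show (quo S W h1 h2).res q (W.mkQ x) + _ + _ = 0
    rw [quo_res S W h1 h2 hs]
    exact h3

theorem quo_bad [Algebra (ZMod p) k] {b : Finset B} {x : U} {c : B → k} (N : B → Prop)
    (hN : ∀ q, N q → ¬ S.spl q) (h : S.IsSol b x c) (hx : ¬ (x ∈ W ∧ c = 0)) :
    Bad₄ (quo S W h1 h2) N b := by
  refine ⟨W.mkQ x, c, quo_sol S W h1 h2 h, ?_, ?_⟩
  · rintro ⟨h3, h4⟩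
    exact hx ⟨by rwa [Submodule.mkQ_apply, Submodule.Quotient.mk_eq_zero] at h3, h4⟩
  · intro P₁ hP₁
    by_contra hc
    exact hN P₁ hP₁.isN (h.supp P₁ hc).2

/-- The functional on `U` and on the quotient. -/
theorem quo_fU (ψ : AddChar k ℂ) (χ : AddChar Λ ℂ) (D : Finset B) (hD : ∀ q ∈ D, S.spl q)
    (y : B → k) (x : U) : (quo S W h1 h2).fU ψ χ D y (W.mkQ x) = S.fU ψ χ D y x := by
  unfold Sys.fU
  rw [quo_lam₀]
  congr 1
  refine Finset.prod_congr rfl fun q hq => ?_
  rw [quo_res S W h1 h2 (hD q hq)]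

end lemmas

end Pool.Agent.Helper42.WY
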