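import Pool.Agent.Helper35.WY.YSEL
import Pool.Agent.Helper39.WY.OTRI
import Pool.Agent.Helper96.WY.ODSC
import Pool.Agent.Helper82.PW.WTRV
import Pool.Agent.Helper38.WY.Goals8
import Pool.Agent.Helper11.M3.Defs4

/-!
# Project WY: the solutions attached to the elements of the Selmer group, and the case `χ₀ ≡ ω`
-/

set_option autoImplicit false
set_option linter.unusedSectionVars false

namespace Pool.Agent.Helper42.WY

open NumberField Polynomial Module IsDedekindDomain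
open Pool.Agent.Helper51.RP Pool.Agent.Helper42.RD Pool.Agent.Helper42.PP Pool.Agent.Helper42.PP1
open Pool.Agent.Helper42.PB Pool.Agent.Helper42.PW Pool.Agent.Helper38.WY
open Pool.Agent.Helper40.RS (bel gw bel_smul lies conj_of_bel free_gw absNorm_free val_smul)
open Pool.Agent.Helper13.RD (eq_gw ram_free eq_of_val)
open Pool.Agent.Helper40.RD (bel_of_above ordW valW)
open Pool.Agent.Helper59.PP (hom_prod hom_inv hom_div labs_fin dvd_conj)
open Pool.Agent.Helper8.PP (pol_act locAt_of)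
open Pool.Agent.Helper35.WY (sel_suppX sel_locX locX_cls sig_cls)

section main

variable {p : ℕ} [hp : Fact p.Prime] {K M K₁ M₁ J M₂ : Type} [Field K] [NumberField K] [Field M]
  [NumberField M] [Field K₁] [NumberField K₁] [Field M₁] [NumberField M₁] [Field J]
  [NumberField J] [Field M₂] [NumberField M₂] [Algebra K M] [Algebra K K₁] [Algebra K M₁]
  [Algebra M M₁] [Algebra K₁ M₁] [Algebra K J] [Algebra K M₂] [Algebra M M₂] [Algebra K₁ M₂]
  [Algebra M₁ M₂] [Algebra J M₂] {ε : K₁} {δ : M ≃ₐ[K] M} {P : (ZMod p)[X]} {a₀ : M₂ˣ}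

/-- The explicit solution attached to an element of the Selmer group. -/
theorem selX_sol (hGRP : N_GRP) (hCHG : N_CHG) (hSGB : Y_SGB) (hPWA : Y_PWA)
    [Fact (Irreducible P)] (hB : SitB p K M K₁ M₁ J M₂ ε δ P a₀)
    (T : Set (K →+* ℂ_[p])) (B : Base p K M K₁ M₁ ε δ P) (D : BaseB B a₀)
    (aτ : K₁ˣ) {n : ℕ} (E : TauX n B a₀ T aτ)
    (a : K₁ˣ) (ha : OmType p K ε (a : K₁)) (hloc : LocS p (up K₁ B.S) (a / aτ)) (x : Mˣ)
    (hx' : SelX (above T : Set (M₂ →+* ℂ_[p])) P δ (algebraMap K₁ M₂ ε)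
      ((a₀ : M₂) * algebraMap K₁ M₂ (a : K₁)) x) :
    (sysB B E.toTauF (Spl M₂ B.S) D.s0 aτ).IsSol (B.lab a) (fun i => B.rho i x)
      (ccB B (Spl M₂ B.S) a x) ∧
    (¬ ((fun i => B.rho i x) = (0 : Fin B.r → AdjoinRoot P) ∧ ccB B (Spl M₂ B.S) a x = 0) ∨
      Pw p x) := by
  classical
  have hs := hB.sit
  have hx : Pool.Agent.Helper35.WY.SelP (p := p) P δ
    ((a₀ : M₂) * algebraMap K₁ M₂ (a : K₁)) x := ⟨hx'.pol, hx'.loc⟩
  have hfin : (B.labs a).Finite := labs_fin B a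
  -- the decomposition of `x`
  obtain ⟨d1, d2⟩ := w_dec p K M K₁ M₁ ε δ P hs B x hx.pol
    ((zz B a).filter (fun v ↦ v ∈ Spl M₂ B.S))
    (fun v hv => spl_vis hB B (Finset.mem_filter.1 hv).2) (by
      intro w hw h
      by_contra hn
      obtain ⟨v, hv, hwv, he⟩ := sel_suppX hB B D a ha x hx w hw hn
      refine h v (Finset.mem_filter.2 ⟨(mem_zz B hfin v).2 ⟨?_, he⟩, hv⟩) hwv
      obtain ⟨hvS, W, hW, hWf⟩ := spl_vis hB B hv
      have := hs.st1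
      have := hs.st2
      have := hs.gM
      have := hs.gK
      have := hs.gMK
      obtain ⟨Q, hQ⟩ : ∃ Q, Q = bel K₁ W := ⟨_, rfl⟩
      have hWQ : Above W Q := by rw [hQ]; rfl
      have h1 := ((hs.vis v (val_p_one B hvS)).1 W hW hWf).2.2 Q hWQ
      exact ⟨hvS, Q, h1.2.2, h1.1⟩)
  refine ⟨⟨?_, ?_, ?_⟩, ?_⟩
  · -- supp
    intro q hq
    by_contra h
    exact hq (if_neg h)
  · -- lam
    funext j
    have h1 : E.h j x = 0 := E.hS j x hx.pol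
      (fun W hW => (locX_cls hGRP hCHG hB B.S a aτ hloc W hW _).1 (hx.loc W))
      (fun τ hτ => sig_cls hSGB hPWA hB B a aτ hloc τ _ (hx'.sig τ hτ))
    have h2 := d1 (E.h j) (E.hP j)
    rw [h1] at h2
    have h3 := sum_ccB B (Spl M₂ B.S) hfin x (fun v => B.til (E.h j) (nrm M M₁ (B.z v)))
    show ((sysB B E.toTauF (Spl M₂ B.S) D.s0 aτ).lam₀ (fun i => B.rho i x) +
      ∑ q ∈ B.lab a, (sysB B E.toTauF (Spl M₂ B.S) D.s0 aτ).lam q
        (ccB B (Spl M₂ B.S) a x q)) j = 0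
    rw [Pi.add_apply, Finset.sum_apply, sysB_lam0]
    simp only [sysB_lam]
    rw [h3]
    exact h2.symm
  · -- loc
    intro q hq hsp
    have hv : q.1.1 ∈ Spl M₂ B.S := hsp
    have hvis := spl_vis hB B hv
    have he : ordp p (B.Q q.1.1) a = (q.1.2 : ZMod p) := (mem_lab B hfin q).1 hq
    have he0 : (q.1.2 : ZMod p) ≠ 0 := Units.ne_zero _
    have h1 := sel_locX hGRP hB B D a ha x hx hv (by rw [he]; exact he0)
    rw [th_ast w_dew hs B a aτ ha hfin hloc hvis, he,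
      ← sum_e B hfin (fun l => B.pi q.1.1 l)] at h1
    have hth := B.thh q.1.1 hvis
    have h2 := d1 (B.R q.1.1) ((Pool.Agent.Helper30.PP.p_fun p K M (finrank K M) δ P finrank_pos
      hs.copm (by rw [← hs.ord]; exact pow_orderOf_eq_one δ) hs.irr hs.dvdP).2 _
      (fun y z => by rw [map_mul, hth])).1
    have h3 := sum_ccB B (Spl M₂ B.S) hfin x (fun v => B.A q.1.1 v)
    have h4 : ccB B (Spl M₂ B.S) a x q = B.nv q.1.1 x := if_pos ⟨hq, hv⟩
    have h5 : (sysB B E.toTauF (Spl M₂ B.S) D.s0 aτ).R (B.lab a) (fun i => B.rho i x)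
        (ccB B (Spl M₂ B.S) a x) q =
        B.R q.1.1 x - B.nv q.1.1 x * algebraMap (ZMod p) (AdjoinRoot P) ((q.1.2 : ZMod p)⁻¹ *
          (B.sv aτ q.1.1 + D.s0 q.1.1 +
            ∑ q' ∈ B.lab a, (q'.1.2 : ZMod p) * B.pi q.1.1 q'.1.1)) := by
      unfold Pool.Agent.Helper17.PP.Sys.R
      rw [sysB_res, sum_er (B.lab a) hq, sum_er (B.lab a) hq]
      show _ + (∑ q' ∈ B.lab a, ccB B (Spl M₂ B.S) a x q' * B.A q.1.1 q'.1.1 -
          ccB B (Spl M₂ B.S) a x q * B.A q.1.1 q.1.1) +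
        ccB B (Spl M₂ B.S) a x q * ((B.A q.1.1 q.1.1 - algebraMap (ZMod p) (AdjoinRoot P)
          ((q.1.2 : ZMod p)⁻¹ * (B.sv aτ q.1.1 + D.s0 q.1.1) + B.pi q.1.1 q.1.1)) +
          (∑ q' ∈ B.lab a, algebraMap (ZMod p) (AdjoinRoot P)
            (- ((q'.1.2 : ZMod p) * (q.1.2 : ZMod p)⁻¹ * B.pi q.1.1 q'.1.1)) -
            algebraMap (ZMod p) (AdjoinRoot P)
            (- ((q.1.2 : ZMod p) * (q.1.2 : ZMod p)⁻¹ * B.pi q.1.1 q.1.1)))) = _
      rw [h3, h2, h4, ← map_sum, mul_inv_cancel₀ he0]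
      have h6 : ∑ q' ∈ B.lab a,
          (- ((q'.1.2 : ZMod p) * (q.1.2 : ZMod p)⁻¹ * B.pi q.1.1 q'.1.1)) =
          - ((q.1.2 : ZMod p)⁻¹ * ∑ q' ∈ B.lab a, (q'.1.2 : ZMod p) * B.pi q.1.1 q'.1.1) := by
        rw [Finset.mul_sum, ← Finset.sum_neg_distrib]
        exact Finset.sum_congr rfl fun q' _ => by ring
      rw [h6]
      simp only [map_mul, map_add, map_neg, map_one, Base.A]
      ring
    rw [h5]
    have h7 : algebraMap (ZMod p) (AdjoinRoot P) (q.1.2 : ZMod p) *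
        algebraMap (ZMod p) (AdjoinRoot P) ((q.1.2 : ZMod p)⁻¹) = 1 := by
      rw [← map_mul, mul_inv_cancel₀ he0, map_one]
    rw [map_mul]
    rw [show B.sv aτ q.1.1 + ∑ q' ∈ B.lab a, (q'.1.2 : ZMod p) * B.pi q.1.1 q'.1.1 + D.s0 q.1.1 =
      B.sv aτ q.1.1 + D.s0 q.1.1 + ∑ q' ∈ B.lab a, (q'.1.2 : ZMod p) * B.pi q.1.1 q'.1.1 by ring]
      at h1
    linear_combination (algebraMap (ZMod p) (AdjoinRoot P) ((q.1.2 : ZMod p)⁻¹)) * h1 -
      (B.R q.1.1 x) * h7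
  · -- nonzero
    by_cases hnx : Pw p x
    · exact Or.inr hnx
    left
    rintro ⟨h1, h2⟩
    refine hnx (d2 (fun i => congrFun h1 i) ?_)
    intro v hv
    obtain ⟨hv1, hv2⟩ := Finset.mem_filter.1 hv
    unfold zz at hv1
    obtain ⟨q, hq, rfl⟩ := Finset.mem_image.1 hv1
    have h3 := congrFun h2 q
    unfold ccB at h3
    rw [if_pos ⟨hq, hv2⟩] at h3
    exact h3

/-- The Selmer group is closed under multiplication. -/
theorem selX_mul (hGRP : N_GRP) (hSGB : Y_SGB) {T' : Set (M₂ →+* ℂ_[p])} {ε₂ α : M₂}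
    (hε : IsPrimitiveRoot ε₂ p) (hα : α ≠ 0) {x y : Mˣ} (hx : SelX T' P δ ε₂ α x)
    (hy : SelX T' P δ ε₂ α y) : SelX T' P δ ε₂ α (x * y) where
  pol := by
    obtain ⟨u, hu⟩ := hx.pol
    obtain ⟨v, hv⟩ := hy.pol
    exact ⟨u * v, by rw [map_mul, hu, hv, mul_pow]⟩
  loc W := by
    have h1 : algebraMap M M₂ ((x * y : Mˣ) : M) =
        ((Units.map (algebraMap M M₂ : M →* M₂) x * Units.map (algebraMap M M₂ : M →* M₂) y :
          M₂ˣ) : M₂) := by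
      rw [Units.val_mul, map_mul]; rfl
    rw [h1]
    exact Pool.Agent.Helper82.PW.locW_mul hGRP hα (hx.loc W) (hy.loc W)
  sig τ hτ := by
    obtain ⟨-, s2, -⟩ := hSGB p M₂ τ ε₂ α hε hα
    rw [Units.val_mul, map_mul]
    exact s2 _ _ (hx.sig τ hτ) (hy.sig τ hτ)

/-- The trivial element of the Selmer group. -/
theorem selX_alpha (hTri : O_TRI) (hp2 : p ≠ 2) {i : ℕ}
    (hB : SitB p K M K₁ M₁ J M₂ ε δ (X - C (i : ZMod p)) a₀)
    (hε : ∃ ε₀ : M, algebraMap M M₂ ε₀ = algebraMap K₁ M₂ ε ∧ δ ε₀ = ε₀ ^ i)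
    (hsurj : ∀ z : M₂, ∃ y : M, algebraMap M M₂ y = z) (T' : Set (M₂ →+* ℂ_[p])) (a : K₁ˣ)
    (ha : OmType p K ε (a : K₁)) (α₀ : Mˣ)
    (hα₀ : algebraMap M M₂ (α₀ : M) = (a₀ : M₂) * algebraMap K₁ M₂ (a : K₁)) :
    SelX T' (X - C (i : ZMod p)) δ (algebraMap K₁ M₂ ε)
      ((a₀ : M₂) * algebraMap K₁ M₂ (a : K₁)) α₀ := by
  have hpp : p.Prime := hp.out
  have := hB.sit.gM
  have := hB.gM₂
  have := tow_M hB
  have hε₂ : IsPrimitiveRoot (algebraMap K₁ M₂ ε) p :=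
    hB.sit.prim.map_of_injective (algebraMap K₁ M₂).injective
  have hα : (a₀ : M₂) * algebraMap K₁ M₂ (a : K₁) ≠ 0 :=
    mul_ne_zero a₀.ne_zero ((_root_.map_ne_zero _).2 a.ne_zero)
  obtain ⟨tri1, tri2⟩ := hTri p hp2 M₂ (algebraMap K₁ M₂ ε) _ hε₂ hα
  refine ⟨?_, fun W => by rw [hα₀]; exact tri1 W, fun τ _ => by rw [hα₀]; exact tri2 τ⟩
  obtain ⟨ε₀, e1, e2⟩ := hε
  set g : M₂ ≃ₐ[K] M₂ := AlgEquiv.liftNormal δ M₂ with hg
  have hgM : ∀ y : M, g (algebraMap M M₂ y) = algebraMap M M₂ (δ y) := fun y =>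
    AlgEquiv.liftNormal_commutes δ M₂ y
  obtain ⟨n, c, h1, h2⟩ := Pool.Agent.Helper94.PB.om_alpha hB ha g
  obtain ⟨c₀, hc₀⟩ := hsurj c
  have h3 : algebraMap K₁ M₂ ε ^ n = algebraMap K₁ M₂ ε ^ i := by
    rw [← h1, ← e1, hgM, e2, map_pow]
  have h4 : (n : ZMod p) = i := by
    have key : ∀ k : ℕ, algebraMap K₁ M₂ ε ^ (k % p) = algebraMap K₁ M₂ ε ^ k := fun k => by
      conv_rhs => rw [← Nat.div_add_mod k p, pow_add, pow_mul, hε₂.pow_eq_one, one_pow, one_mul]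
    have h5 : n % p = i % p := hε₂.pow_inj (Nat.mod_lt _ hpp.pos) (Nat.mod_lt _ hpp.pos) (by
      rw [key, key, h3])
    exact (ZMod.natCast_eq_natCast_iff _ _ _).2 h5
  have h5 : δ (α₀ : M) = (α₀ : M) ^ n * c₀ ^ p := by
    apply (algebraMap M M₂).injective
    rw [← hgM, hα₀, h2, map_mul, map_pow, map_pow, hα₀, hc₀]
  have hc0 : c₀ ≠ 0 := by
    rintro rfl
    rw [zero_pow hpp.ne_zero, mul_zero] at h5
    exact α₀.ne_zero ((map_eq_zero_iff δ δ.injective).1 h5)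
  obtain ⟨y, hy⟩ := Pool.Agent.Helper96.WY.act_congr (p := p) δ
    (Pool.Agent.Helper77.RL.lift (X - C (i : ZMod p))) (X - C (n : ℤ)) (by
      rw [Pool.Agent.Helper77.RL.lift_map, ← h4, Polynomial.map_sub, map_X, map_C]
      simp) α₀
  refine ⟨Units.mk0 c₀ hc0 * y, ?_⟩
  rw [← Pool.Agent.Helper77.RL.act_lift, hy, mul_pow]
  congr 1
  rw [Pool.Agent.Helper77.RL.act_sub, Pool.Agent.Helper77.RL.act_X, Pool.Agent.Helper77.RL.act_C,
    zpow_natCast, div_eq_iff_eq_mul]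
  ext
  rw [Units.val_mul, Units.val_pow_eq_pow_val, Units.val_pow_eq_pow_val, Units.val_mk0,
    mul_comm]
  exact h5

open Pool.Agent.Helper11.M3 (Piv Bad₄)

/-- The valuation of `α` at a prime of the labels is not divisible by `p`. -/
theorem nv_alpha {i : ℕ} [Fact (Irreducible (X - C (i : ZMod p)))]
    (hB : SitB p K M K₁ M₁ J M₂ ε δ (X - C (i : ZMod p)) a₀)
    (B : Base p K M K₁ M₁ ε δ (X - C (i : ZMod p))) (D : BaseB B a₀) (a : K₁ˣ) (α₀ : Mˣ)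
    (hα₀ : algebraMap M M₂ (α₀ : M) = (a₀ : M₂) * algebraMap K₁ M₂ (a : K₁))
    (hpol : Pw p (pol (X - C (i : ZMod p)) δ α₀)) (v : HeightOneSpectrum (𝓞 K))
    (hv : v ∈ Spl M₂ B.S) (he : ordp p (B.Q v) a ≠ 0) : B.nv v α₀ ≠ 0 := by
  have hs := hB.sit
  have := hs.st1
  have := hs.st2
  have := hs.gM
  have := hs.gK
  have := hs.gMK
  have := hB.t1
  have := hB.t2
  have := hB.t3
  have := hB.gM₂
  have := tow_M hB
  have := tow_K hB
  intro h0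
  have hhom : Hom (ordp p (B.w v)) := by
    intro a b
    show ((ordv (B.w v) ((a : M) * (b : M)) : ℤ) : ZMod p) = _
    rw [Pool.Agent.Helper90.RP.Dual.ordv_mul _ a.ne_zero b.ne_zero]
    push_cast
    rfl
  have h1 := ((Pool.Agent.Helper30.PP.p_fun p K M (finrank K M) δ _ finrank_pos
    hs.copm (by rw [← hs.ord]; exact pow_orderOf_eq_one δ) hs.irr hs.dvdP).2 _ hhom).2 α₀ hpol
    h0 0
  rw [pow_zero] at h1
  have h2 : act (1 : M ≃ₐ[K] M) α₀ = α₀ := by ext; rfl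
  rw [h2] at h1
  -- the primes
  have hvis := spl_vis hB B hv
  obtain ⟨hWQ, hWw, hWv⟩ : Above (D.W₂ v) (B.Q v) ∧ Above (D.W₂ v) (B.w v) ∧ Above (D.W₂ v) v := by
    obtain ⟨a1, a2, a3⟩ := D.W₂a v hv
    obtain ⟨b1, b2, b3, b4⟩ := B.Wa v hvis
    exact ⟨Pool.Agent.Helper96.RL.above_trans a2 b2, Pool.Agent.Helper96.RL.above_trans a2 b3, a1⟩
  have hu := D.unr v hv.1 (D.W₂ v) hWv
  have huM := ord_of_unr hWv hWw hu
  have huK := ord_of_unr hWv hWQ hu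
  have hup : D.W₂ v ∉ up M₂ B.S := notMem_up hv.1 hWv
  have hA0 : algebraMap K₁ M₂ (a : K₁) ≠ 0 := (_root_.map_ne_zero _).2 a.ne_zero
  have h3 : (p : ℤ) ∣ ordv (B.w v) (α₀ : M) := by
    rw [← ordp_zero_iff]; exact h1
  rw [← huM, hα₀, ordv_mul _ a₀.ne_zero hA0, huK] at h3
  have h4 : (p : ℤ) ∣ ordv (B.Q v) (a : K₁) := (Int.dvd_add_right (D.a₀S _ hup)).1 h3
  exact he (ordp_zero_iff.2 h4)

end main

end Pool.Agent.Helper42.WY
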