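import Pool.Agent.Helper42.WY.SELO
import Pool.Agent.Helper42.WY.Quo
import Pool.Agent.Helper42.PW.MOMA

/-!
# Project WY: the bad classes for `χ₀ ≡ ω` and the abstract systems
-/

set_option autoImplicit false
set_option linter.unusedSectionVars false

namespace Pool.Agent.Helper42.WY

open NumberField Polynomial Module IsDedekindDomain
open Pool.Agent.Helper51.RP Pool.Agent.Helper42.RD Pool.Agent.Helper42.PP Pool.Agent.Helper42.PP1
open Pool.Agent.Helper42.PB Pool.Agent.Helper42.PW Pool.Agent.Helper38.WY Pool.Agent.Helper11.PP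
open Pool.Agent.Helper59.PP (hom_prod hom_inv hom_div labs_fin dvd_conj)
open Pool.Agent.Helper79.PP (clp_eq clp_mul)
open Pool.Agent.Helper11.M3 (Piv Bad₄)
open Pool.Agent.Helper17.PP (Sys)

theorem adj_lin {p : ℕ} [Fact p.Prime] (i : ℕ) (z : AdjoinRoot (X - C (i : ZMod p))) :
    ∃ c : ZMod p, z = algebraMap (ZMod p) _ c := by
  obtain ⟨f, rfl⟩ := AdjoinRoot.mk_surjective z
  refine ⟨f.eval (i : ZMod p), ?_⟩
  rw [AdjoinRoot.algebraMap_eq]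
  show _ = AdjoinRoot.mk (X - C (i : ZMod p)) (C (f.eval (i : ZMod p)))
  rw [AdjoinRoot.mk_eq_mk]
  exact Polynomial.X_sub_C_dvd_sub_C_eval

theorem adj_solve {p : ℕ} [Fact p.Prime] (i : ℕ) (u v : AdjoinRoot (X - C (i : ZMod p)))
    (hv : v ≠ 0) : ∃ j : ℕ, u + (j : AdjoinRoot (X - C (i : ZMod p))) * v = 0 := by
  obtain ⟨c, rfl⟩ := adj_lin i u
  obtain ⟨d, rfl⟩ := adj_lin i v
  have hd : d ≠ 0 := by rintro rfl; exact hv (map_zero _)
  refine ⟨(-(c / d)).val, ?_⟩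
  have h : (((-(c / d)).val : ℕ) : AdjoinRoot (X - C (i : ZMod p))) =
      algebraMap (ZMod p) _ (-(c / d)) := by
    rw [← map_natCast (algebraMap (ZMod p) (AdjoinRoot (X - C (i : ZMod p)))), ZMod.natCast_zmod_val]
  rw [h, ← map_mul, ← map_add, neg_mul, div_mul_cancel₀ _ hd, add_neg_cancel, map_zero]

section main

variable {p : ℕ} [hp : Fact p.Prime] {K M K₁ M₁ J M₂ : Type} [Field K] [NumberField K] [Field M]
  [NumberField M] [Field K₁] [NumberField K₁] [Field M₁] [NumberField M₁] [Field J]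
  [NumberField J] [Field M₂] [NumberField M₂] [Algebra K M] [Algebra K K₁] [Algebra K M₁]
  [Algebra M M₁] [Algebra K₁ M₁] [Algebra K J] [Algebra K M₂] [Algebra M M₂] [Algebra K₁ M₂]
  [Algebra M₁ M₂] [Algebra J M₂] {ε : K₁} {δ : M ≃ₐ[K] M} {P : (ZMod p)[X]} {a₀ : M₂ˣ}

/-- `J = K`. -/
theorem selO_a0 (hGRP : N_GRP) (hCHG : N_CHG) (hSGB : Y_SGB) (hPWA : Y_PWA) (hTri : O_TRI)
    (hp2 : p ≠ 2) {i : ℕ} [Fact (Irreducible (X - C (i : ZMod p)))]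
    (hB : SitB p K M K₁ M₁ J M₂ ε δ (X - C (i : ZMod p)) a₀)
    (hε : ∃ ε₀ : M, algebraMap M M₂ ε₀ = algebraMap K₁ M₂ ε ∧ δ ε₀ = ε₀ ^ i)
    (hsurj : ∀ z : M₂, ∃ y : M, algebraMap M M₂ y = z) (T : Set (K →+* ℂ_[p]))
    (B : Base p K M K₁ M₁ ε δ (X - C (i : ZMod p))) (D : BaseB B a₀)
    (aτ : K₁ˣ) {n : ℕ} (E : TauX n B a₀ T aτ)
    (a : K₁ˣ) (ha : OmType p K ε (a : K₁)) (hloc : LocS p (up K₁ B.S) (a / aτ)) (y : Mˣ)
    (hy : SelX (above T : Set (M₂ →+* ℂ_[p])) (X - C (i : ZMod p)) δ (algebraMap K₁ M₂ ε)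
      ((a₀ : M₂) * algebraMap K₁ M₂ (a : K₁)) y)
    (hn : ∀ j : ℕ, ¬ ∃ w : M₂, w ^ p =
      algebraMap M M₂ (y : M) * ((a₀ : M₂) * algebraMap K₁ M₂ (a : K₁)) ^ j) (N : B.LP → Prop) :
    Bad₄ (sysB B E.toTauF (Spl M₂ B.S) D.s0 aτ) N (B.lab a) := by
  have hs := hB.sit
  have hε₂ : IsPrimitiveRoot (algebraMap K₁ M₂ ε) p :=
    hs.prim.map_of_injective (algebraMap K₁ M₂).injective
  have hα : (a₀ : M₂) * algebraMap K₁ M₂ (a : K₁) ≠ 0 :=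
    mul_ne_zero a₀.ne_zero ((_root_.map_ne_zero _).2 a.ne_zero)
  obtain ⟨α, hα₁⟩ := hsurj ((a₀ : M₂) * algebraMap K₁ M₂ (a : K₁))
  have hα0 : α ≠ 0 := by rintro rfl; exact hα (by rw [← hα₁, map_zero])
  set α₀ : Mˣ := Units.mk0 α hα0 with hα₀
  have hα₂ : algebraMap M M₂ (α₀ : M) = (a₀ : M₂) * algebraMap K₁ M₂ (a : K₁) := hα₁
  have hselα := selX_alpha hTri hp2 hB hε hsurj (above T : Set (M₂ →+* ℂ_[p])) a ha α₀ hα₂
  -- the powers
  have hpow : ∀ j : ℕ, SelX (above T : Set (M₂ →+* ℂ_[p])) (X - C (i : ZMod p)) δ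
      (algebraMap K₁ M₂ ε) ((a₀ : M₂) * algebraMap K₁ M₂ (a : K₁)) (y * α₀ ^ j) := by
    intro j
    induction j with
    | zero => rw [pow_zero, mul_one]; exact hy
    | succ j ih => rw [pow_succ, ← mul_assoc]; exact selX_mul hGRP hSGB hε₂ hα ih hselα
  have hnp : ∀ j : ℕ, ¬ Pw p (y * α₀ ^ j) := by
    rintro j ⟨z, hz⟩
    refine hn j ⟨algebraMap M M₂ z, ?_⟩
    have h := congrArg (fun u : Mˣ => algebraMap M M₂ (u : M)) hz
    simp only [Units.val_mul, Units.val_pow_eq_pow_val, map_mul, map_pow] at h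
    rw [hα₂] at h
    exact h.symm
  have key : ∀ j : ℕ, (∀ P₁, Piv (sysB B E.toTauF (Spl M₂ B.S) D.s0 aτ) N
      (B.lab a) P₁ → ccB B (Spl M₂ B.S) a (y * α₀ ^ j) P₁ = 0) →
      Bad₄ (sysB B E.toTauF (Spl M₂ B.S) D.s0 aτ) N (B.lab a) := by
    intro j hj
    obtain ⟨h1, h2⟩ := selX_sol hGRP hCHG hSGB hPWA hB T B D aτ E a ha hloc _ (hpow j)
    exact ⟨_, _, h1, h2.resolve_right (hnp j), hj⟩
  have hfin : (B.labs a).Finite := labs_fin B a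
  by_cases hP : ∃ P₁, Piv (sysB B E.toTauF (Spl M₂ B.S) D.s0 aτ) N (B.lab a) P₁
  · obtain ⟨P₁, hP₁⟩ := hP
    have huniq : ∀ P₂, Piv (sysB B E.toTauF (Spl M₂ B.S) D.s0 aτ) N (B.lab a) P₂ →
        P₂ = P₁ := by
      intro P₂ hP₂
      by_contra hne
      exact lt_asymm (hP₁.top P₂ hP₂.mem hP₂.isN hne) (hP₂.top P₁ hP₁.mem hP₁.isN (Ne.symm hne))
    by_cases hv : P₁.1.1 ∈ Spl M₂ B.S
    · have he : ordp p (B.Q P₁.1.1) a = (P₁.1.2 : ZMod p) :=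
        (Pool.Agent.Helper11.PP.mem_lab B hfin P₁).1 hP₁.mem
      have hnv := nv_alpha hB B D a α₀ hα₂ hselα.pol P₁.1.1 hv (by
        rw [he]; exact Units.ne_zero _)
      obtain ⟨j, hj⟩ := adj_solve i (B.nv P₁.1.1 y) (B.nv P₁.1.1 α₀) hnv
      refine key j fun P₂ hP₂ => ?_
      rw [huniq P₂ hP₂]
      have hhom : Hom (ordp p (B.w P₁.1.1)) := by
        intro a b
        show ((ordv (B.w P₁.1.1) ((a : M) * (b : M)) : ℤ) : ZMod p) = _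
        rw [Pool.Agent.Helper90.RP.Dual.ordv_mul _ a.ne_zero b.ne_zero]
        push_cast
        rfl
      have hH : Hom (B.nv P₁.1.1) := ((Pool.Agent.Helper30.PP.p_fun p K M (finrank K M) δ _
        finrank_pos hs.copm (by rw [← hs.ord]; exact pow_orderOf_eq_one δ) hs.irr hs.dvdP).2 _
        hhom).1.1
      have h1 : ccB B (Spl M₂ B.S) a (y * α₀ ^ j) P₁ = B.nv P₁.1.1 (y * α₀ ^ j) :=
        if_pos ⟨hP₁.mem, hv⟩
      have h2 : ∀ k : ℕ, B.nv P₁.1.1 (α₀ ^ k) =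
          (k : AdjoinRoot (X - C (i : ZMod p))) * B.nv P₁.1.1 α₀ := by
        intro k
        induction k with
        | zero =>
          have h3 := hH 1 1
          rw [mul_one, left_eq_add] at h3
          rw [pow_zero, h3, Nat.cast_zero, zero_mul]
        | succ k ih => rw [pow_succ, hH, ih, Nat.cast_succ, add_mul, one_mul]
      rw [h1, hH, h2]
      exact hj
    · refine key 0 fun P₂ hP₂ => ?_
      rw [huniq P₂ hP₂]
      exact if_neg fun h => hv h.2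
  · exact key 0 fun P₂ hP₂ => absurd ⟨P₂, hP₂⟩ hP

/-- **BdO gives Bad₄**, `J = K`. -/
theorem selO_a (hGRP : N_GRP) (hCHG : N_CHG) (hSGB : Y_SGB) (hPWA : Y_PWA) (hTri : O_TRI)
    (hp2 : p ≠ 2) {i : ℕ} [Fact (Irreducible (X - C (i : ZMod p)))]
    (hB : SitB p K M K₁ M₁ J M₂ ε δ (X - C (i : ZMod p)) a₀)
    (hε : ∃ ε₀ : M, algebraMap M M₂ ε₀ = algebraMap K₁ M₂ ε ∧ δ ε₀ = ε₀ ^ i)
    (hsurj : ∀ z : M₂, ∃ y : M, algebraMap M M₂ y = z) (T : Set (K →+* ℂ_[p]))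
    (B : Base p K M K₁ M₁ ε δ (X - C (i : ZMod p))) (D : BaseB B a₀)
    (aτ : K₁ˣ) {n : ℕ} (E : TauX n B a₀ T aτ)
    (a : K₁ˣ) (hcl : clp p a ∈ BdO T (X - C (i : ZMod p)) δ ε a₀)
    (ha : OmType p K ε (a : K₁)) (hloc : LocS p (up K₁ B.S) (a / aτ)) (N : B.LP → Prop) :
    Bad₄ (sysB B E.toTauF (Spl M₂ B.S) D.s0 aτ) N (B.lab a) := by
  obtain ⟨y, a₁, haa, hsel, hy⟩ := hcl
  obtain ⟨z, hz⟩ := clp_eq.1 haa.symm
  have h1 : OmType p K ε (a₁ : K₁) := by rw [hz]; exact om_mul_pow ha z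
  have h2 : LocS p (up K₁ B.S) (a₁ / aτ) := by
    have h3 := (Pool.Agent.Helper15.PP.gZ p _).mul_mem (Pool.Agent.Helper15.PP.mem_gZ.2 hloc)
      (Pool.Agent.Helper15.PP.mem_gZ.2 (locS_pow (p := p) (Z := up K₁ B.S) z))
    have h4 : a₁ / aτ = a / aτ * z ^ p := by rw [hz, mul_div_right_comm]
    rw [h4]
    exact Pool.Agent.Helper15.PP.mem_gZ.1 h3
  have h5 := selO_a0 hGRP hCHG hSGB hPWA hTri hp2 hB hε hsurj T B D aτ E a₁ h1 h2 y hsel hy N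
  rw [hz, lab_mul_pow] at h5
  exact h5

end main

end Pool.Agent.Helper42.WY
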